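import Mathlib

namespace Pool.Agent.P.MP_ac2766_co

open Finset

lemma choose_two_mul_le (r l : ℕ) : (2 * r).choose (2 * l) ≤ r.choose l * (2 * r) ^ l := by
  induction l with
  | zero => simp
  | succ l ih =>
    have h1 : (2 * r).choose (2 * l + 1) * (2 * l + 1) = (2 * r).choose (2 * l) * (2 * r - 2 * l) :=
      Nat.choose_succ_right_eq _ _
    have h2 : (2 * r).choose (2 * l + 1 + 1) * (2 * l + 1 + 1) =
        (2 * r).choose (2 * l + 1) * (2 * r - (2 * l + 1)) := Nat.choose_succ_right_eq _ _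
    have h3 : r.choose (l + 1) * (l + 1) = r.choose l * (r - l) := Nat.choose_succ_right_eq _ _
    have h4 : 2 * r - 2 * l = 2 * (r - l) := by omega
    have key : (2 * r).choose (2 * (l + 1)) * (2 * (l + 1)) ≤
        r.choose (l + 1) * (2 * r) ^ (l + 1) * (2 * (l + 1)) := by
      calc (2 * r).choose (2 * (l + 1)) * (2 * (l + 1))
          = (2 * r).choose (2 * l + 1) * (2 * r - (2 * l + 1)) := h2
        _ ≤ ((2 * r).choose (2 * l + 1) * (2 * l + 1)) * (2 * r) := by
            rw [mul_assoc]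
            apply Nat.mul_le_mul_left
            calc 2 * r - (2 * l + 1) ≤ 1 * (2 * r) := by omega
              _ ≤ (2 * l + 1) * (2 * r) := Nat.mul_le_mul_right _ (by omega)
        _ = (2 * r).choose (2 * l) * (2 * (r - l)) * (2 * r) := by rw [h1, h4]
        _ ≤ (r.choose l * (2 * r) ^ l) * (2 * (r - l)) * (2 * r) := by gcongr
        _ = (r.choose l * (r - l)) * (2 * r) ^ (l + 1) * 2 := by ring
        _ = r.choose (l + 1) * (2 * r) ^ (l + 1) * (2 * (l + 1)) := by rw [← h3]; ring
    exact Nat.le_of_mul_le_mul_right key (by omega)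

lemma sum_range_even_odd (f : ℕ → ℝ) (r : ℕ) :
    ∑ j ∈ range (2 * r + 1), f j = ∑ l ∈ range (r + 1), f (2 * l) + ∑ l ∈ range r, f (2 * l + 1) := by
  induction r with
  | zero => simp
  | succ r ih =>
    rw [show 2 * (r + 1) + 1 = 2 * r + 1 + 1 + 1 by ring, sum_range_succ, sum_range_succ, ih,
      sum_range_succ _ (r + 1), sum_range_succ (fun l => f (2 * l + 1)) r]
    rw [show 2 * r + 1 + 1 = 2 * (r + 1) by ring]
    ring

lemma two_point (r : ℕ) (e d : ℝ) :
    (e + d) ^ (2 * r) + (e - d) ^ (2 * r) ≤ 2 * (e ^ 2 + 2 * r * d ^ 2) ^ r := by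
  have h1 : (e + d) ^ (2 * r) + (e - d) ^ (2 * r) =
      ∑ j ∈ range (2 * r + 1),
        (d ^ j + (-d) ^ j) * e ^ (2 * r - j) * ((2 * r).choose j : ℝ) := by
    rw [sub_eq_add_neg, add_comm e d, add_comm e (-d), add_pow, add_pow, ← sum_add_distrib]
    exact sum_congr rfl fun j _ => by ring
  rw [h1, sum_range_even_odd]
  have h2 : ∑ l ∈ range r, (d ^ (2 * l + 1) + (-d) ^ (2 * l + 1)) * e ^ (2 * r - (2 * l + 1)) *
      ((2 * r).choose (2 * l + 1) : ℝ) = 0 := by
    refine sum_eq_zero fun l _ => ?_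
    rw [Odd.neg_pow ⟨l, rfl⟩]
    ring
  rw [h2, add_zero, add_comm (e ^ 2), add_pow, mul_sum]
  refine sum_le_sum fun l hl => ?_
  have hl' : l ≤ r := Nat.lt_succ_iff.1 (mem_range.1 hl)
  have h3 : ((2 * r).choose (2 * l) : ℝ) ≤ r.choose l * (2 * r) ^ l := by
    exact_mod_cast choose_two_mul_le r l
  rw [Even.neg_pow (even_two_mul l), show 2 * r - 2 * l = 2 * (r - l) by omega, pow_mul, pow_mul,
    mul_pow]
  have h4 : 0 ≤ (d ^ 2) ^ l * (e ^ 2) ^ (r - l) := by positivity
  nlinarith [mul_le_mul_of_nonneg_left h3 h4]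

lemma minkowski {α : Type*} (s : Finset α) (u v : α → ℝ) (hu : ∀ x, 0 ≤ u x) (hv : ∀ x, 0 ≤ v x)
    {r : ℕ} (hr : 1 ≤ r) {c E D : ℝ} (hE : 0 ≤ E) (hD : 0 ≤ D)
    (h1 : ∑ x ∈ s, u x ^ r ≤ c * E ^ r) (h2 : ∑ x ∈ s, v x ^ r ≤ c * D ^ r) :
    ∑ x ∈ s, (u x + v x) ^ r ≤ c * (E + D) ^ r := by
  have hr0 : r ≠ 0 := by omega
  rcases hE.eq_or_lt with rfl | hE
  · rw [zero_pow hr0, mul_zero] at h1
    have h3 : ∀ x ∈ s, u x ^ r = 0 :=
      (sum_eq_zero_iff_of_nonneg fun x _ => pow_nonneg (hu x) r).1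
        (le_antisymm h1 (sum_nonneg fun x _ => pow_nonneg (hu x) r))
    rw [zero_add]
    refine le_trans (le_of_eq (sum_congr rfl fun x hx => ?_)) h2
    rw [pow_eq_zero_iff hr0 |>.1 (h3 x hx), zero_add]
  rcases hD.eq_or_lt with rfl | hD
  · rw [zero_pow hr0, mul_zero] at h2
    have h3 : ∀ x ∈ s, v x ^ r = 0 :=
      (sum_eq_zero_iff_of_nonneg fun x _ => pow_nonneg (hv x) r).1
        (le_antisymm h2 (sum_nonneg fun x _ => pow_nonneg (hv x) r))
    rw [add_zero]
    refine le_trans (le_of_eq (sum_congr rfl fun x hx => ?_)) h1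
    rw [pow_eq_zero_iff hr0 |>.1 (h3 x hx), add_zero]
  have hS : 0 < E + D := add_pos hE hD
  have key : ∀ x, (u x + v x) ^ r ≤
      (E + D) ^ r * (E / (E + D) / E ^ r * u x ^ r + D / (E + D) / D ^ r * v x ^ r) := by
    intro x
    have hc := (convexOn_pow (𝕜 := ℝ) r).2
      (div_nonneg (hu x) hE.le) (div_nonneg (hv x) hD.le)
      (div_nonneg hE.le hS.le) (div_nonneg hD.le hS.le) (by field_simp)
    simp only [smul_eq_mul] at hc
    have h3 : u x + v x = (E + D) * (E / (E + D) * (u x / E) + D / (E + D) * (v x / D)) := by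
      field_simp
    rw [h3, mul_pow]
    apply mul_le_mul_of_nonneg_left _ (pow_nonneg hS.le r)
    refine hc.trans (le_of_eq ?_)
    rw [div_pow, div_pow]
    ring
  refine (sum_le_sum fun x _ => key x).trans ?_
  rw [← mul_sum, sum_add_distrib, ← mul_sum, ← mul_sum, mul_comm c]
  apply mul_le_mul_of_nonneg_left _ (pow_nonneg hS.le r)
  have hEr : 0 < E ^ r := pow_pos hE r
  have hDr : 0 < D ^ r := pow_pos hD r
  calc E / (E + D) / E ^ r * ∑ x ∈ s, u x ^ r + D / (E + D) / D ^ r * ∑ x ∈ s, v x ^ r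
      ≤ E / (E + D) / E ^ r * (c * E ^ r) + D / (E + D) / D ^ r * (c * D ^ r) := by
        gcongr
    _ = c := by field_simp

variable {ι : Type*} [DecidableEq ι]

/-- the sign of coordinate `i` of the cube point `x`. -/
def sg (x : Finset ι) (i : ι) : ℝ := if i ∈ x then -1 else 1

/-- the character. -/
def chi (S x : Finset ι) : ℝ := ∏ i ∈ S, sg x i

lemma chi_insert_left {S : Finset ι} {i : ι} (hi : i ∉ S) (x : Finset ι) :
    chi (insert i S) x = sg x i * chi S x := prod_insert hi

lemma chi_insert_right {S : Finset ι} {i : ι} (hi : i ∉ S) (x : Finset ι) :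
    chi S (insert i x) = chi S x := by
  refine prod_congr rfl fun j hj => ?_
  have : j ≠ i := fun h => hi (h ▸ hj)
  simp [sg, this]

theorem hyper {r : ℕ} (hr : 1 ≤ r) (U : Finset ι) (a : Finset ι → ℝ) :
    ∑ x ∈ U.powerset, (∑ S ∈ U.powerset, a S * chi S x) ^ (2 * r) ≤
      2 ^ U.card * (∑ S ∈ U.powerset, (2 * r : ℝ) ^ S.card * a S ^ 2) ^ r := by
  induction U using Finset.induction_on generalizing a with
  | empty => simp [chi, pow_mul]
  | insert i U hi ih =>
    set e : Finset ι → ℝ := fun x => ∑ S ∈ U.powerset, a S * chi S x with he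
    set d : Finset ι → ℝ := fun x => ∑ S ∈ U.powerset, a (insert i S) * chi S x with hd
    have hnot : ∀ S ∈ U.powerset, i ∉ S := fun S hS h => hi (mem_powerset.1 hS h)
    have h1 : ∀ x ∈ U.powerset, ∑ S ∈ (insert i U).powerset, a S * chi S x = e x + d x := by
      intro x hx
      rw [sum_powerset_insert hi]
      congr 1
      refine sum_congr rfl fun S hS => ?_
      rw [chi_insert_left (hnot S hS)]
      simp [sg, hnot x hx]
    have h2 : ∀ x ∈ U.powerset,
        ∑ S ∈ (insert i U).powerset, a S * chi S (insert i x) = e x - d x := by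
      intro x _
      rw [sum_powerset_insert hi, sub_eq_add_neg, hd, ← sum_neg_distrib]
      congr 1
      · exact sum_congr rfl fun S hS => by rw [chi_insert_right (hnot S hS)]
      · refine sum_congr rfl fun S hS => ?_
        rw [chi_insert_left (hnot S hS), chi_insert_right (hnot S hS)]
        simp [sg]
    have h12 : ∑ x ∈ (insert i U).powerset, (∑ S ∈ (insert i U).powerset, a S * chi S x) ^ (2 * r)
        = ∑ x ∈ U.powerset, ((e x + d x) ^ (2 * r) + (e x - d x) ^ (2 * r)) := by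
      rw [sum_powerset_insert hi
        (f := fun x => (∑ S ∈ (insert i U).powerset, a S * chi S x) ^ (2 * r)), ← sum_add_distrib]
      exact sum_congr rfl fun x hx => by rw [h1 x hx, h2 x hx]
    rw [h12]
    refine (sum_le_sum fun x _ => two_point r (e x) (d x)).trans ?_
    rw [← mul_sum, card_insert_of_notMem hi, pow_succ, mul_comm _ (2 : ℝ), mul_assoc]
    apply mul_le_mul_of_nonneg_left _ (by norm_num)
    rw [sum_powerset_insert hi]
    apply minkowski _ (fun x => e x ^ 2) (fun x => 2 * r * d x ^ 2) (fun x => by positivity)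
      (fun x => by positivity) hr (sum_nonneg fun S _ => by positivity)
      (sum_nonneg fun S _ => by positivity)
    · simpa only [← pow_mul] using ih a
    · have h3 := ih (fun S => a (insert i S))
      have h4 : ∑ S ∈ U.powerset, (2 * r : ℝ) ^ (insert i S).card * a (insert i S) ^ 2 =
          2 * r * ∑ S ∈ U.powerset, (2 * r : ℝ) ^ S.card * a (insert i S) ^ 2 := by
        rw [mul_sum]
        refine sum_congr rfl fun S hS => ?_
        rw [card_insert_of_notMem (hnot S hS)]
        ring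
      rw [h4, mul_pow (2 * r : ℝ), mul_left_comm]
      simp only [mul_pow (2 * r : ℝ), ← mul_sum, ← pow_mul]
      exact mul_le_mul_of_nonneg_left h3 (by positivity)

end Pool.Agent.P.MP_ac2766_co
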