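import Mathlib
import Pool.Agent.P.MP_ac2766_co.Hyper

namespace Pool.Agent.P.MP_ac2766_co

open Finset

variable {ι : Type*} [DecidableEq ι]

lemma sg_mul_self (x : Finset ι) (i : ι) : sg x i * sg x i = 1 := by
  unfold sg; split_ifs <;> norm_num

lemma chi_mul_self (S x : Finset ι) : chi S x * chi S x = 1 := by
  unfold chi
  rw [← prod_mul_distrib]
  exact prod_eq_one fun i _ => sg_mul_self x i

lemma chi_eq (S x : Finset ι) : chi S x = (-1) ^ (S ∩ x).card := by
  unfold chi sg
  rw [prod_ite, prod_const, prod_const_one, mul_one, filter_mem_eq_inter]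

lemma chi_comm (S x : Finset ι) : chi S x = chi x S := by
  rw [chi_eq, chi_eq, inter_comm]

lemma chi_empty (x : Finset ι) : chi ∅ x = 1 := by simp [chi]

lemma sg_symmDiff (x y : Finset ι) (i : ι) : sg (symmDiff x y) i = sg x i * sg y i := by
  unfold sg
  by_cases hx : i ∈ x <;> by_cases hy : i ∈ y <;> simp [mem_symmDiff, hx, hy]

lemma chi_symmDiff (S x y : Finset ι) : chi S (symmDiff x y) = chi S x * chi S y := by
  unfold chi
  rw [← prod_mul_distrib]
  exact prod_congr rfl fun i _ => sg_symmDiff x y i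

/-- unnormalised Fourier coefficient of a set of cube points. -/
def hat (A : Finset (Finset ι)) (S : Finset ι) : ℝ := ∑ x ∈ A, chi S x

lemma hat_empty (A : Finset (Finset ι)) : hat A ∅ = A.card := by simp [hat, chi_empty]

variable [Fintype ι]

/-- inner product of two sign vectors. -/
def ip (x y : Finset ι) : ℝ := ∑ i, sg x i * sg y i

lemma ip_comm (x y : Finset ι) : ip x y = ip y x := sum_congr rfl fun _ _ => mul_comm _ _

lemma ip_self (x : Finset ι) : ip x x = Fintype.card ι := by
  simp [ip, sg_mul_self]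

lemma sum_chi_mul (x y : Finset ι) :
    ∑ S, chi S x * chi S y = if x = y then 2 ^ Fintype.card ι else 0 := by
  have h1 : ∑ S, chi S x * chi S y = ∏ i, (1 + sg x i * sg y i) := by
    rw [prod_one_add, powerset_univ]
    refine sum_congr rfl fun S _ => ?_
    unfold chi
    rw [prod_mul_distrib]
  rw [h1]
  split_ifs with h
  · subst h
    simp only [sg_mul_self]
    rw [prod_const, card_univ]
    norm_num
  · obtain ⟨i, hi⟩ : ∃ i, ¬ (i ∈ x ↔ i ∈ y) := by
      by_contra hc
      push Not at hc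
      exact h (Finset.ext hc)
    refine prod_eq_zero (mem_univ i) ?_
    unfold sg
    by_cases hx : i ∈ x <;> by_cases hy : i ∈ y <;> simp_all

lemma parseval (A : Finset (Finset ι)) :
    ∑ S, hat A S ^ 2 = 2 ^ Fintype.card ι * A.card := by
  have h1 : ∀ S, hat A S ^ 2 = ∑ x ∈ A, ∑ y ∈ A, chi S x * chi S y := by
    intro S
    rw [sq, hat, sum_mul_sum]
  simp only [h1]
  rw [sum_comm]
  have h2 : ∀ x ∈ A, ∑ S, ∑ y ∈ A, chi S x * chi S y = 2 ^ Fintype.card ι := by
    intro x hx
    rw [sum_comm]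
    simp only [sum_chi_mul]
    rw [sum_ite_eq, if_pos hx]
  rw [sum_congr rfl h2, sum_const, nsmul_eq_mul, mul_comm]

lemma level_bound (A : Finset (Finset ι)) {L r j : ℕ} (hr : 1 ≤ r) (hL : L ≤ j * r)
    (hA : (2 : ℝ) ^ Fintype.card ι ≤ 2 ^ L * A.card) :
    ∑ S with S.card = j, hat A S ^ 2 ≤ (A.card : ℝ) ^ 2 * (4 * r) ^ j := by
  set W : ℝ := ∑ S with S.card = j, hat A S ^ 2 with hW
  have hW0 : 0 ≤ W := sum_nonneg fun S _ => sq_nonneg _
  set a : Finset ι → ℝ := fun S => if S.card = j then hat A S else 0 with ha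
  set h : Finset ι → ℝ := fun x => ∑ S, a S * chi S x with hh
  have h1 : ∑ x ∈ A, h x = W := by
    rw [hh, sum_comm, hW, sum_filter]
    refine sum_congr rfl fun S _ => ?_
    rw [← mul_sum]
    simp only [ha]
    split_ifs
    · rw [sq]; rfl
    · rw [zero_mul]
  have h2 := hyper hr (univ : Finset ι) a
  rw [powerset_univ, card_univ] at h2
  have h3 : ∑ S : Finset ι, (2 * r : ℝ) ^ S.card * a S ^ 2 = (2 * r) ^ j * W := by
    rw [hW, sum_filter, mul_sum]
    refine sum_congr rfl fun S _ => ?_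
    simp only [ha]
    split_ifs with hS
    · rw [hS]
    · simp
  rw [h3] at h2
  obtain ⟨q, hq⟩ : ∃ q, 2 * r = q + 1 := ⟨2 * r - 1, by omega⟩
  have h4 : W ^ (2 * r) ≤ (A.card : ℝ) ^ q * ∑ x, h x ^ (2 * r) := by
    calc W ^ (2 * r) ≤ (∑ x ∈ A, |h x|) ^ (2 * r) := by
          apply pow_le_pow_left₀ hW0
          rw [← h1]
          exact sum_le_sum fun x _ => le_abs_self _
      _ ≤ (A.card : ℝ) ^ q * ∑ x ∈ A, |h x| ^ (2 * r) := by
          rw [hq]
          exact pow_sum_le_card_mul_sum_pow (fun x _ => abs_nonneg _) q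
      _ ≤ (A.card : ℝ) ^ q * ∑ x, h x ^ (2 * r) := by
          apply mul_le_mul_of_nonneg_left _ (by positivity)
          simp only [(even_two_mul r).pow_abs]
          exact sum_le_sum_of_subset_of_nonneg (subset_univ _)
            fun x _ _ => (even_two_mul r).pow_nonneg _
  rcases hW0.eq_or_lt with h0 | hWpos
  · rw [← h0]; positivity
  have h5 : (2 : ℝ) ^ L ≤ 2 ^ (j * r) := pow_le_pow_right₀ (by norm_num) hL
  have h6 : W ^ r * W ^ r ≤ ((A.card : ℝ) ^ 2 * (4 * r) ^ j) ^ r * W ^ r := by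
    calc W ^ r * W ^ r = W ^ (2 * r) := by rw [two_mul, pow_add]
      _ ≤ (A.card : ℝ) ^ q * (2 ^ Fintype.card ι * ((2 * r) ^ j * W) ^ r) :=
          h4.trans (mul_le_mul_of_nonneg_left h2 (by positivity))
      _ ≤ (A.card : ℝ) ^ q * ((2 ^ (j * r) * A.card) * ((2 * r) ^ j * W) ^ r) := by
          gcongr
          exact hA.trans (by gcongr)
      _ = (A.card : ℝ) ^ (q + 1) * (2 ^ j * (2 * r) ^ j) ^ r * W ^ r := by
          rw [mul_pow _ W, mul_pow (2 ^ j : ℝ), pow_mul]; ring
      _ = ((A.card : ℝ) ^ 2 * (4 * r) ^ j) ^ r * W ^ r := by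
          have h8 : (2 ^ j * (2 * r) ^ j : ℝ) = (4 * r) ^ j := by
            rw [← mul_pow]; congr 1; ring
          rw [← hq, h8, mul_pow ((A.card : ℝ) ^ 2), ← pow_mul (A.card : ℝ)]
  have h7 := le_of_mul_le_mul_right h6 (pow_pos hWpos r)
  exact (pow_le_pow_iff_left₀ hW0 (by positivity) (by omega)).1 h7

/-- balanced points. -/
noncomputable def bal (ι : Type*) [DecidableEq ι] [Fintype ι] : Finset (Finset ι) :=
  univ.filter fun z => ∑ i, sg z i = 0

/-- number of orthogonal pairs. -/
noncomputable def pairs (A B : Finset (Finset ι)) : ℝ :=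
  ∑ x ∈ A, ((B.filter fun y => ip x y = 0).card : ℝ)

lemma pairs_eq (A B : Finset (Finset ι)) :
    2 ^ Fintype.card ι * pairs A B = ∑ S, hat (bal ι) S * hat A S * hat B S := by
  have h1 : ∀ S, hat (bal ι) S * hat A S * hat B S =
      ∑ x ∈ A, ∑ y ∈ B, ∑ z ∈ bal ι, chi S z * chi S (symmDiff x y) := by
    intro S
    rw [mul_assoc, hat, hat, hat, sum_mul_sum A B, mul_sum]
    refine sum_congr rfl fun x _ => ?_
    rw [mul_sum]
    refine sum_congr rfl fun y _ => ?_
    rw [sum_mul, chi_symmDiff]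
  simp only [h1]
  rw [sum_comm, pairs, mul_sum]
  refine sum_congr rfl fun x _ => ?_
  rw [sum_comm, card_filter, Nat.cast_sum, mul_sum]
  refine sum_congr rfl fun y _ => ?_
  rw [sum_comm]
  simp only [sum_chi_mul]
  rw [sum_ite_eq']
  have h2 : symmDiff x y ∈ bal ι ↔ ip x y = 0 := by
    simp [bal, ip, sg_symmDiff]
  by_cases h : ip x y = 0
  · simp [h, h2.2 h]
  · simp [h, mt h2.1 h]

omit [Fintype ι] in
lemma sg_map (e : Equiv.Perm ι) (z : Finset ι) (i : ι) :
    sg (z.map e.toEmbedding) (e i) = sg z i := by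
  simp [sg]

lemma hat_bal_congr {S T : Finset ι} (h : S.card = T.card) : hat (bal ι) S = hat (bal ι) T := by
  obtain ⟨e, rfl⟩ := Equiv.Perm.exists_map_finset_eq S T h
  unfold hat
  refine sum_equiv e.finsetCongr (fun z => ?_) (fun z _ => ?_)
  · simp only [bal, mem_filter, mem_univ, true_and, Equiv.finsetCongr_apply]
    rw [← Equiv.sum_comp e (fun i => sg (z.map e.toEmbedding) i)]
    simp only [sg_map]
  · simp only [chi, Equiv.finsetCongr_apply, prod_map, Equiv.coe_toEmbedding, sg_map]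

lemma hat_bal_identity (S : Finset ι) :
    ∑ i ∈ S, hat (bal ι) (S.erase i) + ∑ i ∈ Sᶜ, hat (bal ι) (insert i S) = 0 := by
  unfold hat
  rw [sum_comm, sum_comm (s := Sᶜ), ← sum_add_distrib]
  refine sum_eq_zero fun z hz => ?_
  have h1 : ∑ i, sg z i = 0 := (mem_filter.1 hz).2
  have h2 : ∀ i ∈ S, chi (S.erase i) z = sg z i * chi S z := by
    intro i hi
    have := chi_insert_left (notMem_erase i S) z
    rw [insert_erase hi] at this
    rw [this, ← mul_assoc, sg_mul_self, one_mul]
  have h3 : ∀ i ∈ Sᶜ, chi (insert i S) z = sg z i * chi S z :=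
    fun i hi => chi_insert_left (mem_compl.1 hi) z
  rw [sum_congr rfl h2, sum_congr rfl h3, ← sum_mul, ← sum_mul, ← add_mul, sum_add_sum_compl, h1,
    zero_mul]

lemma hat_bal_one {T : Finset ι} (hT : T.card = 1) : hat (bal ι) T = 0 := by
  have h := hat_bal_identity (∅ : Finset ι)
  rw [sum_empty, zero_add, sum_congr rfl (g := fun _ => hat (bal ι) T)
    (fun i _ => hat_bal_congr (by simp [hT])), sum_const, nsmul_eq_mul] at h
  have h2 : 0 < Fintype.card ι := by have := card_le_univ T; omega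
  rcases mul_eq_zero.1 h with h | h
  · simp only [compl_empty, card_univ, Nat.cast_eq_zero] at h
    omega
  · exact h

lemma hat_bal_rec {j : ℕ} {T : Finset ι} (hT : T.card = j + 2) :
    ∃ R : Finset ι, R.card = j ∧
      ((Fintype.card ι : ℝ) - (j + 1)) * hat (bal ι) T = -((j + 1) * hat (bal ι) R) := by
  obtain ⟨S, -, hS⟩ := exists_subset_card_eq (s := T) (n := j + 1) (by omega)
  obtain ⟨R, -, hR⟩ := exists_subset_card_eq (s := T) (n := j) (by omega)
  refine ⟨R, hR, ?_⟩
  have h := hat_bal_identity S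
  rw [sum_congr rfl (g := fun _ => hat (bal ι) R)
      (fun i hi => hat_bal_congr (by rw [card_erase_of_mem hi, hS, hR]; rfl)),
    sum_congr (s₁ := Sᶜ) rfl (g := fun _ => hat (bal ι) T)
      (fun i hi => hat_bal_congr (by rw [card_insert_of_notMem (mem_compl.1 hi), hS, hT])),
    sum_const, sum_const, nsmul_eq_mul, nsmul_eq_mul, card_compl, hS,
    Nat.cast_sub (hS ▸ card_le_univ S)] at h
  push_cast at h
  linarith

lemma hat_bal_odd (i : ℕ) : ∀ T : Finset ι, T.card = 2 * i + 1 → hat (bal ι) T = 0 := by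
  induction i with
  | zero => exact fun T hT => hat_bal_one hT
  | succ i ih =>
    intro T hT
    obtain ⟨R, hR, h⟩ := hat_bal_rec (j := 2 * i + 1) (T := T) (by omega)
    rw [ih R hR, mul_zero, neg_zero] at h
    have h1 : ((2 * i + 1 + 2 : ℕ) : ℝ) ≤ Fintype.card ι := by
      exact_mod_cast (show 2 * i + 1 + 2 = T.card by omega) ▸ card_le_univ T
    rcases mul_eq_zero.1 h with h | h
    · push_cast at h h1
      linarith
    · exact h

lemma hat_bal_even (i : ℕ) : ∀ T : Finset ι, T.card = 2 * i → 4 * i ≤ Fintype.card ι →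
    ∀ L ≤ i, |hat (bal ι) T| ≤ (bal ι).card * (4 * L / Fintype.card ι : ℝ) ^ L := by
  induction i with
  | zero =>
    intro T hT _ L hL
    rw [Nat.le_zero.1 hL, card_eq_zero.1 hT, hat_empty]
    simp
  | succ i ih =>
    intro T hT hm L hL
    obtain ⟨R, hR, h⟩ := hat_bal_rec (j := 2 * i) (T := T) (by omega)
    have hm' : (4 * (i + 1) : ℝ) ≤ Fintype.card ι := by exact_mod_cast hm
    have hi0 : (0 : ℝ) ≤ i := Nat.cast_nonneg i
    push_cast at h
    have hpos : (0 : ℝ) < Fintype.card ι - (2 * i + 1) := by linarith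
    have hmpos : (0 : ℝ) < Fintype.card ι := by linarith
    have habs : ((Fintype.card ι : ℝ) - (2 * i + 1)) * |hat (bal ι) T| =
        (2 * i + 1) * |hat (bal ι) R| := by
      have := congrArg abs h
      rwa [abs_neg, abs_mul, abs_mul, abs_of_pos hpos,
        abs_of_pos (a := (2 * i + 1 : ℝ)) (by linarith)] at this
    have hT0 := abs_nonneg (hat (bal ι) T)
    have hR0 := abs_nonneg (hat (bal ι) R)
    rcases Nat.lt_or_ge L (i + 1) with hlt | hge
    · refine le_trans ?_ (ih R hR (by omega) L (by omega))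
      apply le_of_mul_le_mul_left _ hpos
      rw [habs]
      apply mul_le_mul_of_nonneg_right _ hR0
      linarith
    · have hL' : L = i + 1 := by omega
      subst hL'
      have h1 := ih R hR (by omega) i le_rfl
      have h2 : |hat (bal ι) T| ≤ 4 * (i + 1) / Fintype.card ι * |hat (bal ι) R| := by
        rw [div_mul_eq_mul_div, le_div_iff₀ hmpos]
        nlinarith
      have h3 : (4 * i / Fintype.card ι : ℝ) ^ i ≤ (4 * (i + 1) / Fintype.card ι : ℝ) ^ i := by
        gcongr
        linarith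
      push_cast
      calc |hat (bal ι) T| ≤ 4 * (i + 1) / Fintype.card ι * |hat (bal ι) R| := h2
        _ ≤ 4 * (i + 1) / Fintype.card ι *
            ((bal ι).card * (4 * (i + 1) / Fintype.card ι : ℝ) ^ i) := by
          gcongr
          exact h1.trans (by gcongr)
        _ = _ := by ring

lemma hat_compl {A : Finset (Finset ι)} (hA : ∀ x ∈ A, chi univ x = 1) (S : Finset ι) :
    hat A Sᶜ = hat A S := by
  refine sum_congr rfl fun x hx => ?_
  have h1 : chi S x * chi Sᶜ x = 1 := by
    rw [← hA x hx]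
    exact prod_mul_prod_compl S _
  calc chi Sᶜ x = chi S x * chi S x * chi Sᶜ x := by rw [chi_mul_self, one_mul]
    _ = chi S x := by rw [mul_assoc, h1, mul_one]

lemma sum_sg (z : Finset ι) : ∑ i, sg z i = Fintype.card ι - 2 * (z.card : ℝ) := by
  have : ∀ i, sg z i = 1 - 2 * (if i ∈ z then 1 else 0) := by
    intro i; unfold sg; split_ifs <;> norm_num
  simp only [this]
  rw [sum_sub_distrib, ← mul_sum]
  simp

lemma mem_bal {h : ℕ} (hm : Fintype.card ι = 2 * h) (z : Finset ι) : z ∈ bal ι ↔ z.card = h := by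
  simp only [bal, mem_filter, mem_univ, true_and, sum_sg, hm]
  push_cast
  constructor
  · intro h1
    have : (z.card : ℝ) = h := by linarith
    exact_mod_cast this
  · intro h1
    rw [h1]; ring

lemma card_bal {h : ℕ} (hm : Fintype.card ι = 2 * h) : (bal ι).card = Nat.centralBinom h := by
  have : bal ι = powersetCard h univ := by
    ext z
    simp [mem_bal hm, mem_powersetCard]
  rw [this, card_powersetCard, card_univ, hm, Nat.centralBinom]

lemma chi_univ_bal {h : ℕ} (hm : Fintype.card ι = 2 * (2 * h)) :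
    ∀ z ∈ bal ι, chi univ z = 1 := by
  intro z hz
  rw [chi_eq, univ_inter, (mem_bal hm z).1 hz, pow_mul]
  norm_num

lemma centralBinom_sq (n : ℕ) (hn : 1 ≤ n) : 16 ^ n ≤ 4 * n * Nat.centralBinom n ^ 2 := by
  induction n, hn using Nat.le_induction with
  | base => simp [Nat.centralBinom]
  | succ n hn ih =>
    have h := Nat.succ_mul_centralBinom_succ n
    have key : 16 ^ (n + 1) * (n + 1) ≤ 4 * (n + 1) * Nat.centralBinom (n + 1) ^ 2 * (n + 1) := by
      calc 16 ^ (n + 1) * (n + 1) = 16 * (n + 1) * 16 ^ n := by ring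
        _ ≤ 16 * (n + 1) * (4 * n * Nat.centralBinom n ^ 2) := by gcongr
        _ = 16 * (4 * n * (n + 1)) * Nat.centralBinom n ^ 2 := by ring
        _ ≤ 16 * ((2 * n + 1) ^ 2) * Nat.centralBinom n ^ 2 := by gcongr; nlinarith
        _ = 4 * (2 * (2 * n + 1) * Nat.centralBinom n) ^ 2 := by ring
        _ = 4 * (n + 1) * Nat.centralBinom (n + 1) ^ 2 * (n + 1) := by rw [← h]; ring
    exact Nat.le_of_mul_le_mul_right key (by omega)

end Pool.Agent.P.MP_ac2766_co
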