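import Mathlib
import Pool.Agent.P.MP_ac2766_co.Fourier

namespace Pool.Agent.P.MP_ac2766_co

open Finset

lemma cauchy {α : Type*} (s : Finset α) (a b : α → ℝ) {x y w : ℝ} (hx : 0 ≤ x) (hy : 0 ≤ y)
    (hw : 0 ≤ w) (ha : ∑ i ∈ s, a i ^ 2 ≤ x ^ 2 * w) (hb : ∑ i ∈ s, b i ^ 2 ≤ y ^ 2 * w) :
    ∑ i ∈ s, |a i| * |b i| ≤ x * y * w := by
  have h := sum_mul_sq_le_sq_mul_sq s (fun i => |a i|) (fun i => |b i|)
  simp only [sq_abs] at h
  apply le_of_sq_le_sq _ (by positivity) |>.trans le_rfl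
  calc (∑ i ∈ s, |a i| * |b i|) ^ 2 ≤ (∑ i ∈ s, a i ^ 2) * ∑ i ∈ s, b i ^ 2 := h
    _ ≤ (x ^ 2 * w) * (y ^ 2 * w) :=
        mul_le_mul ha hb (sum_nonneg fun i _ => sq_nonneg _) (by positivity)
    _ = (x * y * w) ^ 2 := by ring

lemma geom_bound (J : ℕ) : ∑ j ∈ Ico 1 J, (3 / 8 : ℝ) ^ j ≤ 3 / 5 := by
  have : ∀ J : ℕ, ∑ j ∈ Ico 1 (J + 1), (3 / 8 : ℝ) ^ j = 3 / 5 * (1 - (3 / 8) ^ J) := by
    intro J
    induction J with
    | zero => simp
    | succ J ih => rw [sum_Ico_succ_top (by omega), ih]; ring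
  rcases J with _ | J
  · simp; norm_num
  · rw [this]
    have : (0 : ℝ) ≤ (3 / 8) ^ J := by positivity
    linarith

variable {ι : Type*} [DecidableEq ι] [Fintype ι]

lemma sum_ge_of_compl (F : Finset ι → ℝ) (hF : ∀ S, F Sᶜ = F S) (hm : 0 < Fintype.card ι) :
    2 * F ∅ - 2 * ∑ S with (0 < S.card ∧ 2 * S.card ≤ Fintype.card ι), |F S| ≤ ∑ S, F S := by
  have key : ∀ T : Finset (Finset ι), ∅ ∈ T → (∀ S ∈ T, 2 * S.card ≤ Fintype.card ι) →
      F ∅ - ∑ S with (0 < S.card ∧ 2 * S.card ≤ Fintype.card ι), |F S| ≤ ∑ S ∈ T, F S := by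
    intro T hT hT2
    rw [← add_sum_erase T F hT]
    have h1 : ∑ S ∈ T.erase ∅, |F S| ≤
        ∑ S with (0 < S.card ∧ 2 * S.card ≤ Fintype.card ι), |F S| := by
      refine sum_le_sum_of_subset_of_nonneg (fun S hS => ?_) fun _ _ _ => abs_nonneg _
      rw [mem_erase] at hS
      exact mem_filter.2 ⟨mem_univ _, card_pos.2 (nonempty_iff_ne_empty.2 hS.1), hT2 S hS.2⟩
    have h2 : -∑ S ∈ T.erase ∅, |F S| ≤ ∑ S ∈ T.erase ∅, F S := by
      rw [← sum_neg_distrib]
      exact sum_le_sum fun S _ => neg_abs_le _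
    linarith
  rw [← sum_filter_add_sum_filter_not univ (fun S : Finset ι => 2 * S.card ≤ Fintype.card ι)]
  have h1 := key (univ.filter fun S : Finset ι => 2 * S.card ≤ Fintype.card ι) (by simp)
    (fun S hS => (mem_filter.1 hS).2)
  have h2 := key (univ.filter fun S : Finset ι => 2 * S.card < Fintype.card ι) (by simpa)
    (fun S hS => (mem_filter.1 hS).2.le)
  have h3 : ∑ S with (2 * S.card < Fintype.card ι), F S =
      ∑ S with ¬ (2 * S.card ≤ Fintype.card ι), F S := by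
    refine sum_bijective (fun S => Sᶜ) compl_bijective (fun S => ?_) (fun S _ => (hF S).symm)
    simp only [mem_filter, mem_univ, true_and, card_compl]
    have := card_le_univ S
    omega
  linarith

theorem supersat {L : ℕ} (hL : 1 ≤ L) (hm : Fintype.card ι = 1024 * L ^ 2)
    (A B : Finset (Finset ι)) (hA : ∀ x ∈ A, chi univ x = 1) (hB : ∀ x ∈ B, chi univ x = 1)
    (hA' : (2 : ℝ) ^ Fintype.card ι ≤ 2 ^ L * A.card)
    (hB' : (2 : ℝ) ^ Fintype.card ι ≤ 2 ^ L * B.card) :
    (A.card : ℝ) * B.card ≤ 128 * L * pairs A B := by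
  have hm2 : Fintype.card ι = 2 * (2 * (256 * L ^ 2)) := by rw [hm]; ring
  have hLpos : (0 : ℝ) < L := by exact_mod_cast hL
  have hL1 : (1 : ℝ) ≤ L := by exact_mod_cast hL
  have hmR : (Fintype.card ι : ℝ) = 1024 * L ^ 2 := by rw [hm]; push_cast; ring
  set c0 : ℝ := ((bal ι).card : ℝ) with hc0
  set a : ℝ := (A.card : ℝ) with ha
  set b : ℝ := (B.card : ℝ) with hb
  have hc0n : 0 ≤ c0 := Nat.cast_nonneg _
  have han : 0 ≤ a := Nat.cast_nonneg _
  have hbn : 0 ≤ b := Nat.cast_nonneg _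
  set F : Finset ι → ℝ := fun S => hat (bal ι) S * hat A S * hat B S with hF
  have hFc : ∀ S, F Sᶜ = F S := fun S => by
    simp only [hF, hat_compl hA, hat_compl hB, hat_compl (chi_univ_bal hm2)]
  have hF0 : F ∅ = c0 * a * b := by simp only [hF, hat_empty, hc0, ha, hb]
  have hFabs : ∀ S, |F S| = |hat (bal ι) S| * (|hat A S| * |hat B S|) := fun S => by
    simp only [hF, abs_mul, mul_assoc]
  have hlow : ∀ j ∈ Ico 1 (2 * L), ∑ S with S.card = j, |F S| ≤ c0 * a * b * (3 / 8) ^ j := by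
    intro j hj
    rw [mem_Ico] at hj
    rcases Nat.even_or_odd' j with ⟨i, rfl | rfl⟩
    · have hi : 1 ≤ i := by omega
      set r := L / (2 * i) + 1 with hr
      have hr1 : L ≤ 2 * i * r := by
        have := Nat.div_add_mod L (2 * i)
        have h2 := Nat.mod_lt L (show 0 < 2 * i by omega)
        rw [hr, mul_add]
        omega
      have hr2 : 2 * i * r ≤ 3 * L := by
        have := Nat.mul_div_le L (2 * i)
        rw [hr, mul_add]
        omega
      have h1 := level_bound A (r := r) (j := 2 * i) (Nat.le_add_left 1 _) hr1 hA'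
      have h2 := level_bound B (r := r) (j := 2 * i) (Nat.le_add_left 1 _) hr1 hB'
      have h3 := cauchy _ _ _ han hbn (by positivity) h1 h2
      have h4 : ∀ S ∈ univ.filter (fun S : Finset ι => S.card = 2 * i),
          |F S| ≤ c0 * (4 * i / Fintype.card ι : ℝ) ^ i * (|hat A S| * |hat B S|) := by
        intro S hS
        rw [hFabs]
        apply mul_le_mul_of_nonneg_right _ (by positivity)
        exact hat_bal_even i S (mem_filter.1 hS).2 (by rw [hm]; nlinarith) i le_rfl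
      have h5 : (4 * i / Fintype.card ι : ℝ) * (4 * r) ^ 2 ≤ (3 / 8) ^ 2 := by
        have hr2' : (2 * i * r : ℝ) ≤ 3 * L := by exact_mod_cast hr2
        have hi' : (1 : ℝ) ≤ i := by exact_mod_cast hi
        have hr0 : (0 : ℝ) ≤ r := Nat.cast_nonneg _
        rw [hmR, div_mul_eq_mul_div, div_le_iff₀ (by positivity)]
        have h6 : (2 * i * r : ℝ) ^ 2 ≤ (3 * L) ^ 2 := by gcongr
        have h7 : (i : ℝ) * r ^ 2 ≤ i * (i * r ^ 2) := by
          apply mul_le_mul_of_nonneg_left _ (by linarith)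
          nlinarith [sq_nonneg (r : ℝ)]
        nlinarith
      calc ∑ S with S.card = 2 * i, |F S|
          ≤ ∑ S with S.card = 2 * i,
            c0 * (4 * i / Fintype.card ι : ℝ) ^ i * (|hat A S| * |hat B S|) := sum_le_sum h4
        _ = c0 * (4 * i / Fintype.card ι : ℝ) ^ i *
            ∑ S with S.card = 2 * i, |hat A S| * |hat B S| := by rw [mul_sum]
        _ ≤ c0 * (4 * i / Fintype.card ι : ℝ) ^ i * (a * b * (4 * r) ^ (2 * i)) := by
            gcongr
        _ = c0 * a * b * ((4 * i / Fintype.card ι : ℝ) * (4 * r) ^ 2) ^ i := by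
            rw [mul_pow _ ((4 * r : ℝ) ^ 2), pow_mul]; ring
        _ ≤ c0 * a * b * ((3 / 8) ^ 2) ^ i := by gcongr
        _ = c0 * a * b * (3 / 8) ^ (2 * i) := by rw [pow_mul]
    · rw [sum_eq_zero]
      · positivity
      · intro S hS
        rw [hFabs, hat_bal_odd i S (mem_filter.1 hS).2]
        simp
  have hlow' : ∑ S with (0 < S.card ∧ S.card < 2 * L), |F S| ≤ c0 * a * b * (3 / 5) := by
    rw [← sum_fiberwise_of_maps_to (g := fun S : Finset ι => S.card) (t := Ico 1 (2 * L))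
      (s := univ.filter fun S : Finset ι => 0 < S.card ∧ S.card < 2 * L)
      (fun S hS => mem_Ico.2 (mem_filter.1 hS).2)]
    calc _ ≤ ∑ j ∈ Ico 1 (2 * L), c0 * a * b * (3 / 8) ^ j := by
          refine sum_le_sum fun j hj => le_trans ?_ (hlow j hj)
          refine sum_le_sum_of_subset_of_nonneg (fun S hS => ?_) fun _ _ _ => abs_nonneg _
          exact mem_filter.2 ⟨mem_univ _, (mem_filter.1 hS).2⟩
      _ ≤ c0 * a * b * (3 / 5) := by
          rw [← mul_sum]
          exact mul_le_mul_of_nonneg_left (geom_bound _) (by positivity)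
  have hhigh : ∑ S with (2 * L ≤ S.card ∧ 2 * S.card ≤ Fintype.card ι), |F S| ≤
      c0 * a * b * (1 / 128) := by
    have h1 : ∑ S, hat A S ^ 2 ≤ a ^ 2 * 2 ^ L := by
      rw [parseval]; nlinarith
    have h2 : ∑ S, hat B S ^ 2 ≤ b ^ 2 * 2 ^ L := by
      rw [parseval]; nlinarith
    have h3 := cauchy _ _ _ han hbn (by positivity) h1 h2
    have h4 : ∀ S ∈ univ.filter
        (fun S : Finset ι => 2 * L ≤ S.card ∧ 2 * S.card ≤ Fintype.card ι),
        |F S| ≤ c0 * (4 * L / Fintype.card ι : ℝ) ^ L * (|hat A S| * |hat B S|) := by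
      intro S hS
      have hS' := (mem_filter.1 hS).2
      rw [hFabs]
      apply mul_le_mul_of_nonneg_right _ (by positivity)
      rcases Nat.even_or_odd' S.card with ⟨i, hi | hi⟩
      · exact hat_bal_even i S hi (by omega) L (by omega)
      · rw [hat_bal_odd i S hi, abs_zero]
        positivity
    have h5 : (4 * L / Fintype.card ι : ℝ) * 2 ≤ 1 / 128 := by
      rw [hmR, div_mul_eq_mul_div, div_le_iff₀ (by positivity)]
      nlinarith
    calc _ ≤ ∑ S with (2 * L ≤ S.card ∧ 2 * S.card ≤ Fintype.card ι),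
            c0 * (4 * L / Fintype.card ι : ℝ) ^ L * (|hat A S| * |hat B S|) := sum_le_sum h4
      _ ≤ ∑ S, c0 * (4 * L / Fintype.card ι : ℝ) ^ L * (|hat A S| * |hat B S|) :=
          sum_le_sum_of_subset_of_nonneg (subset_univ _) fun _ _ _ => by positivity
      _ ≤ c0 * (4 * L / Fintype.card ι : ℝ) ^ L * (a * b * 2 ^ L) := by
          rw [← mul_sum]
          gcongr
      _ = c0 * a * b * ((4 * L / Fintype.card ι : ℝ) * 2) ^ L := by
          rw [mul_pow]; ring
      _ ≤ c0 * a * b * (1 / 128) ^ L := by gcongr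
      _ ≤ c0 * a * b * (1 / 128) ^ 1 := by
          apply mul_le_mul_of_nonneg_left _ (by positivity)
          exact pow_le_pow_of_le_one (by norm_num) (by norm_num) hL
      _ = _ := by rw [pow_one]
  have hG : ∑ S with (0 < S.card ∧ 2 * S.card ≤ Fintype.card ι), |F S| ≤
      c0 * a * b * (3 / 5) + c0 * a * b * (1 / 128) := by
    rw [← sum_filter_add_sum_filter_not _ (fun S : Finset ι => S.card < 2 * L)]
    apply add_le_add
    · refine le_trans (sum_le_sum_of_subset_of_nonneg (fun S hS => ?_)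
        fun _ _ _ => abs_nonneg _) hlow'
      simp only [mem_filter, mem_univ, true_and] at hS ⊢
      exact ⟨hS.1.1, hS.2⟩
    · refine le_trans (sum_le_sum_of_subset_of_nonneg (fun S hS => ?_)
        fun _ _ _ => abs_nonneg _) hhigh
      simp only [mem_filter, mem_univ, true_and] at hS ⊢
      exact ⟨not_lt.1 hS.2, hS.1.2⟩
  have hmain := sum_ge_of_compl F hFc (by rw [hm]; positivity)
  rw [hF0, ← pairs_eq] at hmain
  have hcab : 0 ≤ c0 * a * b := by positivity
  have h1 : c0 * a * b ≤ 2 * (2 ^ Fintype.card ι * pairs A B) := by linarith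
  have h2 : (2 : ℝ) ^ Fintype.card ι ≤ 64 * L * c0 := by
    have h3 := centralBinom_sq (2 * (256 * L ^ 2)) (by nlinarith)
    rw [← card_bal hm2] at h3
    have h4 : (16 : ℝ) ^ (2 * (256 * L ^ 2)) ≤ 4 * (2 * (256 * L ^ 2)) * c0 ^ 2 := by
      rw [hc0]; exact_mod_cast h3
    apply le_of_sq_le_sq _ (by positivity)
    calc ((2 : ℝ) ^ Fintype.card ι) ^ 2 = 16 ^ (2 * (256 * L ^ 2)) := by
          rw [hm2, ← pow_mul, show (16 : ℝ) = 2 ^ 4 by norm_num, ← pow_mul]
          congr 1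
          ring
      _ ≤ 4 * (2 * (256 * L ^ 2)) * c0 ^ 2 := h4
      _ ≤ (64 * L * c0) ^ 2 := by nlinarith [sq_nonneg (L * c0)]
  have hp : 0 ≤ pairs A B := sum_nonneg fun _ _ => Nat.cast_nonneg _
  have hc0pos : 0 < c0 := by
    by_contra hneg
    have : c0 = 0 := le_antisymm (not_lt.1 hneg) hc0n
    rw [this, mul_zero] at h2
    exact absurd h2 (not_le.2 (by positivity))
  apply le_of_mul_le_mul_left _ hc0pos
  calc c0 * (a * b) = c0 * a * b := by ring
    _ ≤ 2 * (2 ^ Fintype.card ι * pairs A B) := h1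
    _ ≤ 2 * (64 * L * c0 * pairs A B) := by gcongr
    _ = c0 * (128 * L * pairs A B) := by ring

end Pool.Agent.P.MP_ac2766_co
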