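import Mathlib
import Pool.Agent.P.MP_ac2766_co.Supersat

namespace Pool.Agent.P.MP_ac2766_co

open Finset

variable {ι : Type*} [DecidableEq ι] [Fintype ι]

/-- tuples of points of `A` that are pairwise non-orthogonal. -/
noncomputable def cliq (A : Finset (Finset ι)) (j : ℕ) : Finset (Fin j → Finset ι) :=
  (Fintype.piFinset fun _ => A).filter fun w => ∀ i i', i ≠ i' → ip (w i) (w i') ≠ 0

lemma mem_cliq {A : Finset (Finset ι)} {j : ℕ} {w : Fin j → Finset ι} :
    w ∈ cliq A j ↔ (∀ i, w i ∈ A) ∧ ∀ i i', i ≠ i' → ip (w i) (w i') ≠ 0 := by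
  simp [cliq]

lemma card_cliq_succ (A : Finset (Finset ι)) (j : ℕ) :
    (cliq A (j + 1)).card ≤ ∑ x ∈ A, (cliq (A.filter fun y => ip x y ≠ 0) j).card := by
  rw [← card_sigma]
  refine card_le_card_of_injOn (fun w => ⟨w 0, Fin.tail w⟩) (fun w hw => ?_) ?_
  · rw [mem_coe, mem_cliq] at hw
    rw [mem_coe, mem_sigma, mem_cliq]
    refine ⟨hw.1 0, fun i => mem_filter.2 ⟨hw.1 _, hw.2 _ _ (Fin.succ_ne_zero i).symm⟩,
      fun i i' h => hw.2 _ _ fun h' => h (Fin.succ_injective _ h')⟩
  · intro w _ w' _ h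
    simp only [Sigma.mk.injEq, heq_eq_eq] at h
    rw [← Fin.cons_self_tail w, ← Fin.cons_self_tail w', h.1, h.2]

lemma one_sub_pow_le {L : ℕ} (hL : 1 ≤ L) :
    (1 - 1 / (128 * L) : ℝ) ^ (128 * L ^ 2) * 2 ^ L ≤ 1 := by
  have hL1 : (1 : ℝ) ≤ L := by exact_mod_cast hL
  have h0 : (0 : ℝ) ≤ 1 - 1 / (128 * L) := by
    rw [sub_nonneg, div_le_one (by positivity)]
    linarith
  have h1 : (1 - 1 / (128 * L) : ℝ) ^ (128 * L) ≤ 1 / 2 := by
    calc (1 - 1 / (128 * L) : ℝ) ^ (128 * L) ≤ Real.exp (-(1 / (128 * L))) ^ (128 * L) := by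
          gcongr
          have := Real.add_one_le_exp (-(1 / (128 * L) : ℝ))
          linarith
      _ = Real.exp (-1) := by
          rw [← Real.exp_nat_mul]
          congr 1
          push_cast
          field_simp
      _ ≤ 1 / 2 := by
          have := Real.exp_neg_one_lt_d9
          linarith
  rw [show 128 * L ^ 2 = 128 * L * L by ring, pow_mul, ← mul_pow]
  apply pow_le_one₀ (by positivity)
  linarith

theorem card_cliq_le {L : ℕ} (hL : 1 ≤ L) (hm : Fintype.card ι = 1024 * L ^ 2) (j : ℕ) :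
    ∀ A : Finset (Finset ι), (∀ x ∈ A, chi univ x = 1) →
      ((cliq A j).card : ℝ) ≤ (3 * (2 ^ Fintype.card ι / 2 ^ L)) ^ j *
        (1 + (A.card / (2 ^ Fintype.card ι / 2 ^ L)) ^ (128 * L ^ 2)) := by
  set M : ℝ := 2 ^ Fintype.card ι / 2 ^ L with hM
  have hMpos : 0 < M := by positivity
  have hL1 : (1 : ℝ) ≤ L := by exact_mod_cast hL
  set γ := 128 * L ^ 2 with hγ
  have hγ1 : 1 ≤ γ := by nlinarith
  induction j with
  | zero =>
    intro A _
    have h1 : (cliq A 0).card ≤ 1 := card_le_one_iff_subsingleton.2 (Set.subsingleton_of_subsingleton)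
    have h2 : ((cliq A 0).card : ℝ) ≤ 1 := by exact_mod_cast h1
    have h3 : (0 : ℝ) ≤ (A.card / M) ^ γ := by positivity
    rw [pow_zero, one_mul]
    linarith
  | succ j ih =>
    intro A hA
    set a : ℝ := (A.card : ℝ) with ha
    have ha0 : 0 ≤ a := Nat.cast_nonneg _
    have haN : a ≤ 2 ^ Fintype.card ι := by
      have := card_le_univ A
      rw [Fintype.card_finset] at this
      rw [ha]
      exact_mod_cast this
    set Φ : ℝ := 1 + (a / M) ^ γ with hΦ
    have hpow0 : 0 ≤ (a / M) ^ γ := by positivity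
    set deg : Finset ι → ℝ := fun x => ((A.filter fun y => ip x y = 0).card : ℝ) with hdeg
    set Low := A.filter fun x => 128 * L * deg x < a with hLow
    have hLowM : (Low.card : ℝ) ≤ M := by
      by_contra hc
      push Not at hc
      have h1 : (2 : ℝ) ^ Fintype.card ι ≤ 2 ^ L * Low.card := by
        rw [hM, div_lt_iff₀ (by positivity)] at hc
        linarith
      have h2 : (Low.card : ℝ) ≤ a := by
        rw [ha]; exact_mod_cast card_filter_le _ _
      have h3 := supersat hL hm Low A (fun x hx => hA x (mem_filter.1 hx).1) hA h1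
        (h1.trans (by gcongr))
      have hne : Low.Nonempty := by
        rw [← card_pos]
        have : (0 : ℝ) < Low.card := hMpos.trans hc
        exact_mod_cast this
      have h4 : 128 * L * pairs Low A < ∑ x ∈ Low, a := by
        rw [pairs, mul_sum]
        exact sum_lt_sum_of_nonempty hne fun x hx => (mem_filter.1 hx).2
      rw [sum_const, nsmul_eq_mul] at h4
      linarith
    have hcardA' : ∀ x, ((A.filter fun y => ip x y ≠ 0).card : ℝ) = a - deg x := by
      intro x
      have := card_filter_add_card_filter_not (s := A) (fun y => ip x y = 0)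
      rw [ha, ← this]
      push_cast
      simp only [hdeg]
      ring
    have hih : ∀ x, ((cliq (A.filter fun y => ip x y ≠ 0) j).card : ℝ) ≤
        (3 * M) ^ j * (1 + ((a - deg x) / M) ^ γ) := by
      intro x
      rw [← hcardA']
      exact ih _ fun y hy => hA y (mem_filter.1 hy).1
    have hdeg0 : ∀ x, 0 ≤ deg x := fun x => Nat.cast_nonneg _
    have hdeg1 : ∀ x, 0 ≤ a - deg x := fun x => by rw [← hcardA']; exact Nat.cast_nonneg _
    have h1 : ∑ x ∈ Low, ((cliq (A.filter fun y => ip x y ≠ 0) j).card : ℝ) ≤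
        M * ((3 * M) ^ j * Φ) := by
      calc _ ≤ ∑ x ∈ Low, (3 * M) ^ j * Φ := by
            refine sum_le_sum fun x _ => (hih x).trans ?_
            rw [hΦ]
            have := hdeg1 x
            have := hdeg0 x
            gcongr
            linarith
        _ = Low.card * ((3 * M) ^ j * Φ) := by rw [sum_const, nsmul_eq_mul]
        _ ≤ M * ((3 * M) ^ j * Φ) := by gcongr
    have h2 : ∑ x ∈ A.filter (fun x => ¬ 128 * L * deg x < a),
        ((cliq (A.filter fun y => ip x y ≠ 0) j).card : ℝ) ≤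
        a * ((3 * M) ^ j * (1 + (1 - 1 / (128 * L)) ^ γ * (a / M) ^ γ)) := by
      have h0 : (0 : ℝ) ≤ 1 - 1 / (128 * L) := by
        rw [sub_nonneg, div_le_one (by positivity)]
        linarith
      calc _ ≤ ∑ x ∈ A.filter (fun x => ¬ 128 * L * deg x < a),
            (3 * M) ^ j * (1 + (1 - 1 / (128 * L)) ^ γ * (a / M) ^ γ) := by
            refine sum_le_sum fun x hx => (hih x).trans ?_
            have h3 : a ≤ 128 * L * deg x := not_lt.1 (mem_filter.1 hx).2
            have h4 : a - deg x ≤ (1 - 1 / (128 * L)) * a := by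
              have : a / (128 * L) ≤ deg x := by
                rw [div_le_iff₀ (by positivity)]; linarith
              have h5 : (1 - 1 / (128 * L)) * a = a - a / (128 * L) := by ring
              linarith
            rw [← mul_pow, ← mul_div_assoc (1 - 1 / (128 * L) : ℝ) a M]
            have := hdeg1 x
            gcongr
        _ = (A.filter (fun x => ¬ 128 * L * deg x < a)).card *
            ((3 * M) ^ j * (1 + (1 - 1 / (128 * L)) ^ γ * (a / M) ^ γ)) := by
            rw [sum_const, nsmul_eq_mul]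
        _ ≤ _ := by
            apply mul_le_mul_of_nonneg_right _ (by positivity)
            rw [ha]; exact_mod_cast card_filter_le _ _
    have h3 : a ≤ M * Φ := by
      rcases le_or_gt a M with h | h
      · nlinarith
      · have h4 : 1 ≤ a / M := by rw [le_div_iff₀ hMpos]; linarith
        have h5 : a / M ≤ (a / M) ^ γ := le_self_pow₀ h4 (by omega)
        rw [div_le_iff₀ hMpos] at h5
        nlinarith
    have h4 : a * (1 - 1 / (128 * L)) ^ γ ≤ M := by
      have h0 : (0 : ℝ) ≤ 1 - 1 / (128 * L) := by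
        rw [sub_nonneg, div_le_one (by positivity)]
        linarith
      have h5 := one_sub_pow_le hL
      rw [hM, le_div_iff₀ (by positivity)]
      calc a * (1 - 1 / (128 * L)) ^ γ * 2 ^ L = a * ((1 - 1 / (128 * L)) ^ γ * 2 ^ L) := by ring
        _ ≤ 2 ^ Fintype.card ι * 1 := by gcongr
        _ = _ := mul_one _
    have h5 : a * (1 + (1 - 1 / (128 * L)) ^ γ * (a / M) ^ γ) ≤ 2 * (M * Φ) := by
      have h6 : a * (1 - 1 / (128 * L)) ^ γ * (a / M) ^ γ ≤ M * Φ := by
        apply mul_le_mul h4 _ hpow0 hMpos.le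
        linarith
      nlinarith
    have h6 : ((cliq A (j + 1)).card : ℝ) ≤
        ∑ x ∈ A, ((cliq (A.filter fun y => ip x y ≠ 0) j).card : ℝ) := by
      exact_mod_cast card_cliq_succ A j
    rw [← sum_filter_add_sum_filter_not A (fun x => 128 * L * deg x < a)] at h6
    have h7 : 0 ≤ (3 * M) ^ j := by positivity
    calc ((cliq A (j + 1)).card : ℝ) ≤ M * ((3 * M) ^ j * Φ) +
          a * ((3 * M) ^ j * (1 + (1 - 1 / (128 * L)) ^ γ * (a / M) ^ γ)) :=
          h6.trans (add_le_add h1 h2)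
      _ = (3 * M) ^ j * (M * Φ + a * (1 + (1 - 1 / (128 * L)) ^ γ * (a / M) ^ γ)) := by ring
      _ ≤ (3 * M) ^ j * (M * Φ + 2 * (M * Φ)) := by gcongr
      _ = (3 * M) ^ (j + 1) * Φ := by ring

/-- points of even weight. -/
noncomputable def evens (ι : Type*) [DecidableEq ι] [Fintype ι] : Finset (Finset ι) :=
  univ.filter fun x => chi univ x = 1

lemma card_evens (hm : 0 < Fintype.card ι) :
    (2 : ℝ) ^ Fintype.card ι = 2 * (evens ι).card := by
  have h1 := sum_chi_mul (univ : Finset ι) ∅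
  have hne : (univ : Finset ι) ≠ ∅ := by
    rw [← nonempty_iff_ne_empty, ← card_pos, card_univ]; exact hm
  rw [if_neg hne] at h1
  have h2 : ∀ x : Finset ι, chi x univ * chi x ∅ = 2 * (if chi univ x = 1 then 1 else 0) - 1 := by
    intro x
    rw [chi_comm x ∅, chi_empty, mul_one, chi_comm x univ]
    split_ifs with h
    · rw [h]; norm_num
    · have := chi_mul_self univ x
      rcases mul_self_eq_one_iff.1 this with h' | h'
      · exact absurd h' h
      · rw [h']; norm_num
  simp only [h2] at h1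
  rw [sum_sub_distrib, ← mul_sum, sum_boole, sum_const, card_univ, Fintype.card_finset,
    nsmul_eq_mul, mul_one] at h1
  push_cast at h1
  unfold evens
  linarith

theorem card_cliq_evens {l k : ℕ} (hl : 4 ≤ l) (hm : Fintype.card ι = 16384 * l ^ 2)
    (hk : 8192 * l ^ 2 ≤ k) :
    (cliq (evens ι) k).card * 2 ^ ((l + 1) * k) ≤ (evens ι).card ^ k := by
  have hm' : Fintype.card ι = 1024 * (4 * l) ^ 2 := by rw [hm]; ring
  have h1 := card_cliq_le (L := 4 * l) (by omega) hm' k (evens ι)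
    (fun x hx => (mem_filter.1 hx).2)
  have hE := card_evens (ι := ι) (by rw [hm]; positivity)
  set E : ℝ := ((evens ι).card : ℝ) with hEdef
  have hEpos : 0 < E := by
    have : (0 : ℝ) < 2 ^ Fintype.card ι := by positivity
    linarith
  rw [hE] at h1
  have h2 : E / (2 * E / 2 ^ (4 * l)) ≤ 2 ^ (4 * l) := by
    rw [div_le_iff₀ (by positivity)]
    field_simp
    norm_num
  have h3 : (1 : ℝ) + (E / (2 * E / 2 ^ (4 * l))) ^ (128 * (4 * l) ^ 2) ≤ 2 ^ (2 * l * k) := by
    have h4 : 4 * l * (128 * (4 * l) ^ 2) + 1 ≤ 2 * l * k := by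
      have : 2 * l * (8192 * l ^ 2) ≤ 2 * l * k := Nat.mul_le_mul_left _ hk
      nlinarith [pow_pos (show 0 < l by omega) 3]
    calc (1 : ℝ) + (E / (2 * E / 2 ^ (4 * l))) ^ (128 * (4 * l) ^ 2)
        ≤ 2 ^ (4 * l * (128 * (4 * l) ^ 2)) + (2 ^ (4 * l)) ^ (128 * (4 * l) ^ 2) := by
          gcongr
          exact one_le_pow₀ (by norm_num)
      _ = 2 ^ (4 * l * (128 * (4 * l) ^ 2) + 1) := by rw [← pow_mul, pow_succ]; ring
      _ ≤ 2 ^ (2 * l * k) := pow_le_pow_right₀ (by norm_num) h4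
  have h4 : 3 * (2 * E / 2 ^ (4 * l)) * 2 ^ (2 * l) * 2 ^ (l + 1) ≤ E := by
    have h5 : (2 : ℝ) ^ (3 * l + 4) ≤ 2 ^ (4 * l) := pow_le_pow_right₀ (by norm_num) (by omega)
    have h6 : (2 : ℝ) ^ (3 * l + 4) = 8 * (2 ^ (2 * l) * 2 ^ (l + 1)) := by ring
    have h7 : 3 * (2 * E / 2 ^ (4 * l)) * 2 ^ (2 * l) * 2 ^ (l + 1) =
        E * (6 * (2 ^ (2 * l) * 2 ^ (l + 1)) / 2 ^ (4 * l)) := by ring
    rw [h7]
    apply mul_le_of_le_one_right hEpos.le
    rw [div_le_one (by positivity)]
    have : (0 : ℝ) ≤ 2 ^ (2 * l) * 2 ^ (l + 1) := by positivity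
    linarith
  have h5 : ((cliq (evens ι) k).card : ℝ) * 2 ^ ((l + 1) * k) ≤ E ^ k := by
    calc ((cliq (evens ι) k).card : ℝ) * 2 ^ ((l + 1) * k)
        ≤ (3 * (2 * E / 2 ^ (4 * l))) ^ k * 2 ^ (2 * l * k) * 2 ^ ((l + 1) * k) := by
          gcongr
          exact h1.trans (by gcongr)
      _ = (3 * (2 * E / 2 ^ (4 * l)) * 2 ^ (2 * l) * 2 ^ (l + 1)) ^ k := by
          rw [mul_pow _ (2 ^ (l + 1) : ℝ), mul_pow _ (2 ^ (2 * l) : ℝ), ← pow_mul, ← pow_mul]
      _ ≤ E ^ k := by gcongr
  rw [hEdef] at h5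
  exact_mod_cast h5

end Pool.Agent.P.MP_ac2766_co
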