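import Pool.Agent.P.MP_ac2766_co.SmB

open Finset
namespace Pool.Agent.P.MP_ac2766_co.Hx
open Sm

/-- points and lines both have five coordinates -/
abbrev V (F : Type) := F × F × F × F × F

variable {F : Type} [Field F]

/-- the point with first coordinate `t` on the line `x` -/
def pt (x : V F) (t : F) : V F :=
  (t, x.2.1 + x.1 * t, x.2.2.1 + x.2.1 * t, x.2.2.2.1 + x.2.2.1 * t,
    x.2.2.2.2 + (x.1 * x.2.2.1 + x.2.1 ^ 2) * t)

/-- the quadratic form on differences of points -/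
def Q (p z : V F) : F :=
  (p.2.2.1 + z.2.2.1) ^ 2 + (p.2.2.2.2 + z.2.2.2.2) * (p.1 + z.1) +
    (p.2.2.2.1 + z.2.2.2.1) * (p.2.1 + z.2.1)

theorem slope {x c : V F} {a : F} (h : pt x a = pt c a) (hk : x.1 = c.1) : x = c := by
  obtain ⟨k, m, n, r, s⟩ := x
  obtain ⟨k', m', n', r', s'⟩ := c
  simp only [pt, Prod.mk.injEq, true_and] at h hk
  obtain ⟨h1, h2, h3, h4⟩ := h
  subst hk
  obtain rfl : m = m' := by linear_combination h1
  obtain rfl : n = n' := by linear_combination h2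
  obtain rfl : r = r' := by linear_combination h3
  obtain rfl : s = s' := by linear_combination h4
  rfl

theorem two_pts {x c : V F} {a b : F} (h : pt x a = pt c a) (h' : pt x b = pt c b) (hne : x ≠ c) :
    a = b := by
  by_contra hab
  refine hne (slope h ?_)
  have h1 := congrArg (fun p => p.2.1) h
  have h2 := congrArg (fun p => p.2.1) h'
  simp only [pt] at h1 h2
  exact mul_right_cancel₀ (sub_ne_zero.2 hab) (by linear_combination h1 - h2)

theorem Q_comm (p z : V F) : Q p z = Q z p := by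
  simp only [Q]
  ring

variable [CharP F 2]

theorem path {x c y : V F} {a b : F} (h1 : pt x a = pt c a) (h2 : pt y b = pt c b) (s s' : F) :
    Q (pt x s) (pt y s') = (s + a) * (s' + b) * (a + b) ^ 2 * ((x.1 + c.1) * (y.1 + c.1)) := by
  obtain ⟨k1, m1, n1, r1, s1⟩ := x
  obtain ⟨k2, m2, n2, r2, s2⟩ := c
  obtain ⟨k3, m3, n3, r3, s3⟩ := y
  simp only [pt, Prod.mk.injEq, true_and] at h1 h2
  obtain ⟨a1, a2, a3, a4⟩ := h1
  obtain ⟨b1, b2, b3, b4⟩ := h2
  obtain rfl : m1 = m2 + (k1 + k2) * a := by clear * - a1; grind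
  obtain rfl : n1 = n2 + (k1 + k2) * a ^ 2 := by clear * - a2; grind
  obtain rfl : r1 = r2 + (k1 + k2) * a ^ 3 := by clear * - a3; grind
  obtain rfl : s1 = s2 + (k1 + k2) * a * (n2 + k2 * a ^ 2) := by clear * - a4; grind
  obtain rfl : m3 = m2 + (k3 + k2) * b := by clear * - b1; grind
  obtain rfl : n3 = n2 + (k3 + k2) * b ^ 2 := by clear * - b2; grind
  obtain rfl : r3 = r2 + (k3 + k2) * b ^ 3 := by clear * - b3; grind
  obtain rfl : s3 = s2 + (k3 + k2) * b * (n2 + k2 * b ^ 2) := by clear * - b4; grind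
  clear a1 a2 a3 a4 b1 b2 b3 b4
  simp only [pt, Q]
  grind

theorem dep {ι : Type} [Fintype ι] (hι : 6 < Fintype.card ι) (p : ι → V F) :
    ∃ g : ι → F, (∃ i, g i ≠ 0) ∧ ∀ z, ∑ i, g i * Q (p i) z = 0 := by
  let v : ι → Fin 6 → F := fun i =>
    ![1, Q (p i) 0, (p i).1, (p i).2.1, (p i).2.2.2.1, (p i).2.2.2.2]
  have hv : ¬ LinearIndependent F v := fun h => by
    have := h.fintype_card_le_finrank
    rw [Module.finrank_fin_fun] at this
    omega
  obtain ⟨g, hg, hi⟩ := Fintype.not_linearIndependent_iff.1 hv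
  refine ⟨g, hi, fun z => ?_⟩
  have hj : ∀ j, ∑ i, g i * v i j = 0 := fun j => by
    simpa [Finset.sum_apply] using congrFun hg j
  have e : ∀ i, g i * Q (p i) z = g i * v i 0 * Q z 0 + g i * v i 1 + g i * v i 2 * z.2.2.2.2 +
      g i * v i 3 * z.2.2.2.1 + g i * v i 4 * z.2.1 + g i * v i 5 * z.1 := fun i => by
    simp only [v, Q, Matrix.cons_val, Prod.fst_zero, Prod.snd_zero, add_zero]
    grind
  simp only [e, sum_add_distrib, ← sum_mul, hj, zero_mul, add_zero]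

theorem three {e1 e2 e3 a1 a2 a3 : F} (h0 : e1 * a1 + e2 * a2 + e3 * a3 = 0)
    (h1 : e1 * (1 + a1) + e2 * (1 + a2) + e3 * (1 + a3) = 0) (h : a2 + a3 ≠ 0) :
    ∃ ρ, e1 = ρ * (a2 + a3) ∧ e2 = ρ * (a1 + a3) ∧ e3 = ρ * (a1 + a2) := by
  refine ⟨e1 / (a2 + a3), by field_simp, ?_, ?_⟩
  · field_simp
    grind
  · field_simp
    grind

theorem row {c c' a1 a2 a3 u1 u2 u3 r1 r2 r3 d1 d2 d3 : F} (n1 : u1 ≠ 0) (n2 : u2 ≠ 0)
    (n3 : u3 ≠ 0) (h1 : u1 * (c * a1 + c' * (1 + a1)) = r1 * d1)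
    (h2 : u2 * (c * a2 + c' * (1 + a2)) = r2 * d2) (h3 : u3 * (c * a3 + c' * (1 + a3)) = r3 * d3) :
    (a2 + a3) * d1 / u1 * r1 + (a1 + a3) * d2 / u2 * r2 + (a1 + a2) * d3 / u3 * r3 = 0 := by
  have e1 : (a2 + a3) * d1 / u1 * r1 = (a2 + a3) * (c * a1 + c' * (1 + a1)) := by
    field_simp
    linear_combination (-(a2 + a3)) * h1
  have e2 : (a1 + a3) * d2 / u2 * r2 = (a1 + a3) * (c * a2 + c' * (1 + a2)) := by
    field_simp
    linear_combination (-(a1 + a3)) * h2
  have e3 : (a1 + a2) * d3 / u3 * r3 = (a1 + a2) * (c * a3 + c' * (1 + a3)) := by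
    field_simp
    linear_combination (-(a1 + a2)) * h3
  rw [e1, e2, e3]
  clear * -
  grind

theorem kill {c c' a1 a2 u1 u2 : F} (n1 : u1 ≠ 0) (n2 : u2 ≠ 0) (n : a1 + a2 ≠ 0)
    (h1 : u1 * (c * a1 + c' * (1 + a1)) = 0) (h2 : u2 * (c * a2 + c' * (1 + a2)) = 0) :
    c = 0 ∧ c' = 0 := by
  have e1 := (mul_eq_zero.1 h1).resolve_left n1
  have e2 := (mul_eq_zero.1 h2).resolve_left n2
  have e3 : (a1 + a2) * (c + c') = 0 := by grind
  have e4 := (mul_eq_zero.1 e3).resolve_left n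
  have e5 : c' = 0 := by grind
  exact ⟨by grind, e5⟩

omit [CharP F 2] in
theorem sq_rel {d01 d02 d03 d10 d12 d13 d20 d21 d23 d30 d31 d32 : F}
    {m01 m02 m03 m10 m12 m13 u02 u03 u12 u13 u23 : F} (n01 : m01 * m10 ≠ 0) (n02 : u02 ≠ 0)
    (n03 : u03 ≠ 0) (n12 : u12 ≠ 0) (n13 : u13 ≠ 0) (n23 : u23 ≠ 0)
    (hd : d03 * d02 * d13 * d12 ≠ 0)
    (A1 : u02 * d03 * d23 = m10 * m12 * d13 ^ 2) (A2 : u03 * d02 * d32 = m10 * m13 * d12 ^ 2)
    (A3 : u23 * d20 * d30 = m12 * m13 * d10 ^ 2) (B1 : u12 * d13 * d23 = m01 * m02 * d03 ^ 2)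
    (B2 : u13 * d12 * d32 = m01 * m03 * d02 ^ 2) (B3 : u23 * d21 * d31 = m02 * m03 * d01 ^ 2) :
    (d01 * d10 / (m01 * m10) * (d23 * d32 / u23)) ^ 2 =
      d02 * d20 / u02 * (d13 * d31 / u13) * (d03 * d30 / u03 * (d12 * d21 / u12)) := by
  have P := congrArg₂ (· * ·) (congrArg₂ (· * ·) A1 A2) (congrArg₂ (· * ·) B1 B2)
  have key : (d01 * d10 * d23 * d32) ^ 2 * (u02 * u13 * u03 * u12) =
      d02 * d20 * d13 * d31 * d03 * d30 * d12 * d21 * (m01 * m10 * u23) ^ 2 := by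
    refine mul_left_cancel₀ hd ?_
    linear_combination (d10 * d01) ^ 2 * P - (m01 * m10 * (d13 * d12 * d03 * d02)) ^ 2 *
      (m02 * m03 * d01 ^ 2 * A3 + u23 * d20 * d30 * B3)
  generalize m01 * m10 = u01 at n01 key
  field_simp
  linear_combination key

theorem pf (hκ : ∀ x : F, x ^ 2 + x + 1 ≠ 0) {H01 H02 H03 H12 H13 H23 r0 r1 r2 r3 : F}
    (hZ : H03 * H12 ≠ 0) (hs : (H01 * H23) ^ 2 = H02 * H13 * (H03 * H12))
    (e0 : H01 * r1 + H02 * r2 + H03 * r3 = 0) (e1 : H01 * r0 + H12 * r2 + H13 * r3 = 0)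
    (e2 : H02 * r0 + H12 * r1 + H23 * r3 = 0) (e3 : H03 * r0 + H13 * r1 + H23 * r2 = 0) :
    r0 = 0 ∧ r1 = 0 ∧ r2 = 0 ∧ r3 = 0 := by
  have two : (2 : F) = 0 := CharTwo.two_eq_zero
  have hP : H01 * H23 + H02 * H13 + H03 * H12 ≠ 0 := fun e => by
    refine hκ (H02 * H13 / (H03 * H12)) ?_
    generalize H01 * H23 = X at e hs
    generalize H02 * H13 = Y at e hs
    generalize H03 * H12 = Z at e hs hZ
    field_simp
    grind
  refine ⟨mul_left_cancel₀ hP ?_, mul_left_cancel₀ hP ?_, mul_left_cancel₀ hP ?_,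
    mul_left_cancel₀ hP ?_⟩
  · linear_combination H23 * e1 + H13 * e2 + H12 * e3 -
      (H12 * H13 * r1 + H12 * H23 * r2 + H13 * H23 * r3) * two
  · linear_combination H23 * e0 + H03 * e2 + H02 * e3 -
      (H02 * H03 * r0 + H02 * H23 * r2 + H03 * H23 * r3) * two
  · linear_combination H13 * e0 + H03 * e1 + H01 * e3 -
      (H01 * H03 * r0 + H01 * H13 * r1 + H03 * H13 * r3) * two
  · linear_combination H12 * e0 + H02 * e1 + H01 * e2 -
      (H01 * H02 * r0 + H01 * H12 * r1 + H02 * H12 * r2) * two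

theorem alg (hκ : ∀ x : F, x ^ 2 + x + 1 ≠ 0) (a m : Fin 4 → Fin 4 → F) (hm0 : ∀ i, m i i = 0)
    (hm : ∀ i j, i ≠ j → m i j ≠ 0) (ha : ∀ i j k, i ≠ j → i ≠ k → j ≠ k → a i j + a i k ≠ 0)
    (hR : ∀ i j k, i ≠ j → i ≠ k → j ≠ k →
      m i j * m j i * (a i j + a i k) * (a j i + a j k) = m k i * m k j * (a k i + a k j) ^ 2)
    (c c' : Fin 4 → F) (hc : ∀ j t,
      ∑ i, m i j * m j i * (c i * a i j + c' i * (1 + a i j)) * (t + a j i) = 0) :
    ∀ i, c i = 0 ∧ c' i = 0 := by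
  have hu : ∀ i j, i ≠ j → m i j * m j i ≠ 0 := fun i j h => mul_ne_zero (hm i j h) (hm j i h.symm)
  have z0 := fun j => hc j 0
  have z1 := fun j => hc j 1
  simp only [Fin.sum_univ_four, zero_add] at z0 z1
  have p0 := z0 0
  have p1 := z0 1
  have p2 := z0 2
  have p3 := z0 3
  have q0 := z1 0
  have q1 := z1 1
  have q2 := z1 2
  have q3 := z1 3
  simp only [hm0, zero_mul, zero_add, add_zero] at p0 p1 p2 p3 q0 q1 q2 q3
  obtain ⟨r0, e10, e20, e30⟩ := three p0 q0 (ha 0 2 3 (by decide) (by decide) (by decide))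
  obtain ⟨r1, e01, e21, e31⟩ := three p1 q1 (ha 1 2 3 (by decide) (by decide) (by decide))
  obtain ⟨r2, e02, e12, e32⟩ := three p2 q2 (ha 2 1 3 (by decide) (by decide) (by decide))
  obtain ⟨r3, e03, e13, e23⟩ := three p3 q3 (ha 3 1 2 (by decide) (by decide) (by decide))
  have w0 := row (hu 0 1 (by decide)) (hu 0 2 (by decide)) (hu 0 3 (by decide)) e01 e02 e03
  have w1 := row (hu 1 0 (by decide)) (hu 1 2 (by decide)) (hu 1 3 (by decide)) e10 e12 e13
  have w2 := row (hu 2 0 (by decide)) (hu 2 1 (by decide)) (hu 2 3 (by decide)) e20 e21 e23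
  have w3 := row (hu 3 0 (by decide)) (hu 3 1 (by decide)) (hu 3 2 (by decide)) e30 e31 e32
  have hs := sq_rel (d01 := a 0 2 + a 0 3) (d02 := a 0 1 + a 0 3) (d03 := a 0 1 + a 0 2)
    (d10 := a 1 2 + a 1 3) (d12 := a 1 0 + a 1 3) (d13 := a 1 0 + a 1 2)
    (d20 := a 2 1 + a 2 3) (d21 := a 2 0 + a 2 3) (d23 := a 2 0 + a 2 1)
    (d30 := a 3 1 + a 3 2) (d31 := a 3 0 + a 3 2) (d32 := a 3 0 + a 3 1)
    (m02 := m 0 2) (m03 := m 0 3) (m12 := m 1 2) (m13 := m 1 3)
    (hu 0 1 (by decide)) (hu 0 2 (by decide)) (hu 0 3 (by decide)) (hu 1 2 (by decide))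
    (hu 1 3 (by decide)) (hu 2 3 (by decide))
    (mul_ne_zero (mul_ne_zero (mul_ne_zero (ha 0 1 2 (by decide) (by decide) (by decide))
      (ha 0 1 3 (by decide) (by decide) (by decide))) (ha 1 0 2 (by decide) (by decide) (by decide)))
      (ha 1 0 3 (by decide) (by decide) (by decide)))
    (by linear_combination hR 0 2 1 (by decide) (by decide) (by decide))
    (by linear_combination hR 0 3 1 (by decide) (by decide) (by decide))
    (by linear_combination hR 2 3 1 (by decide) (by decide) (by decide))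
    (by linear_combination hR 1 2 0 (by decide) (by decide) (by decide))
    (by linear_combination hR 1 3 0 (by decide) (by decide) (by decide))
    (by linear_combination hR 2 3 0 (by decide) (by decide) (by decide))
  obtain ⟨rfl, rfl, rfl, rfl⟩ := pf hκ (r0 := r0) (r1 := r1) (r2 := r2) (r3 := r3)
    (mul_ne_zero
      (div_ne_zero (mul_ne_zero (ha 0 1 2 (by decide) (by decide) (by decide))
        (ha 3 1 2 (by decide) (by decide) (by decide))) (hu 0 3 (by decide)))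
      (div_ne_zero (mul_ne_zero (ha 1 0 3 (by decide) (by decide) (by decide))
        (ha 2 0 3 (by decide) (by decide) (by decide))) (hu 1 2 (by decide))))
    hs w0 (by linear_combination w1) (by linear_combination w2) (by linear_combination w3)
  rw [zero_mul] at e10 e20 e30 e01 e21 e31 e02 e12 e32 e03 e13 e23
  intro i
  fin_cases i
  · exact kill (hu 0 1 (by decide)) (hu 0 2 (by decide))
      (ha 0 1 2 (by decide) (by decide) (by decide)) e01 e02
  · exact kill (hu 1 0 (by decide)) (hu 1 2 (by decide))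
      (ha 1 0 2 (by decide) (by decide) (by decide)) e10 e12
  · exact kill (hu 2 0 (by decide)) (hu 2 1 (by decide))
      (ha 2 0 1 (by decide) (by decide) (by decide)) e20 e21
  · exact kill (hu 3 0 (by decide)) (hu 3 1 (by decide))
      (ha 3 0 1 (by decide) (by decide) (by decide)) e30 e31

/-- `x` and `y` meet a third line in points of different sign -/
def Adj (ψ : F → ℝ) (x y : V F) : Prop :=
  ∃ c a b, c ≠ x ∧ c ≠ y ∧ pt x a = pt c a ∧ pt y b = pt c b ∧ ψ a * ψ b = -1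

theorem free {ψ : F → ℝ} (h : Ch ψ 1) (L : Fin 4 → V F) (H : ∀ i j, i ≠ j → Adj ψ (L i) (L j)) :
    False := by
  have H' : ∀ i j : Fin 4, ∃ c a b, i ≠ j →
      c ≠ L i ∧ c ≠ L j ∧ pt (L i) a = pt c a ∧ pt (L j) b = pt c b ∧ ψ a * ψ b = -1 := by
    intro i j
    by_cases hij : i = j
    · exact ⟨0, 0, 0, fun e => (e hij).elim⟩
    · obtain ⟨c, a, b, hh⟩ := H i j hij
      exact ⟨c, a, b, fun _ => hh⟩
  choose N0 a0 b0 H0 using H'
  obtain ⟨N, a, hs, hd, h1, h2, h3⟩ : ∃ (N : Fin 4 → Fin 4 → V F) (a : Fin 4 → Fin 4 → F),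
      (∀ i j, N i j = N j i) ∧ (∀ i, N i i = L i) ∧ (∀ i j, i ≠ j → N i j ≠ L i) ∧
      (∀ i j, pt (L i) (a i j) = pt (N i j) (a i j)) ∧
      ∀ i j, i ≠ j → ψ (a i j) * ψ (a j i) = -1 := by
    refine ⟨fun i j => if i < j then N0 i j else if j < i then N0 j i else L i,
      fun i j => if i < j then a0 i j else b0 j i, fun i j => ?_, fun i => by simp,
      fun i j hij => ?_, fun i j => ?_, fun i j hij => ?_⟩
    all_goals rcases lt_trichotomy i j with hh | hh | hh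
    · simp [hh, hh.not_gt]
    · simp [hh]
    · simp [hh, hh.not_gt]
    · simpa [hh] using (H0 i j hij).1
    · exact (hij hh).elim
    · simpa [hh, hh.not_gt] using (H0 j i hij.symm).2.1
    · simpa [hh] using (H0 i j hh.ne).2.2.1
    · simp [hh]
    · simpa [hh, hh.not_gt] using (H0 j i hh.ne).2.2.2.1
    · simpa [hh, hh.not_gt] using (H0 i j hij).2.2.2.2
    · exact (hij hh).elim
    · simpa [hh, hh.not_gt, mul_comm] using (H0 j i hij.symm).2.2.2.2
  obtain ⟨m, hm⟩ : ∃ m : Fin 4 → Fin 4 → F,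
      ∀ i j, m i j = (a i j + a j i) * ((L i).1 + (N i j).1) := ⟨_, fun _ _ => rfl⟩
  have hP : ∀ i j s s', Q (pt (L i) s) (pt (L j) s') =
      m i j * m j i * (s + a i j) * (s' + a j i) := fun i j s s' => by
    rw [path (h2 i j) (hs j i ▸ h2 j i), hm, hm, hs j i]
    ring
  have hne : ∀ i j, i ≠ j → a i j + a j i ≠ 0 := fun i j hij e => by
    have := h3 i j hij
    rw [h.add_eq.1 e, h.mul_self] at this
    norm_num at this
  have hm1 : ∀ i j, i ≠ j → m i j ≠ 0 := fun i j hij => by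
    rw [hm]
    exact mul_ne_zero (hne i j hij) fun e => h1 i j hij (slope (h2 i j) (h.add_eq.1 e)).symm
  have hR : ∀ i j k, m i j * m j i * (a i j + a i k) * (a j i + a j k) =
      m k i * m k j * (a k i + a k j) ^ 2 := fun i j k => by
    have e1 := hP i j (a i k) (a j k)
    rw [h2 i k, h2 j k, hs i k, hs j k, path (h2 k i).symm (h2 k j).symm] at e1
    rw [hm k i, hm k j]
    linear_combination -e1
  have ha : ∀ i j k, i ≠ j → i ≠ k → j ≠ k → a i j + a i k ≠ 0 := fun i j k hij hik hjk e => by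
    have e1 := hR i j k
    have e2 := hR i k j
    rw [e] at e1
    rw [add_comm (a i k), e] at e2
    simp only [mul_zero, zero_mul] at e1 e2
    have f1 := h.add_eq.1 (pow_eq_zero_iff two_ne_zero |>.1 ((mul_eq_zero.1 e1.symm).resolve_left
      (mul_ne_zero (hm1 k i hik.symm) (hm1 k j hjk.symm))))
    have f2 := h.add_eq.1 (pow_eq_zero_iff two_ne_zero |>.1 ((mul_eq_zero.1 e2.symm).resolve_left
      (mul_ne_zero (hm1 j i hij.symm) (hm1 j k hjk))))
    have g1 := h3 i j hij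
    have g2 := h3 i k hik
    have g3 := h3 j k hjk
    rw [← h.add_eq.1 e] at g2
    rw [← f1, ← f2] at g3
    have g4 := congrArg₂ (· * ·) g1 g2
    have g5 := h.mul_self (a i j)
    have : ψ (a j i) * ψ (a k i) = 1 := by
      linear_combination g4 - ψ (a j i) * ψ (a k i) * g5
    linarith
  obtain ⟨g, ⟨i, hi⟩, hg⟩ := dep (ι := Fin 4 ⊕ Fin 4) (by simp)
    (Sum.elim (fun i => pt (L i) 0) fun i => pt (L i) 1)
  have := alg h.kappa a m (fun i => by rw [hm, h.self, zero_mul]) hm1 ha (fun i j k _ _ _ => hR i j k)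
    (fun i => g (Sum.inl i)) (fun i => g (Sum.inr i)) fun j t => by
      have e := hg (pt (L j) t)
      simp only [Fintype.sum_sum_type, Sum.elim_inl, Sum.elim_inr, hP, ← sum_add_distrib] at e
      rw [← e]
      exact sum_congr rfl fun i _ => by ring
  rcases i with i | i
  · exact hi (this i).1
  · exact hi (this i).2

end Pool.Agent.P.MP_ac2766_co.Hx
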