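import Pool.Agent.P.MP_ac2766_co.HxA

open Finset
namespace Pool.Agent.P.MP_ac2766_co.Hx
open Sm

theorem pars {G H : Type} [Fintype G] [Fintype H] [DecidableEq G] (χ : G → H → ℝ) {c : ℝ}
    (hχ : ∀ x x', ∑ y, χ x y * χ x' y = if x = x' then c else 0) (u : G → ℝ) :
    ∑ y, (∑ x, u x * χ x y) ^ 2 = c * ∑ x, u x ^ 2 := by
  have e : ∀ y, (∑ x, u x * χ x y) ^ 2 = ∑ x, ∑ x', u x * u x' * (χ x y * χ x' y) := fun y => by
    rw [sq, sum_mul_sum]
    exact sum_congr rfl fun _ _ => sum_congr rfl fun _ _ => by ring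
  simp only [e]
  rw [sum_comm, mul_sum]
  refine sum_congr rfl fun x _ => ?_
  rw [sum_comm]
  simp only [← mul_sum, hχ, mul_ite, mul_zero, sum_ite_eq, mem_univ, if_true]
  ring

theorem fib {ι κ : Type} [Fintype ι] [Fintype κ] [DecidableEq κ] (π : ι → κ) (g : κ → ℝ)
    (hg : ∀ y, g y ≠ 0 → (univ.filter fun i => π i = y).card ≤ 3) :
    ∑ i, g (π i) ^ 2 ≤ 3 * ∑ y, g y ^ 2 := by
  rw [← sum_fiberwise univ π, mul_sum]
  refine sum_le_sum fun y _ => ?_
  rw [sum_congr rfl (g := fun _ => g y ^ 2) fun i hi => by rw [(mem_filter.1 hi).2], sum_const,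
    nsmul_eq_mul]
  by_cases h : g y = 0
  · simp [h]
  · exact mul_le_mul_of_nonneg_right (by exact_mod_cast hg y h) (sq_nonneg _)

variable {F : Type} [Field F] [DecidableEq F]

open Polynomial in
theorem cub {a b c d : F} (h : ¬ (a = 0 ∧ b = 0 ∧ c = 0 ∧ d = 0)) (s : Finset F)
    (hs : ∀ x ∈ s, a * x ^ 3 + b * x ^ 2 + c * x + d = 0) : s.card ≤ 3 := by
  refine roots_le (C a * X ^ 3 + C b * X ^ 2 + C c * X + C d) (fun e => h ⟨?_, ?_, ?_, ?_⟩)
    natDegree_cubic_le s fun x hx => by simpa using hs x hx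
  · simpa [coeff_X, coeff_C] using congrArg (coeff · 3) e
  · simpa [coeff_X, coeff_C] using congrArg (coeff · 2) e
  · simpa [coeff_X, coeff_C] using congrArg (coeff · 1) e
  · simpa [coeff_X, coeff_C] using congrArg (coeff · 0) e

variable [Fintype F] [CharP F 2] {ψ : F → ℝ} {ν : F}

omit [CharP F 2] in
theorem ort1 (h : Ch ψ ν) (x x' : F) :
    ∑ y, ψ (x * y) * ψ (x' * y) = if x = x' then (Fintype.card F : ℝ) else 0 := by
  simp only [← h.add, ← add_mul, h.sum_mul, h.add_eq]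

omit [CharP F 2] in
theorem ort2 (h : Ch ψ ν) (x x' : F × F) :
    ∑ y : F × F, ψ (x.1 * y.1 + x.2 * y.2) * ψ (x'.1 * y.1 + x'.2 * y.2) =
      if x = x' then (Fintype.card F : ℝ) ^ 2 else 0 := by
  have e : ∀ y : F × F, ψ (x.1 * y.1 + x.2 * y.2) * ψ (x'.1 * y.1 + x'.2 * y.2) =
      ψ (x.1 * y.1) * ψ (x'.1 * y.1) * (ψ (x.2 * y.2) * ψ (x'.2 * y.2)) := fun y => by
    rw [h.add, h.add]
    ring
  simp only [e, Fintype.sum_prod_type, ← sum_mul_sum, ort1 h, Prod.ext_iff]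
  by_cases h1 : x.1 = x'.1 <;> by_cases h2 : x.2 = x'.2 <;> simp [h1, h2, sq]

/-- the twisted incidence operator of the plane -/
def T (ψ : F → ℝ) (α β γ : F) (u : F → F → ℝ) (t w : F) : ℝ :=
  ∑ k, u k (w + k * t) * ψ ((w + k * t) * t * (α + β * t + γ * k * t))

theorem flat (h : Ch ψ ν) (α β : F) (u : F → F → ℝ) (hu : α = 0 → β = 0 → ∑ k, ∑ m, u k m = 0) :
    ∑ t, ∑ w, T ψ α β 0 u t w ^ 2 ≤ 3 * Fintype.card F * ∑ k, ∑ m, u k m ^ 2 := by
  have hq : (0 : ℝ) < Fintype.card F := by exact_mod_cast Fintype.card_pos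
  let g : F × F → ℝ := fun y => ∑ x : F × F, u x.1 x.2 * ψ (x.1 * y.1 + x.2 * y.2)
  have e1 : ∀ t ξ, ∑ w, T ψ α β 0 u t w * ψ (w * ξ) = g (ξ * t, ξ + α * t + β * t ^ 2) := by
    intro t ξ
    simp only [T, g, sum_mul, Fintype.sum_prod_type]
    rw [sum_comm]
    refine sum_congr rfl fun k _ => ?_
    refine (Fintype.sum_equiv (Equiv.addRight (k * t)) _ _ fun m => ?_).symm
    have a1 : m + k * t + k * t = m := by grind
    simp only [Equiv.coe_addRight, a1, mul_assoc (u k m), ← h.add]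
    congr 2
    grind
  have e2 : ∀ t, Fintype.card F * ∑ w, T ψ α β 0 u t w ^ 2 =
      ∑ ξ, g (ξ * t, ξ + α * t + β * t ^ 2) ^ 2 := fun t => by
    rw [← pars (fun x y => ψ (x * y)) (ort1 h)]
    simp only [e1]
  have e3 := fib (fun i : F × F => (i.2 * i.1, i.2 + α * i.1 + β * i.1 ^ 2)) g fun y hy => by
    rw [← card_image_of_injOn (f := Prod.fst)]
    · refine cub (a := β) (b := α) (c := y.2) (d := y.1) (fun e => hy ?_) _ ?_
      · simpa [g, e.2.2.1, e.2.2.2, h.zero, Fintype.sum_prod_type] using hu e.2.1 e.1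
      · intro x hx
        obtain ⟨i, hi, rfl⟩ := mem_image.1 hx
        rw [← (mem_filter.1 hi).2]
        grind
    · intro i hi j hj e
      have a1 := congrArg Prod.snd ((mem_filter.1 hi).2.trans (mem_filter.1 hj).2.symm)
      simp only [e] at a1
      exact Prod.ext e (by linear_combination a1)
  have e4 := pars (fun x y : F × F => ψ (x.1 * y.1 + x.2 * y.2)) (ort2 h) fun x => u x.1 x.2
  refine le_of_mul_le_mul_left ?_ hq
  rw [mul_sum]
  simp only [e2]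
  rw [Fintype.sum_prod_type] at e3
  rw [Fintype.sum_prod_type (f := fun x => u x.1 x.2 ^ 2)] at e4
  refine e3.trans (le_of_eq ?_)
  simp only [g]
  rw [e4]
  ring

theorem core (h : Ch ψ ν) {γ : F} (hγ : γ ≠ 0) (u : F → F → ℝ) (hu : ∀ m, u 0 m = 0) :
    ∑ t, ∑ w, T ψ 0 0 γ u t w ^ 2 ≤ 3 * Fintype.card F * ∑ k, ∑ m, u k m ^ 2 := by
  have hq : (0 : ℝ) < Fintype.card F := by exact_mod_cast Fintype.card_pos
  let U : F → F → ℝ := fun θ k => ∑ m, u k m * ψ (γ * m ^ 3 * k⁻¹) * ψ (m * k⁻¹ * θ)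
  let Φ : F → F → ℝ := fun θ y => ∑ k, U θ k * ψ (k⁻¹ * y)
  have e1 : ∀ w θ, ∑ t, T ψ 0 0 γ u t w * ψ (γ * t * w ^ 2) * ψ (t * θ) =
      Φ θ (γ * w ^ 3 + θ * w) := by
    intro w θ
    simp only [T, Φ, U, sum_mul]
    rw [sum_comm]
    refine sum_congr rfl fun k _ => ?_
    by_cases hk : k = 0
    · simp [hk, hu]
    refine Fintype.sum_equiv ((Equiv.mulLeft₀ k hk).trans (Equiv.addLeft w)) _ _ fun t => ?_
    simp only [Equiv.trans_apply, Equiv.mulLeft₀_apply, Equiv.coe_addLeft,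
      mul_assoc (u k (w + k * t)), ← h.add]
    congr 2
    field_simp
    grind
  have e2 : ∀ w, Fintype.card F * ∑ t, T ψ 0 0 γ u t w ^ 2 =
      ∑ θ, Φ θ (γ * w ^ 3 + θ * w) ^ 2 := fun w => by
    simp only [← e1]
    rw [pars (fun x y => ψ (x * y)) (ort1 h)]
    congr 1
    refine sum_congr rfl fun t _ => ?_
    rw [mul_pow, sq (ψ _), h.mul_self, mul_one]
  have e3 : ∀ θ, ∑ w, Φ θ (γ * w ^ 3 + θ * w) ^ 2 ≤ 3 * (Fintype.card F * ∑ k, U θ k ^ 2) := by
    intro θ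
    rw [← pars (fun k y => ψ (k⁻¹ * y)) (fun k k' => by simp only [ort1 h, inv_inj]) (U θ)]
    refine fib (fun w => γ * w ^ 3 + θ * w) (Φ θ) fun y _ => ?_
    refine cub (a := γ) (b := 0) (c := θ) (d := -y) (fun e => hγ e.1) _ fun x hx => ?_
    linear_combination (mem_filter.1 hx).2
  have e4 : ∀ k, ∑ θ, U θ k ^ 2 = Fintype.card F * ∑ m, u k m ^ 2 := fun k => by
    by_cases hk : k = 0
    · simp [hk, hu, U]
    simp only [U]
    rw [pars (c := Fintype.card F) (fun m θ => ψ (m * k⁻¹ * θ)) fun m m' => by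
      simp only [ort1 h, mul_left_inj' (inv_ne_zero hk)]]
    congr 1
    refine sum_congr rfl fun t _ => ?_
    rw [mul_pow, sq (ψ _), h.mul_self, mul_one]
  refine le_of_mul_le_mul_left ?_ hq
  rw [sum_comm, mul_sum]
  simp only [e2]
  rw [sum_comm]
  refine (sum_le_sum fun θ _ => e3 θ).trans (le_of_eq ?_)
  simp only [← mul_sum]
  rw [sum_comm]
  simp only [e4, ← mul_sum]
  ring

theorem cent (h : Ch ψ ν) {γ : F} (hγ : γ ≠ 0) (u : F → F → ℝ) :
    ∑ t, ∑ w, T ψ 0 0 γ u t w ^ 2 ≤ 4 * Fintype.card F * ∑ k, ∑ m, u k m ^ 2 := by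
  have hq : (0 : ℝ) < Fintype.card F := by exact_mod_cast Fintype.card_pos
  let u' : F → F → ℝ := fun k m => if k = 0 then 0 else u k m
  have e1 : ∀ t w, T ψ 0 0 γ u t w = u 0 w + T ψ 0 0 γ u' t w := fun t w => by
    simp only [T, u']
    rw [← add_sum_erase univ _ (mem_univ 0), ← add_sum_erase univ _ (mem_univ 0)]
    simp only [zero_mul, mul_zero, add_zero, h.zero, mul_one, if_true, zero_add]
    congr 1
    exact sum_congr rfl fun k hk => by rw [if_neg (ne_of_mem_erase hk)]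
  have e2 : ∑ k, ∑ m, u k m ^ 2 = ∑ m, u 0 m ^ 2 + ∑ k, ∑ m, u' k m ^ 2 := by
    rw [← add_sum_erase univ _ (mem_univ 0), ← add_sum_erase univ (fun k => ∑ m, u' k m ^ 2)
      (mem_univ 0)]
    simp only [u', if_true, ne_eq, OfNat.ofNat_ne_zero, not_false_eq_true, zero_pow,
      sum_const_zero, zero_add]
    congr 1
    exact sum_congr rfl fun k hk => by simp only [if_neg (ne_of_mem_erase hk)]
  have e3 := core h hγ u' fun m => if_pos rfl
  have e4 : ∑ t, ∑ w, T ψ 0 0 γ u t w ^ 2 ≤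
      ∑ t : F, ∑ w, (4 * u 0 w ^ 2 + 4 / 3 * T ψ 0 0 γ u' t w ^ 2) :=
    sum_le_sum fun t _ => sum_le_sum fun w _ => by
      rw [e1]
      nlinarith [sq_nonneg (3 * u 0 w - T ψ 0 0 γ u' t w)]
  simp only [sum_add_distrib, ← mul_sum, sum_const, card_univ, nsmul_eq_mul] at e4
  rw [e2]
  linarith

theorem plane (h : Ch ψ ν) (α β γ : F) (u : F → F → ℝ)
    (hu : α = 0 → β = 0 → γ = 0 → ∑ k, ∑ m, u k m = 0) :
    ∑ t, ∑ w, T ψ α β γ u t w ^ 2 ≤ 4 * Fintype.card F * ∑ k, ∑ m, u k m ^ 2 := by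
  by_cases hγ : γ = 0
  · subst hγ
    refine (flat h α β u fun a b => hu a b rfl).trans ?_
    have : (0 : ℝ) ≤ Fintype.card F * ∑ k, ∑ m, u k m ^ 2 := by positivity
    linarith
  obtain ⟨a, rfl⟩ : ∃ a, α = γ * a := ⟨α / γ, by field_simp⟩
  obtain ⟨b, rfl⟩ : ∃ b, β = γ * b := ⟨β / γ, by field_simp⟩
  have e1 : ∀ t w, T ψ (γ * a) (γ * b) γ u t (w + (a + b * t)) =
      T ψ 0 0 γ (fun k m => u (k + b) (m + a)) t w * ψ (γ * t * a * (w + a)) := fun t w => by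
    simp only [T, sum_mul]
    refine (Fintype.sum_equiv (Equiv.addRight b) _ _ fun k => ?_).symm
    have a1 : w + (a + b * t) + (k + b) * t = w + k * t + a := by grind
    simp only [Equiv.coe_addRight, a1, mul_assoc (u _ _), ← h.add]
    congr 2
    grind
  have e2 : ∀ t, ∑ w, T ψ (γ * a) (γ * b) γ u t w ^ 2 =
      ∑ w, T ψ 0 0 γ (fun k m => u (k + b) (m + a)) t w ^ 2 := fun t => by
    refine (Fintype.sum_equiv (Equiv.addRight (a + b * t)) _ _ fun w => ?_).symm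
    rw [Equiv.coe_addRight, e1, mul_pow, sq (ψ _), h.mul_self, mul_one]
  have e3 : ∑ k, ∑ m, u (k + b) (m + a) ^ 2 = ∑ k, ∑ m, u k m ^ 2 := by
    exact Fintype.sum_equiv (Equiv.addRight b) _ _ fun k =>
      Fintype.sum_equiv (Equiv.addRight a) _ _ fun m => rfl
  simp only [e2]
  rw [← e3]
  exact cent h hγ _

end Pool.Agent.P.MP_ac2766_co.Hx
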