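import Pool.Agent.P.MP_ac2766_co.HxB

open Finset
namespace Pool.Agent.P.MP_ac2766_co.Hx
open Sm

variable {F : Type} [Field F] [DecidableEq F] [Fintype F] {ψ : F → ℝ} {ν : F}

theorem ort3 (h : Ch ψ ν) (a b c a' b' c' : F) :
    ∑ χ : F × F × F, ψ (a * χ.1 + b * χ.2.1 + c * χ.2.2) * ψ (a' * χ.1 + b' * χ.2.1 + c' * χ.2.2) =
      if a = a' ∧ b = b' ∧ c = c' then (Fintype.card F : ℝ) ^ 3 else 0 := by
  have e : ∀ χ : F × F × F,
      ψ (a * χ.1 + b * χ.2.1 + c * χ.2.2) * ψ (a' * χ.1 + b' * χ.2.1 + c' * χ.2.2) =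
      ψ (a * χ.1) * ψ (a' * χ.1) *
        (ψ (b * χ.2.1) * ψ (b' * χ.2.1) * (ψ (c * χ.2.2) * ψ (c' * χ.2.2))) := fun y => by
    simp only [h.add]
    ring
  simp only [e, Fintype.sum_prod_type, ← mul_sum, ← sum_mul, ort1 h]
  by_cases h1 : a = a' <;> by_cases h2 : b = b' <;> by_cases h3 : c = c' <;>
    simp [h1, h2, h3, pow_succ, mul_assoc]

/-- Fourier coefficient of a function on lines along the last three coordinates -/
def uh (ψ : F → ℝ) (f : V F → ℝ) (χ : F × F × F) (k m : F) : ℝ :=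
  ∑ y : F × F × F, f (k, m, y) * ψ (y.1 * χ.1 + y.2.1 * χ.2.1 + (y.2.2 + m * y.1) * χ.2.2)

theorem uh_sq (h : Ch ψ ν) (f : V F → ℝ) :
    ∑ χ, ∑ k, ∑ m, uh ψ f χ k m ^ 2 = (Fintype.card F : ℝ) ^ 3 * ∑ x, f x ^ 2 := by
  rw [sum_comm, Fintype.sum_prod_type (f := fun x => f x ^ 2), mul_sum]
  refine sum_congr rfl fun k _ => ?_
  rw [sum_comm, Fintype.sum_prod_type (f := fun x => f (k, x) ^ 2), mul_sum]
  refine sum_congr rfl fun m _ => ?_
  refine pars (fun y χ : F × F × F =>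
    ψ (y.1 * χ.1 + y.2.1 * χ.2.1 + (y.2.2 + m * y.1) * χ.2.2)) (fun y y' => ?_) _
  rw [ort3 h]
  refine if_congr ⟨fun ⟨a, b, c⟩ => Prod.ext a (Prod.ext b ?_), fun e => by simp [e]⟩ rfl rfl
  linear_combination c - m * a

/-- the matching characters on points -/
noncomputable def G (ψ : F → ℝ) (χ : F × F × F) (w : F) (p : V F) : ℝ :=
  if p.2.1 = w then ψ (p.2.2.1 * χ.1 + (p.2.2.2.1 + p.1 * p.2.2.1) * χ.2.1 +
    (p.2.2.2.2 + p.2.1 * p.2.2.1) * χ.2.2) else 0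

theorem G_sum (h : Ch ψ ν) {p p' : V F} (e : p.1 = p'.1) :
    ∑ χ, ∑ w, G ψ χ w p * G ψ χ w p' = if p = p' then (Fintype.card F : ℝ) ^ 3 else 0 := by
  obtain ⟨t, w, a, b, c⟩ := p
  obtain ⟨t', w', a', b', c'⟩ := p'
  obtain rfl : t = t' := e
  simp only [G, ite_mul, zero_mul, sum_ite_eq, mem_univ, if_true, Prod.mk.injEq, true_and]
  by_cases hw : w' = w
  · subst hw
    simp only [if_true, ort3 h, true_and]
    refine if_congr ⟨fun ⟨a, b, c⟩ => ⟨a, ?_, ?_⟩, fun e => by simp [e]⟩ rfl rfl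
    · linear_combination b - t * a
    · linear_combination c - w' * a
  · simp [hw, Ne.symm hw]

/-- signed incidence of two lines -/
noncomputable def Cm (ψ : F → ℝ) (c x : V F) : ℝ := ∑ t, ψ t * if pt c t = pt x t then 1 else 0

theorem Cm_comm (c x : V F) : Cm ψ c x = Cm ψ x c := by simp only [Cm, eq_comm]

theorem count (c : V F) (t : F) :
    ∑ x, (if pt c t = pt x t then (1 : ℝ) else 0) = Fintype.card F := by
  rw [Fintype.sum_prod_type]
  have e : ∀ k, ∑ y, (if pt c t = pt (k, y) t then (1 : ℝ) else 0) = 1 := fun k => by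
    have hb : Function.Bijective fun y => (pt (k, y) t).2 :=
      Finite.injective_iff_bijective.1 fun y y' e =>
        congrArg Prod.snd (slope (x := (k, y)) (c := (k, y')) (Prod.ext rfl e) rfl)
    have := hb.sum_comp fun z => if (pt c t).2 = z then (1 : ℝ) else 0
    rw [sum_ite_eq, if_pos (mem_univ _)] at this
    refine Eq.trans (sum_congr rfl fun y _ => ?_) this
    exact if_congr ⟨fun e => congrArg Prod.snd e, fun e => Prod.ext rfl e⟩ rfl rfl
  simp [e]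

theorem sum_psi (h : Ch ψ ν) : ∑ t, ψ t = 0 := by simpa using h.sum_mul 1

theorem Cm_sum (h : Ch ψ ν) (c : V F) : ∑ x, Cm ψ c x = 0 := by
  simp only [Cm]
  rw [sum_comm]
  simp only [← mul_sum, count, ← sum_mul, sum_psi h, zero_mul]

variable [CharP F 2]

theorem T_uh (h : Ch ψ ν) (f : V F → ℝ) (χ : F × F × F) (t w : F) :
    T ψ χ.1 χ.2.1 χ.2.2 (uh ψ f χ) t w = ∑ x, f x * G ψ χ w (pt x t) := by
  rw [Fintype.sum_prod_type, T]
  refine sum_congr rfl fun k _ => ?_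
  rw [Fintype.sum_prod_type, sum_eq_single (w + k * t), uh, sum_mul]
  · refine sum_congr rfl fun y _ => ?_
    have a1 : w + k * t + k * t = w := by grind
    simp only [G, pt, a1, if_true, mul_assoc (f _), ← h.add]
    congr 2
    grind
  · intro m _ hm
    refine sum_eq_zero fun y _ => ?_
    have a1 : ¬ m + k * t = w := fun e => hm (by grind)
    simp only [G, pt, a1, if_false, mul_zero]
  · simp

theorem bil (h : Ch ψ ν) (f g : V F → ℝ) (hf : ∑ x, f x = 0) (hg : ∑ x, g x = 0) :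
    ∑ c, ∑ x, g c * f x * Cm ψ c x ≤ 2 * Fintype.card F * (∑ x, g x ^ 2 + ∑ x, f x ^ 2) := by
  have hq : (0 : ℝ) < (Fintype.card F : ℝ) ^ 3 := by
    have : (0 : ℝ) < Fintype.card F := by exact_mod_cast Fintype.card_pos
    positivity
  have e1 : (Fintype.card F : ℝ) ^ 3 * ∑ c, ∑ x, g c * f x * Cm ψ c x = ∑ χ : F × F × F, ∑ t, ∑ w,
      ψ t * (T ψ χ.1 χ.2.1 χ.2.2 (uh ψ g χ) t w * T ψ χ.1 χ.2.1 χ.2.2 (uh ψ f χ) t w) := by
    have a1 : ∀ c x, (Fintype.card F : ℝ) ^ 3 * (g c * f x * Cm ψ c x) = ∑ χ, ∑ t, ∑ w,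
        ψ t * (g c * G ψ χ w (pt c t) * (f x * G ψ χ w (pt x t))) := fun c x => by
      rw [sum_comm]
      simp only [Cm, mul_sum]
      refine sum_congr rfl fun t _ => ?_
      have a2 : ∀ χ w, ψ t * (g c * G ψ χ w (pt c t) * (f x * G ψ χ w (pt x t))) =
          ψ t * (g c * f x) * (G ψ χ w (pt c t) * G ψ χ w (pt x t)) := fun _ _ => by ring
      simp only [a2, ← mul_sum]
      rw [G_sum h (p := pt c t) (p' := pt x t) rfl]
      split_ifs <;> ring
    simp only [T_uh h, sum_mul_sum]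
    simp only [mul_sum, a1]
    rw [sum_comm_cycle]
    refine sum_congr rfl fun χ _ => ?_
    rw [sum_comm_cycle]
    exact sum_congr rfl fun t _ => sum_comm_cycle
  have e2 : ∀ (f : V F → ℝ), ∑ x, f x = 0 → ∑ χ : F × F × F, ∑ t, ∑ w,
      T ψ χ.1 χ.2.1 χ.2.2 (uh ψ f χ) t w ^ 2 ≤
        4 * Fintype.card F * ((Fintype.card F : ℝ) ^ 3 * ∑ x, f x ^ 2) := fun f hf => by
    rw [← uh_sq h, mul_sum]
    refine sum_le_sum fun χ _ => plane h _ _ _ _ fun a b c => ?_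
    rw [← hf]
    simp only [uh, a, b, c, mul_zero, add_zero, h.zero, mul_one]
    rw [Fintype.sum_prod_type (f := f)]
    exact sum_congr rfl fun k _ => (Fintype.sum_prod_type (f := fun x => f (k, x))).symm
  have e3 : ∀ t (a b : ℝ), ψ t * (a * b) ≤ 1 / 2 * (a ^ 2 + b ^ 2) := fun t a b => by
    have := h.mul_self t
    nlinarith [sq_nonneg (ψ t * a - b)]
  refine le_of_mul_le_mul_left ?_ hq
  rw [e1]
  refine (sum_le_sum fun χ _ => sum_le_sum fun t _ => sum_le_sum fun w _ => e3 t _ _).trans ?_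
  simp only [← mul_sum, sum_add_distrib]
  linarith [e2 f hf, e2 g hg]

theorem Cm_norm (h : Ch ψ ν) (f : V F → ℝ) :
    ∑ c, (∑ x, Cm ψ c x * f x) ^ 2 ≤ 16 * (Fintype.card F : ℝ) ^ 2 * ∑ x, f x ^ 2 := by
  have hq : (0 : ℝ) < Fintype.card F := by exact_mod_cast Fintype.card_pos
  have hn : (0 : ℝ) < Fintype.card (V F) := by exact_mod_cast Fintype.card_pos
  obtain ⟨μ, hμ⟩ : ∃ μ : ℝ, ∑ x, f x = Fintype.card (V F) * μ :=
    ⟨(∑ x, f x) / Fintype.card (V F), by field_simp⟩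
  have e0 : ∑ x, (f x - μ) = 0 := by
    rw [sum_sub_distrib, hμ, sum_const, card_univ, nsmul_eq_mul, sub_self]
  have e1 : ∑ x, (f x - μ) ^ 2 ≤ ∑ x, f x ^ 2 := by
    simp only [sub_sq, sum_add_distrib, sum_sub_distrib, ← sum_mul, ← mul_sum, hμ, sum_const,
      card_univ, nsmul_eq_mul]
    nlinarith [mul_nonneg hn.le (sq_nonneg μ)]
  have e2 : ∀ c, ∑ x, Cm ψ c x * (f x - μ) = ∑ x, Cm ψ c x * f x := fun c => by
    simp only [mul_sub, sum_sub_distrib, ← sum_mul, Cm_sum h, zero_mul, sub_zero]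
  have e3 := bil h (fun x => f x - μ) (fun c => (4 * Fintype.card F : ℝ)⁻¹ * ∑ x, Cm ψ c x * f x)
    e0 (by
      rw [← mul_sum, sum_comm]
      have a1 : ∀ x, ∑ c, Cm ψ c x = 0 := fun x =>
        (sum_congr rfl fun c _ => Cm_comm c x).trans (Cm_sum h x)
      simp only [← sum_mul, a1, zero_mul, sum_const_zero, mul_zero])
  have e4 : ∀ c, ∑ x, (4 * Fintype.card F : ℝ)⁻¹ * (∑ x, Cm ψ c x * f x) * (f x - μ) * Cm ψ c x =
      (4 * Fintype.card F : ℝ)⁻¹ * (∑ x, Cm ψ c x * f x) ^ 2 := fun c => by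
    rw [sq, ← mul_assoc]
    conv_rhs => rw [← e2, mul_sum]
    rw [e2]
    exact sum_congr rfl fun x _ => by ring
  simp only [e4, mul_pow, ← mul_sum] at e3
  generalize ∑ c, (∑ x, Cm ψ c x * f x) ^ 2 = S at e3 ⊢
  generalize (Fintype.card F : ℝ) = q at hq e3 ⊢
  have e5 : 8 * q * ((4 * q)⁻¹ * S) ≤ 8 * q * (2 * q * ((4 * q)⁻¹ ^ 2 * S + ∑ x, (f x - μ) ^ 2)) :=
    mul_le_mul_of_nonneg_left e3 (by positivity)
  have e6 : 8 * q * ((4 * q)⁻¹ * S) = 2 * S := by field_simp; ring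
  have e7 : 8 * q * (2 * q * ((4 * q)⁻¹ ^ 2 * S + ∑ x, (f x - μ) ^ 2)) =
      S + 16 * q ^ 2 * ∑ x, (f x - μ) ^ 2 := by field_simp; ring
  have e8 := mul_le_mul_of_nonneg_left e1 (show 0 ≤ 16 * q ^ 2 by positivity)
  linarith

end Pool.Agent.P.MP_ac2766_co.Hx
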