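import Pool.Agent.P.MP_ac2766_co.HxC

open Finset
namespace Pool.Agent.P.MP_ac2766_co.Hx
open Sm

theorem isG_of_psd {W : Type} [Fintype W] {K : W → W → ℝ} (hs : ∀ x y, K x y = K y x)
    (h : ∀ f : W → ℝ, 0 ≤ ∑ x, ∑ y, f x * f y * K x y) : IsG K := by
  have hp : (Matrix.of K).PosSemidef := Matrix.posSemidef_iff_dotProduct_mulVec.2
    ⟨Matrix.IsHermitian.ext fun x y => by simp [hs x y], fun f => by
      refine (h f).trans (le_of_eq ?_)
      simp only [dotProduct, Matrix.mulVec, Matrix.of_apply, star_trivial, mul_sum]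
      exact sum_congr rfl fun x _ => sum_congr rfl fun y _ => by ring⟩
  obtain ⟨m, v, hv⟩ := Matrix.posSemidef_iff_eq_sum_vecMulVec.1 hp
  refine (IsG.sum univ fun i => IsG.one (v i) zero_le_one).of_eq fun x y => ?_
  simpa [Matrix.sum_apply, Matrix.vecMulVec_apply] using congrFun (congrFun hv x) y

variable {F : Type} [Field F] [DecidableEq F] [Fintype F] {ψ : F → ℝ}

/-- incidence of two different lines -/
noncomputable def Bm (c x : V F) : ℝ :=
  if c = x then 0 else ∑ t, if pt c t = pt x t then 1 else 0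

theorem Bm_sum (c : V F) : ∑ x, Bm c x = (Fintype.card F : ℝ) ^ 2 - Fintype.card F := by
  have e : ∀ x, Bm c x = (∑ t, if pt c t = pt x t then (1 : ℝ) else 0) -
      if c = x then (Fintype.card F : ℝ) else 0 := fun x => by
    unfold Bm
    split_ifs with h
    · simp [h]
    · simp
  simp only [e, sum_sub_distrib, sum_ite_eq, mem_univ, if_true]
  rw [sum_comm]
  simp only [count, sum_const, card_univ, nsmul_eq_mul, sq]

theorem BC (h : Ch ψ 1) (c x : V F) : (Bm c x = 0 ∧ Cm ψ c x = 0) ∨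
    ∃ a, c ≠ x ∧ pt x a = pt c a ∧ Bm c x = 1 ∧ Cm ψ c x = ψ a := by
  by_cases hc : c = x
  · exact Or.inl ⟨if_pos hc, by simp [Cm, hc, sum_psi h]⟩
  by_cases ha : ∃ a, pt c a = pt x a
  · obtain ⟨a, ha⟩ := ha
    have e : ∀ t, pt c t = pt x t ↔ t = a := fun t =>
      ⟨fun e => two_pts e ha hc, fun e => e ▸ ha⟩
    exact Or.inr ⟨a, hc, ha.symm, by simp [Bm, hc, e], by simp [Cm, e]⟩
  · rw [not_exists] at ha
    exact Or.inl ⟨by simp [Bm, ha], by simp [Cm, ha]⟩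

/-- twice the adjacency matrix -/
noncomputable def Mm (ψ : F → ℝ) (x y : V F) : ℝ :=
  ∑ c, (Bm c x * Bm c y - Cm ψ c x * Cm ψ c y)

theorem Mm_self (h : Ch ψ 1) (x : V F) : Mm ψ x x = 0 := by
  refine sum_eq_zero fun c _ => ?_
  rcases BC h c x with ⟨a, b⟩ | ⟨t, -, -, a, b⟩
  · simp [a, b]
  · rw [a, b, h.mul_self, mul_one, sub_self]

theorem Mm_adj (h : Ch ψ 1) {x y : V F} (hM : Mm ψ x y ≠ 0) : Adj ψ x y := by
  obtain ⟨c, -, hc⟩ := exists_ne_zero_of_sum_ne_zero hM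
  rcases BC h c x with ⟨a, b⟩ | ⟨t, a1, a2, a3, a4⟩
  · simp [a, b] at hc
  rcases BC h c y with ⟨a, b⟩ | ⟨s, b1, b2, b3, b4⟩
  · simp [a, b] at hc
  refine ⟨c, t, s, a1, b1, a2, b2, ?_⟩
  rw [a3, a4, b3, b4, ← h.add] at hc
  rw [← h.add]
  exact (mul_self_eq_one_iff.1 (h.mul_self _)).resolve_left fun e => hc (by rw [e]; ring)

theorem Mm_form (f : V F → ℝ) : ∑ x, ∑ y, f x * f y * Mm ψ x y =
    ∑ c, (∑ x, Bm c x * f x) ^ 2 - ∑ c, (∑ x, Cm ψ c x * f x) ^ 2 := by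
  simp only [Mm, mul_sum]
  rw [sum_comm_cycle, ← sum_sub_distrib]
  refine sum_congr rfl fun c _ => ?_
  simp only [sq, sum_mul_sum, ← sum_sub_distrib]
  exact sum_congr rfl fun x _ => sum_congr rfl fun y _ => by ring

theorem good [CharP F 2] (h : Ch ψ 1) : Good 4 (V F) ((Fintype.card F : ℝ) ^ 7 / 64) := by
  have hq : (2 : ℝ) ≤ Fintype.card F := by exact_mod_cast Fintype.one_lt_card
  obtain ⟨μ, hμ⟩ : ∃ μ : ℝ, μ = (16 * (Fintype.card F : ℝ) ^ 2)⁻¹ := ⟨_, rfl⟩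
  have hμ1 : μ * (16 * (Fintype.card F : ℝ) ^ 2) = 1 := by
    rw [hμ]
    field_simp
  have hμ0 : 0 ≤ μ := by
    rw [hμ]
    positivity
  have form : ∀ f : V F → ℝ, ∑ x, ∑ y, f x * f y * ((if x = y then 1 else 0) + μ * Mm ψ x y) =
      ∑ x, f x ^ 2 + μ * (∑ c, (∑ x, Bm c x * f x) ^ 2 - ∑ c, (∑ x, Cm ψ c x * f x) ^ 2) := by
    intro f
    rw [← Mm_form]
    simp only [mul_add, sum_add_distrib, mul_ite, mul_one, mul_zero, sum_ite_eq, mem_univ, if_true,
      sq, mul_sum, mul_left_comm μ]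
  refine ⟨fun x y => (if x = y then 1 else 0) + μ * Mm ψ x y, isG_of_psd (fun x y => ?_)
    fun f => ?_, fun x => by simp [Mm_self h], fun I hI => ?_, ?_⟩
  · simp only [Mm, eq_comm (a := x), mul_comm (Bm _ x), mul_comm (Cm ψ _ x)]
  · rw [form]
    have e1 := mul_le_mul_of_nonneg_left (Cm_norm h f) hμ0
    have e2 : 0 ≤ μ * ∑ c, (∑ x, Bm c x * f x) ^ 2 := by positivity
    rw [← mul_assoc, hμ1] at e1
    linarith
  · by_contra hh
    push Not at hh
    let e := (I.equivFinOfCardEq hI).symm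
    refine free h (fun i => (e i : V F)) fun i j hij => Mm_adj h fun e0 => ?_
    have hne : (e i : V F) ≠ e j := fun a => hij (e.injective (Subtype.ext a))
    exact hh _ (e i).2 _ (e j).2 hne (by simp [hne, e0])
  · have e1 := form fun _ => 1
    simp only [mul_one, one_mul, Bm_sum, Cm_sum h, sum_const, card_univ, nsmul_eq_mul,
      Fintype.card_prod, Nat.cast_mul] at e1
    rw [e1, hμ]
    generalize (Fintype.card F : ℝ) = q at hq
    have e2 : (16 * q ^ 2)⁻¹ * (q * (q * (q * (q * q))) * (q ^ 2 - q) ^ 2 -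
        q * (q * (q * (q * q))) * 0 ^ 2) = q ^ 5 * (2 * (q - 1)) ^ 2 / 64 := by
      field_simp
      ring
    have e3 : q ^ 5 * q ^ 2 ≤ q ^ 5 * (2 * (q - 1)) ^ 2 :=
      mul_le_mul_of_nonneg_left (pow_le_pow_left₀ (by linarith) (by linarith) 2) (by positivity)
    have e4 : 0 ≤ q * (q * (q * (q * q))) * 1 ^ 2 := by positivity
    rw [e2]
    linarith

theorem exists_ch {e : ℕ} (he : Odd e) : ∃ ψ : GaloisField 2 e → ℝ, Ch ψ 1 := by
  let τ := Algebra.trace (ZMod 2) (GaloisField 2 e)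
  have h1 : τ 1 = 1 := by
    have := Algebra.trace_algebraMap (R := ZMod 2) (S := GaloisField 2 e) 1
    rw [map_one, GaloisField.finrank 2 he.pos.ne'] at this
    rw [this, nsmul_eq_mul, mul_one]
    exact he.natCast_zmod_two
  refine ⟨fun x => if τ x = 0 then 1 else -1, CharTwo.two_eq_zero, fun a b => ?_, fun a => ?_,
    by simp [h1]⟩
  · rw [map_add]
    generalize τ a = s
    generalize τ b = t
    have h : ∀ s : ZMod 2, s = 0 ∨ s = 1 := by decide
    have h1 : (1 : ZMod 2) + 1 = 0 := by decide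
    rcases h s with rfl | rfl <;> rcases h t with rfl | rfl <;> simp [h1]
  · have := Algebra.trace_eq_of_algEquiv
      (FiniteField.frobeniusAlgEquivOfAlgebraic (ZMod 2) (GaloisField 2 e)) a
    rw [FiniteField.coe_frobeniusAlgEquivOfAlgebraic, ZMod.card] at this
    simp only [τ, this]

theorem main (n : ℕ) (hn : 32 ≤ n) :
    ∃ (d : ℕ) (v : Fin n → EuclideanSpace ℝ (Fin d)), (∀ i, ‖v i‖ = 1) ∧
      (∀ I : Finset (Fin n), I.card = 4 → ∃ i ∈ I, ∃ j ∈ I, i ≠ j ∧ inner ℝ (v i) (v j) = 0) ∧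
      1 / 1024 * (n : ℝ) ^ (7 / 10 : ℝ) ≤ ‖∑ i, v i‖ := by
  classical
  obtain ⟨e, he, h1, h2⟩ : ∃ e : ℕ, Odd e ∧ (2 ^ e) ^ 5 ≤ n ∧ n ≤ (4 * 2 ^ e) ^ 5 := by
    have a1 := Nat.pow_log_le_self 1024 (show n / 32 ≠ 0 by omega)
    have a2 := Nat.lt_pow_succ_log_self (show 1 < 1024 by norm_num) (n / 32)
    refine ⟨2 * Nat.log 1024 (n / 32) + 1, odd_two_mul_add_one _, ?_, ?_⟩
    all_goals
      have a3 : ∀ j : ℕ, (2 ^ (2 * j + 1)) ^ 5 = 32 * 1024 ^ j := fun j => by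
        rw [show 1024 = 2 ^ 10 by norm_num, ← pow_mul, ← pow_mul]
        ring
      simp only [mul_pow, a3, Nat.succ_eq_add_one, pow_succ 1024] at a2 ⊢
      omega
  obtain ⟨ψ, h⟩ := exists_ch he
  let _ := Fintype.ofFinite (GaloisField 2 e)
  have hc : Fintype.card (GaloisField 2 e) = 2 ^ e := by
    rw [← Nat.card_eq_fintype_card, GaloisField.card 2 e he.pos.ne']
  refine (good h).out (by norm_num) ?_ ?_
  · simp only [Fintype.card_prod, hc]
    exact le_of_eq_of_le (by ring) h1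
  · rw [hc]
    generalize 2 ^ e = q at h2
    have h3 : (n : ℝ) ≤ (4 * q) ^ 5 := by exact_mod_cast h2
    have h4 : (n : ℝ) ^ (7 / 5 : ℝ) ≤ ((4 * q : ℝ) ^ 5) ^ (7 / 5 : ℝ) :=
      Real.rpow_le_rpow (by positivity) h3 (by norm_num)
    have e1 : ((4 * q : ℝ) ^ 5) ^ (7 / 5 : ℝ) = (4 * q) ^ 7 := by
      rw [← Real.rpow_natCast, ← Real.rpow_mul (by positivity), ← Real.rpow_natCast]
      norm_num
    have e2 : ((n : ℝ) ^ (7 / 10 : ℝ)) ^ 2 = (n : ℝ) ^ (7 / 5 : ℝ) := by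
      rw [← Real.rpow_natCast, ← Real.rpow_mul (by positivity)]
      norm_num
    rw [mul_pow, e2]
    rw [e1] at h4
    linarith

end Pool.Agent.P.MP_ac2766_co.Hx
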