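import Mathlib
import Pool.Agent.P.MP_ac2766_co.Count

namespace Pool.Agent.P.MP_ac2766_co

open Finset

lemma union_bound {Y : Type*} [Fintype Y] [DecidableEq Y] {n k : ℕ} (C : Finset (Fin k → Y))
    (hY : 0 < Fintype.card Y) (h : n ^ k * C.card < Fintype.card Y ^ k) :
    ∃ v : Fin n → Y, ∀ e : Fin k → Fin n, Function.Injective e → v ∘ e ∉ C := by
  classical
  by_cases hkn : k ≤ n
  swap
  · obtain ⟨y⟩ := Fintype.card_pos_iff.1 hY
    refine ⟨fun _ => y, fun e he => absurd ?_ hkn⟩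
    simpa using Fintype.card_le_of_injective e he
  have h1 : ∀ e : Fin k → Fin n, Function.Injective e →
      (univ.filter fun v : Fin n → Y => v ∘ e ∈ C).card ≤ C.card * Fintype.card Y ^ (n - k) := by
    intro e he
    have h2 : Fintype.card ({b : Fin n // b ∉ Set.range e} → Y) = Fintype.card Y ^ (n - k) := by
      rw [Fintype.card_fun, Fintype.card_subtype_compl, Fintype.card_fin,
        Set.card_range_of_injective he, Fintype.card_fin]
    rw [← h2, ← card_univ, ← card_product]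
    refine card_le_card_of_injOn (fun v => (v ∘ e, fun b => v b.1)) (fun v hv => ?_) ?_
    · simpa using hv
    · intro v _ v' _ hvv
      simp only [Prod.mk.injEq] at hvv
      funext b
      by_cases hb : b ∈ Set.range e
      · obtain ⟨a, rfl⟩ := hb
        exact congrFun hvv.1 a
      · exact congrFun hvv.2 ⟨b, hb⟩
  by_contra hc
  push Not at hc
  have h3 : (univ : Finset (Fin n → Y)) ⊆
      (univ.filter fun e : Fin k → Fin n => Function.Injective e).biUnion
        fun e => univ.filter fun v : Fin n → Y => v ∘ e ∈ C := by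
    intro v _
    obtain ⟨e, he1, he2⟩ := hc v
    simp only [mem_biUnion, mem_filter, mem_univ, true_and]
    exact ⟨e, he1, he2⟩
  have h4 := (card_le_card h3).trans (card_biUnion_le_card_mul _ _ _
    fun e he => h1 e (mem_filter.1 he).2)
  have h5 : (univ.filter fun e : Fin k → Fin n => Function.Injective e).card ≤ n ^ k := by
    refine (card_filter_le _ _).trans ?_
    simp
  rw [card_univ, Fintype.card_fun, Fintype.card_fin] at h4
  have h6 : Fintype.card Y ^ n = Fintype.card Y ^ k * Fintype.card Y ^ (n - k) := by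
    rw [← pow_add, Nat.add_sub_cancel' hkn]
  have h7 : n ^ k * (C.card * Fintype.card Y ^ (n - k)) <
      Fintype.card Y ^ k * Fintype.card Y ^ (n - k) := by
    rw [← mul_assoc]
    exact Nat.mul_lt_mul_of_pos_right h (by positivity)
  have h8 := Nat.mul_le_mul_right (C.card * Fintype.card Y ^ (n - k)) h5
  omega

variable {ι : Type*} [DecidableEq ι] [Fintype ι]

lemma exists_points {l k t n : ℕ} (hl : 4 ≤ l) (hm : Fintype.card ι = 16384 * l ^ 2)
    (hk : 8192 * l ^ 2 ≤ k) (ht : 1 ≤ t) (hn : n ≤ 2 ^ (l * t)) :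
    ∃ y : Fin n → Fin t → Finset ι, ∀ I : Finset (Fin n), I.card = k →
      ∃ i ∈ I, ∃ j ∈ I, i ≠ j ∧ ∃ s, ip (y i s) (y j s) = 0 := by
  classical
  have hc := card_cliq_evens hl hm hk
  have hE : 0 < (evens ι).card := card_pos.2 ⟨∅, by simp [evens, chi, sg]⟩
  let C : Finset (Fin k → Fin t → evens ι) :=
    univ.filter fun w => ∀ s, (fun i => (w i s : Finset ι)) ∈ cliq (evens ι) k
  have hC : C.card ≤ (cliq (evens ι) k).card ^ t := by
    have h1 : (Fintype.piFinset fun _ : Fin t => cliq (evens ι) k).card =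
        (cliq (evens ι) k).card ^ t := by simp
    rw [← h1]
    refine card_le_card_of_injOn (fun w s i => (w i s : Finset ι)) (fun w hw => ?_) ?_
    · simpa [C] using hw
    · intro w _ w' _ h
      funext i s
      exact Subtype.ext (congrFun (congrFun h s) i)
  have hY : Fintype.card (Fin t → evens ι) = (evens ι).card ^ t := by simp
  have hk1 : 1 ≤ k := le_trans (by nlinarith) hk
  obtain ⟨v, hv⟩ := union_bound (n := n) C (by rw [hY]; positivity) (by
    rw [hY]
    have h1 : n ^ k * C.card * 2 ^ (t * k) ≤ ((evens ι).card ^ t) ^ k := by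
      calc n ^ k * C.card * 2 ^ (t * k)
          ≤ (2 ^ (l * t)) ^ k * (cliq (evens ι) k).card ^ t * 2 ^ (t * k) := by gcongr
        _ = ((cliq (evens ι) k).card * 2 ^ ((l + 1) * k)) ^ t := by
            rw [mul_pow, ← pow_mul, ← pow_mul]; ring
        _ ≤ ((evens ι).card ^ k) ^ t := by gcongr
        _ = _ := by rw [← pow_mul, ← pow_mul, mul_comm]
    have h2 : 2 ≤ 2 ^ (t * k) := le_self_pow₀ (by norm_num) (by positivity)
    have h3 : 0 < ((evens ι).card ^ t) ^ k := by positivity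
    nlinarith)
  refine ⟨fun i s => v i s, fun I hI => ?_⟩
  have h1 := hv (I.orderEmbOfFin hI) (I.orderEmbOfFin hI).injective
  simp only [C, mem_filter, mem_univ, true_and, mem_cliq, Function.comp_apply, not_forall,
    not_and, coe_mem, forall_const, ne_eq, not_not] at h1
  obtain ⟨s, i, j, hij, h⟩ := h1
  exact ⟨_, I.orderEmbOfFin_mem hI i, _, I.orderEmbOfFin_mem hI j,
    fun h' => hij ((I.orderEmbOfFin hI).injective h'), s, h⟩

/-- coordinates of the tensor vector. -/
noncomputable def tens {t : ℕ} (y : Fin t → Finset ι) (p : Fin t → ι × ι) : ℝ :=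
  ∏ s, (sg (y s) (p s).1 * sg (y s) (p s).2 / Fintype.card ι)

lemma sum_tens_mul {t : ℕ} (y y' : Fin t → Finset ι) :
    ∑ p, tens y p * tens y' p = ∏ s, (ip (y s) (y' s) / Fintype.card ι) ^ 2 := by
  have h1 : ∀ s, (ip (y s) (y' s) / Fintype.card ι) ^ 2 =
      ∑ q : ι × ι, (sg (y s) q.1 * sg (y s) q.2 / Fintype.card ι) *
        (sg (y' s) q.1 * sg (y' s) q.2 / Fintype.card ι) := by
    intro s
    rw [div_pow, sq, ip, sum_mul_sum, Fintype.sum_prod_type, sum_div]
    refine sum_congr rfl fun a _ => ?_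
    rw [sum_div]
    refine sum_congr rfl fun b _ => ?_
    ring
  simp only [h1]
  rw [prod_univ_sum, Fintype.piFinset_univ]
  refine sum_congr rfl fun p _ => ?_
  rw [tens, tens, ← prod_mul_distrib]

lemma exists_vectors {l k t n : ℕ} (hl : 4 ≤ l) (hk : 8192 * l ^ 2 ≤ k) (ht : 1 ≤ t)
    (hn : n ≤ 2 ^ (l * t)) :
    ∃ (d : ℕ) (v : Fin n → EuclideanSpace ℝ (Fin d)), (∀ i, ‖v i‖ = 1) ∧
      (∀ I : Finset (Fin n), I.card = k → ∃ i ∈ I, ∃ j ∈ I, i ≠ j ∧ inner ℝ (v i) (v j) = 0) ∧
      (n : ℝ) ^ 2 ≤ (16384 * l ^ 2) ^ t * ‖∑ i, v i‖ ^ 2 := by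
  classical
  set m := 16384 * l ^ 2 with hmdef
  have hm : Fintype.card (Fin m) = 16384 * l ^ 2 := Fintype.card_fin m
  have hmpos : (0 : ℝ) < Fintype.card (Fin m) := by rw [hm]; positivity
  obtain ⟨y, hy⟩ := exists_points hl hm hk ht hn
  let e := (Fintype.equivFin (Fin t → Fin m × Fin m)).symm
  let v : Fin n → EuclideanSpace ℝ (Fin (Fintype.card (Fin t → Fin m × Fin m))) :=
    fun i => WithLp.toLp 2 fun c => tens (y i) (e c)
  have hinner : ∀ i j, inner ℝ (v i) (v j) =
      ∏ s, (ip (y j s) (y i s) / Fintype.card (Fin m)) ^ 2 := by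
    intro i j
    rw [← sum_tens_mul, ← Equiv.sum_comp e]
    simp [v, PiLp.inner_apply]
  refine ⟨_, v, fun i => ?_, fun I hI => ?_, ?_⟩
  · have h1 : ‖v i‖ ^ 2 = 1 := by
      rw [← real_inner_self_eq_norm_sq, hinner]
      refine prod_eq_one fun s _ => ?_
      rw [ip_self, div_self hmpos.ne', one_pow]
    exact (pow_eq_one_iff_of_nonneg (norm_nonneg _) two_ne_zero).1 h1
  · obtain ⟨i, hi, j, hj, hij, s, hs⟩ := hy I hI
    refine ⟨i, hi, j, hj, hij, ?_⟩
    rw [hinner]
    refine prod_eq_zero (mem_univ s) ?_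
    rw [ip_comm, hs]
    simp
  · have h1 : ‖∑ i, v i‖ ^ 2 = ∑ p, (∑ i, tens (y i) p) ^ 2 := by
      rw [EuclideanSpace.real_norm_sq_eq, ← Equiv.sum_comp e]
      refine sum_congr rfl fun c _ => ?_
      simp [v]
    have h2 : ∀ q : Fin t → Fin m, ∑ i, tens (y i) (fun s => (q s, q s)) =
        n * (1 / Fintype.card (Fin m)) ^ t := by
      intro q
      simp [tens, sg_mul_self]
    have h3 : ∑ q : Fin t → Fin m, (∑ i, tens (y i) (fun s => (q s, q s))) ^ 2 ≤
        ∑ p, (∑ i, tens (y i) p) ^ 2 := by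
      rw [← sum_image (s := univ) (g := fun (q : Fin t → Fin m) s => (q s, q s))
        (f := fun p => (∑ i, tens (y i) p) ^ 2)]
      · exact sum_le_sum_of_subset_of_nonneg (subset_univ _) fun _ _ _ => sq_nonneg _
      · intro q _ q' _ h
        funext s
        exact congrArg Prod.fst (congrFun h s)
    simp only [h2] at h3
    rw [sum_const, card_univ, Fintype.card_fun, Fintype.card_fin t, nsmul_eq_mul] at h3
    rw [h1]
    have h4 : (16384 * l ^ 2 : ℝ) = Fintype.card (Fin m) := by rw [hm]; push_cast; ring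
    rw [h4]
    refine le_trans (le_of_eq ?_) (mul_le_mul_of_nonneg_left h3 (by positivity))
    push_cast
    rw [one_div, inv_pow]
    field_simp

lemma exists_orthonormal {k n : ℕ} (hk : 2 ≤ k) (hn : 1 ≤ n) :
    ∃ (d : ℕ) (v : Fin n → EuclideanSpace ℝ (Fin d)), (∀ i, ‖v i‖ = 1) ∧
      (∀ I : Finset (Fin n), I.card = k → ∃ i ∈ I, ∃ j ∈ I, i ≠ j ∧ inner ℝ (v i) (v j) = 0) ∧
      1 ≤ ‖∑ i, v i‖ := by
  have ho := EuclideanSpace.orthonormal_single (𝕜 := ℝ) (ι := Fin n)
  refine ⟨n, fun i => EuclideanSpace.single i 1, ho.1, fun I hI => ?_, ?_⟩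
  · obtain ⟨i, hi, j, hj, hij⟩ := one_lt_card.1 (show 1 < I.card by omega)
    exact ⟨i, hi, j, hj, hij, ho.2 hij⟩
  · have h := EuclideanSpace.norm_eq (∑ i : Fin n, EuclideanSpace.single i (1 : ℝ))
    have h2 := PiLp.norm_apply_le (∑ i : Fin n, EuclideanSpace.single i (1 : ℝ)) ⟨0, hn⟩
    refine le_trans (le_of_eq ?_) h2
    simp [Pi.single_apply]

theorem main : ∃ C : ℝ, ∀ k : ℕ, 2 ≤ k → ∃ n₀ : ℕ, ∀ n : ℕ, n₀ ≤ n →
    ∃ (d : ℕ) (v : Fin n → EuclideanSpace ℝ (Fin d)), (∀ i, ‖v i‖ = 1) ∧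
      (∀ I : Finset (Fin n), I.card = k → ∃ i ∈ I, ∃ j ∈ I, i ≠ j ∧ inner ℝ (v i) (v j) = 0) ∧
      (n : ℝ) ^ (1 - C * Real.log k / Real.sqrt k) ≤ ‖∑ i, v i‖ := by
  refine ⟨1000, fun k hk => ?_⟩
  have hk0 : (0 : ℝ) < k := by positivity
  have hsq : 0 < Real.sqrt k := Real.sqrt_pos.2 hk0
  have hlog2 := Real.log_two_gt_d9
  have hlogk : Real.log 2 ≤ Real.log k := Real.log_le_log (by norm_num) (by exact_mod_cast hk)
  by_cases hsmall : k < 131072
  · refine ⟨1, fun n hn => ?_⟩
    obtain ⟨d, v, h1, h2, h3⟩ := exists_orthonormal hk hn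
    refine ⟨d, v, h1, h2, le_trans ?_ h3⟩
    apply Real.rpow_le_one_of_one_le_of_nonpos (by exact_mod_cast hn)
    rw [sub_nonpos, le_div_iff₀ hsq]
    have : Real.sqrt k ≤ 400 := by
      rw [Real.sqrt_le_left (by norm_num)]
      have : (k : ℝ) ≤ 131072 := by exact_mod_cast hsmall.le
      linarith
    linarith
  · push Not at hsmall
    set l := Nat.sqrt (k / 8192) with hl
    have hl4 : 4 ≤ l := Nat.le_sqrt.2 (by omega)
    have hl1 : 8192 * l ^ 2 ≤ k := by
      have := Nat.sqrt_le' (k / 8192)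
      rw [← hl] at this
      omega
    have hl2 : k ≤ (128 * l) ^ 2 := by
      have := Nat.lt_succ_sqrt' (k / 8192)
      rw [← hl] at this
      have h2 : k < 8192 * (l + 1) ^ 2 := by
        rw [Nat.succ_eq_add_one] at this
        omega
      nlinarith
    refine ⟨2 ^ l, fun n hn => ?_⟩
    have hex : ∃ t, n ≤ 2 ^ (l * t) :=
      ⟨n, (Nat.lt_two_pow_self).le.trans (Nat.pow_le_pow_right (by norm_num) (by nlinarith))⟩
    set t := Nat.find hex with ht
    have ht1 : n ≤ 2 ^ (l * t) := Nat.find_spec hex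
    have hn1 : 1 < n := lt_of_lt_of_le (Nat.one_lt_two_pow (by omega)) hn
    have ht0 : 1 ≤ t := by
      by_contra h
      have h0 : t = 0 := by omega
      rw [h0] at ht1
      simp at ht1
      omega
    have ht2 : 2 ^ (l * (t - 1)) < n := not_le.1 (Nat.find_min hex (by omega))
    have ht3 : 2 ^ (l * t) ≤ n ^ 2 := by
      calc 2 ^ (l * t) = 2 ^ (l * (t - 1)) * 2 ^ l := by
            rw [← pow_add, ← Nat.mul_succ]
            congr 2
            omega
        _ ≤ n * n := Nat.mul_le_mul ht2.le hn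
        _ = n ^ 2 := by ring
    obtain ⟨d, v, h1, h2, h3⟩ := exists_vectors hl4 hl1 ht0 ht1
    refine ⟨d, v, h1, h2, ?_⟩
    have hn0 : (0 : ℝ) < n := by positivity
    have hlogn : 0 ≤ Real.log n := Real.log_nonneg (by exact_mod_cast hn1.le)
    have hl0 : (0 : ℝ) < l := by positivity
    have ha : (l * t : ℝ) * Real.log 2 ≤ 2 * Real.log n := by
      have h4 : ((2 : ℝ)) ^ (l * t) ≤ (n : ℝ) ^ 2 := by exact_mod_cast ht3
      have h5 := Real.log_le_log (by positivity) h4
      rw [Real.log_pow, Real.log_pow] at h5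
      exact_mod_cast h5
    have hb : Real.log (16384 * l ^ 2) ≤ 2 * Real.log k := by
      have h4 : (16384 * l ^ 2 : ℝ) ≤ (k : ℝ) ^ 2 := by
        have h5 : 16384 * l ^ 2 ≤ k ^ 2 := by nlinarith
        exact_mod_cast h5
      have h5 := Real.log_le_log (by positivity) h4
      rwa [Real.log_pow] at h5
    have hc : Real.sqrt k ≤ 128 * l := by
      rw [Real.sqrt_le_left (by positivity)]
      exact_mod_cast hl2
    set δ : ℝ := 1000 * Real.log k / Real.sqrt k with hδ
    have hd : (t : ℝ) * Real.log (16384 * l ^ 2) ≤ Real.log n * (2 * δ) := by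
      have hlk : 0 ≤ Real.log k := by linarith
      have h4 : (t : ℝ) * l ≤ 4 * Real.log n := by
        have : (0 : ℝ) ≤ l * t := by positivity
        nlinarith
      have h5 : 1000 * Real.log k / (128 * l) ≤ δ := by
        rw [hδ]
        gcongr
      calc (t : ℝ) * Real.log (16384 * l ^ 2) ≤ t * (2 * Real.log k) := by gcongr
        _ = (t * l) * (2 * Real.log k / l) := by field_simp
        _ ≤ (4 * Real.log n) * (2 * Real.log k / l) := by gcongr
        _ = Real.log n * (2 * (512 * Real.log k / (128 * l))) := by field_simp; ring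
        _ ≤ Real.log n * (2 * (1000 * Real.log k / (128 * l))) := by gcongr; norm_num
        _ ≤ Real.log n * (2 * δ) := by gcongr
    have he : (16384 * l ^ 2 : ℝ) ^ t ≤ (n : ℝ) ^ (2 * δ) := by
      rw [Real.rpow_def_of_pos hn0, ← Real.exp_log (show (0 : ℝ) < (16384 * l ^ 2 : ℝ) ^ t by
        positivity), Real.log_pow]
      exact Real.exp_le_exp.2 hd
    apply le_of_sq_le_sq _ (norm_nonneg _)
    have hpos : 0 < (n : ℝ) ^ (2 * δ) := Real.rpow_pos_of_pos hn0 _
    apply le_of_mul_le_mul_left _ hpos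
    calc (n : ℝ) ^ (2 * δ) * ((n : ℝ) ^ (1 - δ)) ^ 2 = (n : ℝ) ^ 2 := by
          rw [← Real.rpow_natCast, ← Real.rpow_natCast, ← Real.rpow_mul hn0.le,
            ← Real.rpow_add hn0]
          congr 1
          push_cast
          ring
      _ ≤ (16384 * l ^ 2) ^ t * ‖∑ i, v i‖ ^ 2 := h3
      _ ≤ _ := by gcongr

end Pool.Agent.P.MP_ac2766_co
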