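import Mathlib

open Finset
namespace Pool.Agent.P.MP_ac2766_co.Sm

/-- `K` is a finite sum of products `e p * e p'`, so a Gram kernel. -/
def IsG {V : Type} (K : V → V → ℝ) : Prop :=
  ∃ l : List (V → ℝ), ∀ p p', K p p' = (l.map fun e => e p * e p').sum

section G
variable {V W : Type}

theorem IsG.one (e : V → ℝ) {s : ℝ} (hs : 0 ≤ s) : IsG fun p p' => s * (e p * e p') :=
  ⟨[fun p => √s * e p], fun p p' => by
    simp only [List.map_cons, List.map_nil, List.sum_cons, List.sum_nil, add_zero]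
    have := Real.mul_self_sqrt hs
    linear_combination (-(e p * e p')) * this⟩

theorem IsG.add {K L : V → V → ℝ} (hK : IsG K) (hL : IsG L) :
    IsG fun p p' => K p p' + L p p' := by
  obtain ⟨l, hl⟩ := hK
  obtain ⟨m, hm⟩ := hL
  exact ⟨l ++ m, fun p p' => by simp [hl, hm]⟩

theorem IsG.sum {ι : Type} (s : Finset ι) {K : ι → V → V → ℝ} (h : ∀ i, IsG (K i)) :
    IsG fun p p' => ∑ i ∈ s, K i p p' := by
  classical
  induction s using Finset.induction_on with
  | empty => exact ⟨[], fun p p' => by simp⟩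
  | insert a s ha ih =>
    simp only [sum_insert ha]
    exact (h a).add ih

theorem IsG.pull {K : W → W → ℝ} (hK : IsG K) (π : V → W) (e : V → ℝ) :
    IsG fun p p' => e p * e p' * K (π p) (π p') := by
  obtain ⟨l, hl⟩ := hK
  refine ⟨l.map fun f p => e p * f (π p), fun p p' => ?_⟩
  beta_reduce
  rw [hl, List.map_map, ← List.sum_map_mul_left]
  congr 1
  refine List.map_congr_left fun f _ => ?_
  simp only [Function.comp]
  ring

theorem IsG.of_eq {K L : V → V → ℝ} (hK : IsG K) (h : ∀ p p', L p p' = K p p') : IsG L := by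
  obtain ⟨l, hl⟩ := hK
  exact ⟨l, fun p p' => (h p p').trans (hl p p')⟩

theorem IsG.vec {K : V → V → ℝ} (hK : IsG K) :
    ∃ (d : ℕ) (v : V → EuclideanSpace ℝ (Fin d)), ∀ p p', inner ℝ (v p) (v p') = K p p' := by
  obtain ⟨l, hl⟩ := hK
  refine ⟨l.length, fun p => WithLp.toLp 2 fun i => l[i.1] p, fun p p' => ?_⟩
  rw [hl, ← Fin.sum_univ_fun_getElem l fun e => e p * e p']
  simp only [PiLp.inner_apply, RCLike.inner_apply, conj_trivial]
  exact sum_congr rfl fun i _ => mul_comm _ _

theorem IsG.total [Fintype V] {K : V → V → ℝ} (hK : IsG K) : 0 ≤ ∑ p, ∑ p', K p p' := by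
  obtain ⟨d, v, hv⟩ := hK.vec
  simp only [← hv, ← inner_sum, ← sum_inner]
  exact real_inner_self_nonneg

/-- Fourier lift along the fibres. -/
theorem IsG.lift {U H Ξ : Type} [DecidableEq U] [DecidableEq H] [Fintype Ξ] (χ : Ξ → H → ℝ)
    {Q m : ℝ} (hχ : ∀ h h', ∑ ξ, χ ξ h * χ ξ h' = if h = h' then Q else 0)
    (k : Ξ → U → U → ℝ) (hk : ∀ ξ, IsG fun u u' => k ξ u u' + if u = u' then m else 0) :
    IsG fun p p' : U × H => ∑ ξ, χ ξ p.2 * χ ξ p'.2 * k ξ p.1 p'.1 +
      if p = p' then m * Q else 0 := by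
  refine (IsG.sum univ fun ξ => (hk ξ).pull Prod.fst fun p => χ ξ p.2).of_eq fun p p' => ?_
  simp only [mul_add, sum_add_distrib, ← sum_mul, hχ, Prod.ext_iff]
  by_cases h1 : p.1 = p'.1 <;> by_cases h2 : p.2 = p'.2 <;> simp [h1, h2, mul_comm]

/-- A system of unit vectors, as a kernel. -/
def Good (k : ℕ) (V : Type) [Fintype V] (s : ℝ) : Prop :=
  ∃ K : V → V → ℝ, IsG K ∧ (∀ p, K p p = 1) ∧
    (∀ I : Finset V, I.card = k → ∃ i ∈ I, ∃ j ∈ I, i ≠ j ∧ K i j = 0) ∧ s ≤ ∑ p, ∑ p', K p p'

theorem Good.of_ker [Fintype V] [DecidableEq V] {k : ℕ} {A : V → V → ℝ} {c : ℝ} (hc : 0 < c)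
    (hA : IsG fun p p' => A p p' + if p = p' then c else 0) (hd : ∀ p, A p p + 1 = 0)
    (hk : ∀ f : Fin k → V, Function.Injective f → ∃ i j, i ≠ j ∧ A (f i) (f j) + 1 = 0) :
    Good k V ((Fintype.card V : ℝ) ^ 2 / c) := by
  have h1 := (hA.add (IsG.one (fun _ => 1) zero_le_one)).pull id fun _ => √c⁻¹
  have hs : √c⁻¹ * √c⁻¹ = c⁻¹ := Real.mul_self_sqrt (by positivity)
  refine ⟨_, h1, fun p => ?_, fun I hI => ?_, ?_⟩
  · simp only [hs, id, if_true]
    have := hd p
    field_simp
    linarith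
  · obtain ⟨i, j, hij, h⟩ := hk (fun i => (I.equivFinOfCardEq hI).symm i)
      (Subtype.val_injective.comp (I.equivFinOfCardEq hI).symm.injective)
    have hne : ((I.equivFinOfCardEq hI).symm i : V) ≠ (I.equivFinOfCardEq hI).symm j := fun e =>
      hij ((I.equivFinOfCardEq hI).symm.injective (Subtype.ext e))
    refine ⟨_, Subtype.property _, _, Subtype.property _, hne, ?_⟩
    simp only [id, if_neg hne]
    rw [add_zero, mul_one, mul_one, h, mul_zero]
  · have h0 := hA.total
    simp only [hs, id, ← mul_sum, mul_one]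
    rw [sum_congr rfl fun p _ => sum_add_distrib, sum_add_distrib]
    simp only [sum_const, card_univ, nsmul_eq_mul, mul_one]
    rw [div_eq_inv_mul, sq]
    exact mul_le_mul_of_nonneg_left (by linarith) (by positivity)

theorem Good.pad [Fintype V] {k : ℕ} {s : ℝ} (h : Good k V s) (hk : 2 ≤ k) (m : ℕ) :
    Good k (V ⊕ Fin m) s := by
  classical
  obtain ⟨K, ⟨l, hl⟩, h1, h2, h3⟩ := h
  let K' : V ⊕ Fin m → V ⊕ Fin m → ℝ := fun p p' =>
    Sum.elim (fun a => Sum.elim (K a) (fun _ => 0) p') (fun _ => 0) p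
  have g1 : IsG K' := by
    refine ⟨l.map fun e => Sum.elim e fun _ => 0, fun p p' => ?_⟩
    rw [List.map_map]
    rcases p with a | a <;> rcases p' with b | b <;> simp [K', hl, Function.comp_def]
  have g2 := IsG.sum univ fun j : Fin m =>
    IsG.one (fun p : V ⊕ Fin m => if p = Sum.inr j then (1 : ℝ) else 0) zero_le_one
  refine ⟨_, g1.add g2, fun p => ?_, fun I hI => ?_, ?_⟩
  · rcases p with a | a <;> simp [K', h1]
  · by_cases hI' : ∃ j, Sum.inr j ∈ I
    · obtain ⟨j, hj⟩ := hI'
      obtain ⟨i, hi, hij⟩ := exists_mem_ne (show 1 < I.card by omega) (Sum.inr j)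
      refine ⟨i, hi, _, hj, hij, ?_⟩
      rcases i with a | a
      · simp [K']
      · have : a ≠ j := fun e => hij (by rw [e])
        simp [K', this]
    · have e : I = I.toLeft.map Function.Embedding.inl := by
        ext p
        rcases p with a | a
        · simp
        · simpa using fun hh => hI' ⟨a, hh⟩
      obtain ⟨i, hi, j, hj, hij, h0⟩ := h2 I.toLeft (by rw [← hI]; conv_rhs => rw [e, card_map])
      exact ⟨Sum.inl i, by simpa using hi, Sum.inl j, by simpa using hj, by simpa using hij,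
        by simp [K', h0]⟩
  · have := g2.total
    rw [sum_congr rfl fun p _ => sum_add_distrib, sum_add_distrib]
    have e : ∑ p, ∑ p', K' p p' = ∑ p, ∑ p', K p p' := by simp [K', Fintype.sum_sum_type]
    linarith

theorem Good.out [Fintype V] {k n : ℕ} {s b : ℝ} (h : Good k V s) (hk : 2 ≤ k)
    (hn : Fintype.card V ≤ n) (hb : b ^ 2 ≤ s) :
    ∃ (d : ℕ) (v : Fin n → EuclideanSpace ℝ (Fin d)), (∀ i, ‖v i‖ = 1) ∧
      (∀ I : Finset (Fin n), I.card = k → ∃ i ∈ I, ∃ j ∈ I, i ≠ j ∧ inner ℝ (v i) (v j) = 0) ∧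
      b ≤ ‖∑ i, v i‖ := by
  classical
  obtain ⟨K, g, h1, h2, h3⟩ := h.pad hk (n - Fintype.card V)
  obtain ⟨d, v, hv⟩ := g.vec
  let e : V ⊕ Fin (n - Fintype.card V) ≃ Fin n := Fintype.equivFinOfCardEq (by simp; omega)
  refine ⟨d, fun i => v (e.symm i), fun i => ?_, fun I hI => ?_, ?_⟩
  · have := hv (e.symm i) (e.symm i)
    rw [h1, real_inner_self_eq_norm_sq] at this
    exact (pow_eq_one_iff_of_nonneg (norm_nonneg _) two_ne_zero).1 this
  · obtain ⟨i, hi, j, hj, hij, h0⟩ := h2 (I.map e.symm.toEmbedding) (by rw [card_map, hI])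
    refine ⟨e i, by simpa using hi, e j, by simpa using hj, e.injective.ne hij, ?_⟩
    simp only [Equiv.symm_apply_apply, hv, h0]
  · rw [e.symm.sum_comp v]
    refine abs_le_of_sq_le_sq' ?_ (norm_nonneg _) |>.2
    rw [← real_inner_self_eq_norm_sq, sum_inner]
    simp only [inner_sum, hv]
    linarith

end G

section F
variable {F : Type} [Field F]

theorem fac {ι κ : Type} [Fintype ι] [Fintype κ] (r : κ → ι → F) (z : ι → F)
    (h : ∀ a : ι → F, (∀ j, ∑ i, a i * r j i = 0) → ∑ i, a i * z i = 0) :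
    ∃ c : κ → F, ∀ i, z i = ∑ j, c j * r j i := by
  classical
  let T : (ι → F) → (ι → F) →ₗ[F] F := fun y => Fintype.linearCombination F y
  have hT : ∀ y a, T y a = ∑ i, a i * y i := fun y a => by
    simp [T, Fintype.linearCombination_apply]
  have := mem_span_of_iInf_ker_le_ker (L := fun j => T (r j)) (K := T z) fun a ha => by
    simp only [Submodule.mem_iInf, LinearMap.mem_ker, hT] at ha ⊢
    exact h a ha
  obtain ⟨c, hc⟩ := (Submodule.mem_span_range_iff_exists_fun F).1 this
  refine ⟨c, fun i => ?_⟩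
  have := LinearMap.congr_fun hc (Pi.single i 1)
  simp only [LinearMap.sum_apply, LinearMap.smul_apply, hT, Pi.single_apply, ite_mul, one_mul,
    zero_mul, sum_ite_eq', mem_univ, if_true, smul_eq_mul] at this
  exact this.symm

open Polynomial in
theorem roots_le [DecidableEq F] (P : F[X]) (hP : P ≠ 0) {r : ℕ} (hr : P.natDegree ≤ r)
    (s : Finset F) (hs : ∀ x ∈ s, P.eval x = 0) : s.card ≤ r := by
  refine le_trans (card_le_card (t := P.roots.toFinset) fun x hx => ?_)
    ((Multiset.toFinset_card_le _).trans ((card_roots' P).trans hr))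
  simp [hP, hs x hx]

open Polynomial in
theorem count_le [DecidableEq F] {k r : ℕ} (t : Fin k → F) (P : F[X]) (hP : P ≠ 0)
    (hr : P.natDegree ≤ r) (ht : ∀ i, P.eval (t i) = 0) (a : F)
    (h1 : ∀ i j, t i ≠ a → t i = t j → i = j)
    (h2 : ∀ i j l, t i = t j → t i = t l → i = j ∨ i = l ∨ j = l) : k ≤ r + 1 := by
  have e := card_filter_add_card_filter_not (s := (univ : Finset (Fin k))) fun i => t i = a
  rw [card_univ, Fintype.card_fin] at e
  have hS : (univ.filter fun i => t i = a).card ≤ 2 := by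
    by_contra hh
    obtain ⟨i, hi, j, hj, l, hl, a1, a2, a3⟩ := two_lt_card.1 (not_le.1 hh)
    simp only [mem_filter, mem_univ, true_and] at hi hj hl
    rcases h2 i j l (hi.trans hj.symm) (hi.trans hl.symm) with h | h | h <;> contradiction
  have hT : ((univ.filter fun i => ¬ t i = a).image t).card =
      (univ.filter fun i => ¬ t i = a).card :=
    card_image_of_injOn fun i hi j _ hij => h1 i j (by simpa using hi) hij
  by_cases h0 : ∃ i, t i = a
  · obtain ⟨i, hi⟩ := h0
    have := roots_le P hP hr (insert a ((univ.filter fun i => ¬ t i = a).image t)) fun x hx => by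
      rcases mem_insert.1 hx with rfl | hx
      · rw [← hi]; exact ht i
      · obtain ⟨j, -, rfl⟩ := mem_image.1 hx
        exact ht j
    rw [card_insert_of_notMem (by simp)] at this
    omega
  · have h3 : (univ.filter fun i => t i = a).card = 0 := by
      simpa using fun i hi => h0 ⟨i, hi⟩
    have := roots_le P hP hr ((univ.filter fun i => ¬ t i = a).image t) fun x hx => by
      obtain ⟨j, -, rfl⟩ := mem_image.1 hx
      exact ht j
    omega

end F

end Pool.Agent.P.MP_ac2766_co.Sm
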