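import Pool.Agent.P.MP_ac2766_co.SmA

open Finset
namespace Pool.Agent.P.MP_ac2766_co.Sm

variable {F : Type} [Field F]

/-- a sign character of a field of characteristic two, invariant under squaring -/
structure Ch (ψ : F → ℝ) (ν : F) : Prop where
  two : (2 : F) = 0
  add : ∀ a b, ψ (a + b) = ψ a * ψ b
  sq : ∀ a, ψ (a ^ 2) = ψ a
  nu : ψ ν = -1

/-- the anisotropic binary form -/
def Nf (ν a b : F) : F := a ^ 2 + a * b + ν * b ^ 2

theorem exists_ch (e : ℕ) :
    ∃ (ψ : GaloisField 2 e → ℝ) (ν : GaloisField 2 e), Ch ψ ν := by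
  obtain ⟨ν, hν⟩ := Algebra.trace_surjective (ZMod 2) (GaloisField 2 e) 1
  refine ⟨fun x => if Algebra.trace (ZMod 2) (GaloisField 2 e) x = 0 then 1 else -1, ν,
    CharTwo.two_eq_zero, fun a b => ?_, fun a => ?_, by simp [hν]⟩
  · rw [map_add]
    generalize Algebra.trace (ZMod 2) (GaloisField 2 e) a = s
    generalize Algebra.trace (ZMod 2) (GaloisField 2 e) b = t
    have h : ∀ s : ZMod 2, s = 0 ∨ s = 1 := by decide
    have h1 : (1 : ZMod 2) + 1 = 0 := by decide
    rcases h s with rfl | rfl <;> rcases h t with rfl | rfl <;> simp [h1]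
  · have := Algebra.trace_eq_of_algEquiv
      (FiniteField.frobeniusAlgEquivOfAlgebraic (ZMod 2) (GaloisField 2 e)) a
    rw [FiniteField.coe_frobeniusAlgEquivOfAlgebraic, ZMod.card] at this
    simp only [this]

namespace Ch
variable {ψ : F → ℝ} {ν : F}

theorem zero (h : Ch ψ ν) : ψ 0 = 1 := by
  have := h.add ν 0
  rw [add_zero, h.nu] at this
  linarith

theorem self (h : Ch ψ ν) (a : F) : a + a = 0 := by linear_combination a * h.two

theorem add_eq (h : Ch ψ ν) {a b : F} : a + b = 0 ↔ a = b :=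
  ⟨fun e => by linear_combination e - b * h.two, fun e => by rw [e, h.self]⟩

theorem mul_self (h : Ch ψ ν) (a : F) : ψ a * ψ a = 1 := by rw [← h.add, h.self, h.zero]

theorem le_one (h : Ch ψ ν) (a : F) : ψ a ≤ 1 := by nlinarith [h.mul_self a]

theorem kappa (h : Ch ψ ν) (m : F) : m ^ 2 + m + ν ≠ 0 := fun e => by
  have := h.zero
  rw [← e, h.add, h.add, h.sq, h.mul_self, h.nu] at this
  linarith

theorem aniso (h : Ch ψ ν) {a b : F} (e : Nf ν a b = 0) : a = 0 ∧ b = 0 := by
  unfold Nf at e
  by_cases hb : b = 0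
  · subst hb
    exact ⟨by simpa using e, rfl⟩
  · refine (h.kappa (a / b) ?_).elim
    field_simp
    linear_combination e

variable [Fintype F] [DecidableEq F]

theorem sum_mul (h : Ch ψ ν) (a : F) :
    ∑ x, ψ (a * x) = if a = 0 then (Fintype.card F : ℝ) else 0 := by
  split_ifs with ha
  · simp [ha, h.zero]
  · have e1 : ∑ x, ψ (a * x) = ∑ x, ψ x := Equiv.sum_comp (Equiv.mulLeft₀ a ha) ψ
    have e2 : ∑ x, ψ (x + ν) = ∑ x, ψ x := Equiv.sum_comp (Equiv.addRight ν) ψ
    simp only [h.add, h.nu, mul_neg, mul_one, sum_neg_distrib] at e2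
    linarith

theorem sum_pow (h : Ch ψ ν) (j : ℕ) (a : F) :
    ∑ x, ψ (a * x ^ 2 ^ j) = if a = 0 then (Fintype.card F : ℝ) else 0 := by
  induction j with
  | zero => simpa using h.sum_mul a
  | succ j ih =>
    have hb : Function.Bijective fun x : F => x ^ 2 := Finite.injective_iff_bijective.1
      fun x y e => h.add_eq.1 (pow_eq_zero_iff two_ne_zero |>.1 (by
        linear_combination e + (x * y + y ^ 2) * h.two))
    rw [← ih, ← hb.sum_comp fun x => ψ (a * x ^ 2 ^ j)]
    exact sum_congr rfl fun x _ => by rw [← pow_mul, pow_succ']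

open Polynomial in
theorem quad (h : Ch ψ ν) (f : F → F) (P : F[X]) (hP : P ≠ 0) {r : ℕ} (hr : P.natDegree ≤ r)
    (j : ℕ) (hf : ∀ x y, ψ (f (x + y)) * ψ (f x) = ψ (f y) * ψ (P.eval y * x ^ 2 ^ j)) :
    (∑ x, ψ (f x)) ^ 2 ≤ r * Fintype.card F := by
  have e1 : (∑ x, ψ (f x)) ^ 2 = ∑ x, ∑ y, ψ (f (x + y)) * ψ (f x) := by
    rw [pow_two, mul_sum]
    refine sum_congr rfl fun x _ => ?_
    rw [← Finset.sum_mul]
    congr 1
    exact (Equiv.sum_comp (Equiv.addLeft x) fun y => ψ (f y)).symm
  rw [e1, sum_comm]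
  simp only [hf, ← mul_sum, h.sum_pow]
  have h1 := roots_le P hP hr (univ.filter fun y => P.eval y = 0) fun x hx => by simpa using hx
  calc _ ≤ ∑ y : F, if P.eval y = 0 then (Fintype.card F : ℝ) else 0 := by
        refine sum_le_sum fun y _ => mul_le_of_le_one_left ?_ (h.le_one _)
        split_ifs <;> positivity
    _ = (univ.filter fun y => P.eval y = 0).card * (Fintype.card F : ℝ) := by
        rw [← sum_filter, sum_const, nsmul_eq_mul]
    _ ≤ _ := mul_le_mul_of_nonneg_right (by exact_mod_cast h1) (by positivity)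

open Polynomial in
theorem cubic (h : Ch ψ ν) (a b : F) {c : F} (hc : c ≠ 0) :
    -(2 * √(Fintype.card F)) ≤ ∑ x, ψ (a * x + b * x ^ 2 + c * x ^ 3) := by
  have := h.quad (fun x => a * x + b * x ^ 2 + c * x ^ 3) (C (c ^ 2) * X ^ 4 + C c * X)
    (fun e => hc (by
      have := congrArg (coeff · 1) e
      simp only [coeff_add, coeff_C_mul, coeff_X_pow, coeff_X_one, coeff_zero] at this
      simpa using this)) (r := 4)
    (by compute_degree) 1 fun x y => by
      have e1 : ψ ((C (c ^ 2) * X ^ 4 + C c * X).eval y * x ^ 2 ^ 1) =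
          ψ (c * x * y ^ 2 + c * y * x ^ 2) := by
        rw [h.add, ← h.sq (c * x * y ^ 2), ← h.add]
        congr 1
        simp
        ring
      rw [e1, ← h.add, ← h.add]
      congr 1
      linear_combination (a * x + b * x ^ 2 + b * x * y + c * x ^ 3 + c * x ^ 2 * y +
        c * x * y ^ 2) * h.two
  refine (abs_le_of_sq_le_sq' ?_ (by positivity)).1
  rw [mul_pow, Real.sq_sqrt (by positivity)]
  exact this.trans (le_of_eq (by norm_num))

/-- circulant blocks along lines -/
theorem circ (h : Ch ψ ν) {U : Type} [DecidableEq U] (L S : U → F)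
    (hi : ∀ u u', L u = L u' → S u = S u' → u = u') (g : F → F → ℝ) {m : ℝ}
    (hg : ∀ l b, -m ≤ ∑ x, g l x * ψ (b * x)) :
    IsG fun u u' => (if L u = L u' then g (L u) (S u + S u') else 0) + if u = u' then m else 0 := by
  have hq : (0 : ℝ) < Fintype.card F := by exact_mod_cast Fintype.card_pos
  refine (IsG.sum univ fun l => IsG.sum univ fun b =>
    IsG.one (fun u => if L u = l then ψ (b * S u) else 0)
      (s := (∑ x, g l x * ψ (b * x) + m) / Fintype.card F)
      (div_nonneg (by linarith [hg l b]) hq.le)).of_eq fun u u' => ?_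
  rw [sum_eq_single (L u) (fun l _ hl => by simp [hl.symm]) (by simp)]
  by_cases e : L u = L u'
  · simp only [if_true, if_pos e, if_pos e.symm]
    have e1 : ∀ b, (∑ x, g (L u) x * ψ (b * x) + m) / Fintype.card F * (ψ (b * S u) * ψ (b * S u'))
        = (∑ x, g (L u) x * ψ ((x + (S u + S u')) * b) + m * ψ ((S u + S u') * b)) /
          Fintype.card F := fun b => by
      rw [div_mul_eq_mul_div, add_mul, Finset.sum_mul, ← h.add]
      congr 2
      · refine sum_congr rfl fun x _ => ?_
        rw [mul_assoc, ← h.add]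
        congr 2
        ring
      · congr 2
        ring
    simp only [e1]
    rw [← sum_div, sum_add_distrib, sum_comm]
    simp only [← mul_sum, h.sum_mul, h.add_eq, mul_ite, mul_zero, sum_ite_eq', mem_univ, if_true]
    have e2 : S u = S u' ↔ u = u' := ⟨hi u u' e, fun e => by rw [e]⟩
    simp only [e2]
    split_ifs
    · field_simp
    · field_simp
      simp
  · have : u ≠ u' := fun e' => e (by rw [e'])
    simp [e, this, Ne.symm e]

end Ch

end Pool.Agent.P.MP_ac2766_co.Sm
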