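import Pool.Agent.P.MP_ac2766_co.SmB

open Finset
namespace Pool.Agent.P.MP_ac2766_co.Sm

variable {F : Type} [Field F] {ψ : F → ℝ} {ν : F}

/-- adjacency of the graph without a clique on four vertices -/
def Adj4 (ν : F) (p p' : (F × F) × F × F) : Prop :=
  p.1 ≠ p'.1 ∧ (p.1.1 + p'.1.1) * (p.2.1 + p'.2.1) + (p.1.2 + p'.1.2) * (p.2.2 + p'.2.2) =
    Nf ν (p.1.1 * p.1.2 + p'.1.1 * p'.1.2) (p.1.2 ^ 2 + p'.1.2 ^ 2) ∧
    (p.1.2 = p'.1.2 → p.2.2 + p'.2.2 = (p.1.1 + p'.1.1) ^ 3)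

theorem key4 (h : Ch ψ ν) (a x y v w A B : Fin 4 → F)
    (E : ∀ i j, i ≠ j → (x i + x j) * (v i + v j) + (y i + y j) * (w i + w j) =
      Nf ν (A i + A j) (B i + B j))
    (h0 : ∑ i, a i = 0) (hx : ∑ i, a i * x i = 0) (hy : ∑ i, a i * y i = 0) :
    ∑ i, a i * A i = 0 ∧ ∑ i, a i * B i = 0 := by
  have : CharP F 2 := CharTwo.of_one_ne_zero_of_two_eq_zero one_ne_zero h.two
  refine h.aniso ?_
  have e01 := E 0 1 (by decide)
  have e02 := E 0 2 (by decide)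
  have e03 := E 0 3 (by decide)
  have e12 := E 1 2 (by decide)
  have e13 := E 1 3 (by decide)
  have e23 := E 2 3 (by decide)
  simp only [← CharTwo.sub_eq_add (x _), ← CharTwo.sub_eq_add (v _), ← CharTwo.sub_eq_add (y _),
    ← CharTwo.sub_eq_add (w _), ← CharTwo.sub_eq_add (A _), ← CharTwo.sub_eq_add (B _), Nf]
    at e01 e02 e03 e12 e13 e23
  simp only [Fin.sum_univ_four, Nf] at h0 hx hy ⊢
  linear_combination (a 0 * a 1) * e01 + (a 0 * a 2) * e02 + (a 0 * a 3) * e03 +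
    (a 1 * a 2) * e12 + (a 1 * a 3) * e13 + (a 2 * a 3) * e23 -
    (a 0 * (x 0 * v 0 + y 0 * w 0 - (A 0 ^ 2 + A 0 * B 0 + ν * B 0 ^ 2)) +
     a 1 * (x 1 * v 1 + y 1 * w 1 - (A 1 ^ 2 + A 1 * B 1 + ν * B 1 ^ 2)) +
     a 2 * (x 2 * v 2 + y 2 * w 2 - (A 2 ^ 2 + A 2 * B 2 + ν * B 2 ^ 2)) +
     a 3 * (x 3 * v 3 + y 3 * w 3 - (A 3 ^ 2 + A 3 * B 3 + ν * B 3 ^ 2))) * h0 +
    (a 0 * v 0 + a 1 * v 1 + a 2 * v 2 + a 3 * v 3) * hx +
    (a 0 * w 0 + a 1 * w 1 + a 2 * w 2 + a 3 * w 3) * hy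

open Polynomial in
theorem free4 (h : Ch ψ ν) (f : Fin 4 → (F × F) × F × F) (H : ∀ i j, i ≠ j → Adj4 ν (f i) (f j)) :
    False := by
  classical
  have hk := fun a h0 hx hy => key4 h a (fun i => (f i).1.1) (fun i => (f i).1.2)
    (fun i => (f i).2.1) (fun i => (f i).2.2) (fun i => (f i).1.1 * (f i).1.2)
    (fun i => (f i).1.2 ^ 2) (fun i j hij => (H i j hij).2.1) h0 hx hy
  let r : Fin 3 → Fin 4 → F := ![fun _ => 1, fun i => (f i).1.1, fun i => (f i).1.2]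
  obtain ⟨a, ha⟩ := fac r (fun i => (f i).1.1 * (f i).1.2) fun a ha =>
    (hk a (by simpa [r] using ha 0) (ha 1) (ha 2)).1
  obtain ⟨b, hb⟩ := fac r (fun i => (f i).1.2 ^ 2) fun a ha =>
    (hk a (by simpa [r] using ha 0) (ha 1) (ha 2)).2
  simp only [Fin.sum_univ_three, r, Matrix.cons_val_zero, Matrix.cons_val_one, Matrix.cons_val,
    mul_one] at ha hb
  have hu : ∀ i j, (f i).1.2 = (f j).1.2 → (f i).1.1 = (f j).1.1 → i = j := fun i j e1 e2 => by
    by_contra hh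
    exact (H i j hh).1 (Prod.ext e2 e1)
  by_cases hb1 : b 1 = 0
  · have := count_le (r := 2) (fun i => (f i).1.2) (X ^ 2 - C (b 2) * X - C (b 0))
      (Monic.ne_zero (by monicity!)) (by compute_degree)
      (fun i => by simp; linear_combination hb i + (f i).1.1 * hb1) (a 1)
      (fun i j hi e => hu i j e (mul_right_cancel₀ (sub_ne_zero.2 hi) (by
        linear_combination ha i - ha j + (a 2 - (f j).1.1) * e)))
      fun i j l e1 e2 => by
        by_contra hh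
        simp only [not_or] at hh
        have t1 := (H i j hh.1).2.2 e1
        have t2 := (H i l hh.2.1).2.2 e2
        have t3 := (H j l hh.2.2).2.2 (e1.symm.trans e2)
        have : ((f i).1.1 + (f j).1.1) * ((f i).1.1 + (f l).1.1) * ((f j).1.1 + (f l).1.1) = 0 := by
          linear_combination t1 + t2 + t3 + (((f i).1.1 + (f j).1.1) * ((f i).1.1 + (f l).1.1) *
            ((f j).1.1 + (f l).1.1) * 2 + (f i).1.1 ^ 3 + (f j).1.1 ^ 3 + (f l).1.1 ^ 3 -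
            3 * (f i).1.1 * (f j).1.1 * (f l).1.1 - (f i).2.2 - (f j).2.2 - (f l).2.2) * h.two
        simp only [mul_eq_zero, h.add_eq] at this
        rcases this with (e | e) | e
        exacts [hh.1 (hu _ _ e1 e), hh.2.1 (hu _ _ e2 e), hh.2.2 (hu _ _ (e1.symm.trans e2) e)]
    omega
  · have hi : Function.Injective fun i => (f i).1.2 := fun i j e => hu i j e
      (mul_left_cancel₀ hb1 (by
        have e : (f i).1.2 = (f j).1.2 := e
        linear_combination hb j - hb i + ((f i).1.2 + (f j).1.2 - b 2) * e))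
    have := roots_le ((X ^ 2 - C (b 2) * X - C (b 0)) * (X - C (a 1)) -
      C (b 1) * (C (a 2) * X + C (a 0))) (Monic.ne_zero (by monicity!)) (r := 3)
      (by compute_degree) (univ.image fun i => (f i).1.2) fun x hx => by
        obtain ⟨i, -, rfl⟩ := mem_image.1 hx
        simp
        linear_combination ((f i).1.2 - a 1) * hb i + b 1 * ha i
    rw [card_image_of_injective _ hi] at this
    simp at this

variable [Fintype F] [DecidableEq F]

theorem punct (f : F → ℝ) : ∑ x, (if x ≠ 0 then f x else 0) = ∑ x, f x - f 0 := by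
  rw [← add_sum_erase univ f (mem_univ 0), ← sum_filter, filter_ne', add_sub_cancel_left]

theorem Ch.sum2 (h : Ch ψ ν) (A B : F) : ∑ ξ : F × F, ψ (ξ.1 * A + ξ.2 * B) =
    if A = 0 ∧ B = 0 then (Fintype.card F : ℝ) ^ 2 else 0 := by
  simp only [Fintype.sum_prod_type, h.add, ← sum_mul_sum, mul_comm _ A, mul_comm _ B, h.sum_mul]
  by_cases h1 : A = 0 <;> by_cases h2 : B = 0 <;> simp [h1, h2, pow_two]

/-- symbol of the edges between different rulings -/
noncomputable def g1 (ψ : F → ℝ) (ν : F) (ξ : F × F) (l σ : F) : ℝ :=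
  if ξ.2 = 0 then 0 else if σ ≠ 0 then
    ψ (ξ.2 * (l ^ 2 * σ + l * σ ^ 2 + ((ξ.1 / ξ.2) ^ 2 + ξ.1 / ξ.2 + ν) * σ ^ 3)) else 0

/-- symbol of the weighted edges inside a ruling -/
noncomputable def g2 (ψ : F → ℝ) (ξ : F × F) (y σ : F) : ℝ :=
  (if σ ≠ 0 then ψ (ξ.1 * (y ^ 2 * σ) + ξ.2 * σ ^ 3) else 0) - if ξ = 0 then 1 else 0

omit [DecidableEq F] in
theorem one_le_sqrt : (1 : ℝ) ≤ √(Fintype.card F) :=
  Real.one_le_sqrt.2 (by exact_mod_cast Fintype.card_pos)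

theorem g1_ge (h : Ch ψ ν) (ξ : F × F) (l b : F) :
    -(3 * √(Fintype.card F)) ≤ ∑ x, g1 ψ ν ξ l x * ψ (b * x) := by
  have h1 := one_le_sqrt (F := F)
  by_cases e : ξ.2 = 0
  · simp [g1, e]
  · simp only [g1, if_neg e, ite_mul, zero_mul, punct, ← h.add]
    have := h.cubic (ξ.2 * l ^ 2 + b) (ξ.2 * l) (mul_ne_zero e (h.kappa (ξ.1 / ξ.2)))
    rw [sum_congr rfl fun x _ => congrArg ψ (show _ = ξ.2 * (l ^ 2 * x + l * x ^ 2 +
      ((ξ.1 / ξ.2) ^ 2 + ξ.1 / ξ.2 + ν) * x ^ 3) + b * x by ring)] at this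
    linarith [h.le_one (ξ.2 * (l ^ 2 * 0 + l * 0 ^ 2 +
      ((ξ.1 / ξ.2) ^ 2 + ξ.1 / ξ.2 + ν) * 0 ^ 3) + b * 0)]

theorem g2_ge (h : Ch ψ ν) (ξ : F × F) (y b : F) :
    -(3 * √(Fintype.card F)) ≤ ∑ x, g2 ψ ξ y x * ψ (b * x) := by
  have h1 := one_le_sqrt (F := F)
  simp only [g2, sub_mul, ite_mul, zero_mul, sum_sub_distrib, punct, ← h.add]
  have h2 := h.le_one (ξ.1 * (y ^ 2 * 0) + ξ.2 * 0 ^ 3 + b * 0)
  by_cases e : ξ = 0
  · subst e
    simp only [if_true, Prod.fst_zero, Prod.snd_zero, zero_mul, zero_add, one_mul] at h2 ⊢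
    linarith
  · simp only [if_neg e, sum_const_zero, sub_zero]
    by_cases e2 : ξ.2 = 0
    · have := h.sum_mul (ξ.1 * y ^ 2 + b)
      rw [sum_congr rfl fun x _ => congrArg ψ (show _ = ξ.1 * (y ^ 2 * x) + ξ.2 * x ^ 3 + b * x by
        rw [e2]; ring)] at this
      have h3 : (0 : ℝ) ≤ if ξ.1 * y ^ 2 + b = 0 then (Fintype.card F : ℝ) else 0 := by
        split_ifs <;> positivity
      linarith
    · have := h.cubic (ξ.1 * y ^ 2 + b) 0 e2
      rw [sum_congr rfl fun x _ => congrArg ψ (show _ = ξ.1 * (y ^ 2 * x) + ξ.2 * x ^ 3 + b * x by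
        ring)] at this
      linarith

/-- the character of the fibre -/
noncomputable def chi2 (ψ : F → ℝ) (ξ v : F × F) : ℝ := ψ (ξ.1 * v.1 + ξ.2 * v.2)

omit [Fintype F] [DecidableEq F] in
theorem chi2_mul (h : Ch ψ ν) (ξ v v' : F × F) :
    chi2 ψ ξ v * chi2 ψ ξ v' = ψ (ξ.1 * (v.1 + v'.1) + ξ.2 * (v.2 + v'.2)) := by
  rw [chi2, chi2, ← h.add]
  congr 1
  ring

theorem chi2_sum (h : Ch ψ ν) (v v' : F × F) : ∑ ξ, chi2 ψ ξ v * chi2 ψ ξ v' =
    if v = v' then (Fintype.card F : ℝ) ^ 2 else 0 := by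
  simp only [chi2_mul h, h.sum2, h.add_eq, Prod.ext_iff]

/-- first part of the kernel -/
noncomputable def A1 (ψ : F → ℝ) (ν : F) (p p' : (F × F) × F × F) : ℝ :=
  ∑ ξ : F × F, chi2 ψ ξ p.2 * chi2 ψ ξ p'.2 *
    if p.1.1 + ξ.1 / ξ.2 * p.1.2 = p'.1.1 + ξ.1 / ξ.2 * p'.1.2 then
      g1 ψ ν ξ (p.1.1 + ξ.1 / ξ.2 * p.1.2) (p.1.2 + p'.1.2) else 0

/-- second part of the kernel -/
noncomputable def A2 (ψ : F → ℝ) (p p' : (F × F) × F × F) : ℝ :=
  ∑ ξ : F × F, chi2 ψ ξ p.2 * chi2 ψ ξ p'.2 *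
    if p.1.2 = p'.1.2 then g2 ψ ξ p.1.2 (p.1.1 + p'.1.1) else 0

theorem A1_eq (h : Ch ψ ν) {p p' : (F × F) × F × F} (e : p.1.2 = p'.1.2) : A1 ψ ν p p' = 0 := by
  simp [A1, g1, e, h.self]

theorem A2_eq (h : Ch ψ ν) {p p' : (F × F) × F × F} (e : p.1.2 = p'.1.2) :
    A2 ψ p p' + 1 = if p.1.1 + p'.1.1 ≠ 0 ∧ p.2.1 + p'.2.1 + p.1.2 ^ 2 * (p.1.1 + p'.1.1) = 0 ∧
      p.2.2 + p'.2.2 + (p.1.1 + p'.1.1) ^ 3 = 0 then (Fintype.card F : ℝ) ^ 2 else 0 := by
  simp only [A2, if_pos e, g2, mul_sub, sum_sub_distrib, mul_ite, mul_one, mul_zero, sum_ite_eq',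
    mem_univ, if_true, chi2_mul h, Prod.fst_zero, Prod.snd_zero, zero_mul, add_zero, h.zero,
    sub_add_cancel, ← h.add]
  by_cases e1 : p.1.1 + p'.1.1 = 0
  · simp [e1]
  · simp only [ne_eq, e1, not_false_eq_true, if_true, true_and, ← h.sum2]
    exact sum_congr rfl fun ξ _ => congrArg ψ (by ring)

theorem A1_ne (h : Ch ψ ν) {p p' : (F × F) × F × F} (e : p.1.2 ≠ p'.1.2)
    (hA : A1 ψ ν p p' + 1 ≠ 0) : Adj4 ν p p' := by
  obtain ⟨⟨x, y⟩, v, w⟩ := p
  obtain ⟨⟨x', y'⟩, v', w'⟩ := p'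
  have hσ : y + y' ≠ 0 := fun e' => e (h.add_eq.1 e')
  obtain ⟨m, hm⟩ : ∃ m, x + x' = m * (y + y') := ⟨(x + x') / (y + y'), by field_simp⟩
  have key : A1 ψ ν ((x, y), v, w) ((x', y'), v', w') = ∑ β, if β ≠ 0 then
      ψ ((m * (v + v') + (w + w') + ((x + m * y) ^ 2 * (y + y') + (x + m * y) * (y + y') ^ 2 +
        (m ^ 2 + m + ν) * (y + y') ^ 3)) * β) else 0 := by
    rw [A1, Fintype.sum_prod_type_right]
    refine sum_congr rfl fun β _ => ?_
    by_cases hβ : β = 0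
    · simp [g1, hβ]
    · rw [sum_eq_single (m * β) (fun α _ hα => ?_) (by simp)]
      · simp only [mul_div_cancel_right₀ m hβ, g1, if_neg hβ, if_pos hσ, if_pos hβ, chi2_mul h]
        rw [if_pos (by linear_combination hm + (m * y - x') * h.two), ← h.add]
        congr 1
        ring
      · rw [if_neg fun e' => hα ?_, mul_zero]
        have e' : x + α / β * y = x' + α / β * y' := e'
        have : (α / β - m) * (y + y') = 0 := by
          linear_combination e' + hm + (α / β * y' - x) * h.two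
        have := sub_eq_zero.1 ((mul_eq_zero.1 this).resolve_right hσ)
        rw [← this, div_mul_cancel₀ _ hβ]
  rw [key, punct, mul_zero, h.zero, sub_add_cancel, h.sum_mul] at hA
  have hE := of_not_not fun hh => hA (if_neg hh)
  refine ⟨fun e' => e (congrArg Prod.snd e'), ?_, fun e' => (e e').elim⟩
  have hx : x' = x + m * (y + y') := by linear_combination hm - x * h.two
  have : CharP F 2 := CharTwo.of_one_ne_zero_of_two_eq_zero one_ne_zero h.two
  simp only [Nf]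
  subst hx
  linear_combination (norm := (ring_nf; reduce_mod_char!)) (y + y') * hE

theorem good4 (h : Ch ψ ν) : Good 4 ((F × F) × F × F)
    ((Fintype.card ((F × F) × F × F) : ℝ) ^ 2 /
      (6 * √(Fintype.card F) * (Fintype.card F : ℝ) ^ 2)) := by
  have hq : (0 : ℝ) < Fintype.card F := by exact_mod_cast Fintype.card_pos
  have G1 := IsG.lift (chi2 ψ) (chi2_sum h) _ fun ξ : F × F =>
    h.circ (fun u : F × F => u.1 + ξ.1 / ξ.2 * u.2) Prod.snd
      (fun u u' e1 e2 => Prod.ext (by rw [e2] at e1; exact add_right_cancel e1) e2)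
      (g1 ψ ν ξ) (g1_ge h ξ)
  have G2 := IsG.lift (chi2 ψ) (chi2_sum h) _ fun ξ : F × F =>
    h.circ (U := F × F) Prod.snd Prod.fst (fun u u' e1 e2 => Prod.ext e2 e1) (g2 ψ ξ) (g2_ge h ξ)
  refine Good.of_ker (A := fun p p' => A1 ψ ν p p' + A2 ψ p p') (by positivity)
    ((G1.add G2).of_eq fun p p' => ?_) (fun p => ?_) fun f hf => ?_
  · simp only [A1, A2]
    split_ifs <;> ring
  · rw [A1_eq h rfl, zero_add, A2_eq h rfl]
    simp [h.self]
  · by_contra hh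
    push Not at hh
    refine free4 h f fun i j hij => ?_
    have h1 := hh i j hij
    by_cases e : (f i).1.2 = (f j).1.2
    · rw [A1_eq h e, zero_add, A2_eq h e] at h1
      obtain ⟨a1, a2, a3⟩ := of_not_not fun hh => h1 (if_neg hh)
      refine ⟨fun e' => a1 (h.add_eq.2 (congrArg Prod.fst e')), ?_, fun _ => h.add_eq.1 a3⟩
      rw [← e, h.self, h.self, h.add_eq.1 a2, Nf]
      ring
    · refine A1_ne h e ?_
      simpa [A2, e] using h1

end Pool.Agent.P.MP_ac2766_co.Sm
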