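import Pool.Agent.P.MP_ac2766_co.SmB

open Finset
namespace Pool.Agent.P.MP_ac2766_co.Sm

variable {F : Type} [Field F] {ψ : F → ℝ} {ν : F}

theorem newton (h : Ch ψ ν) (a b c d e f : F) (p1 : a + b + c + d + e + f = 0)
    (p3 : a ^ 3 + b ^ 3 + c ^ 3 + d ^ 3 + e ^ 3 + f ^ 3 = 0)
    (p5 : a ^ 5 + b ^ 5 + c ^ 5 + d ^ 5 + e ^ 5 + f ^ 5 = 0) :
    a ^ 9 + b ^ 9 + c ^ 9 + d ^ 9 + e ^ 9 + f ^ 9 = 0 := by
  obtain ⟨E2, e2⟩ : ∃ E, E =
    (a * b + a * c + a * d + a * e + a * f + b * c + b * d + b * e + b * f + c * d + c * e + c *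
    f + d * e + d * f + e * f) := ⟨_, rfl⟩
  obtain ⟨E3, e3⟩ : ∃ E, E =
    (a * b * c + a * b * d + a * b * e + a * b * f + a * c * d + a * c * e + a * c * f + a * d *
    e + a * d * f + a * e * f + b * c * d + b * c * e + b * c * f + b * d * e + b * d * f + b * e
    * f + c * d * e + c * d * f + c * e * f + d * e * f) := ⟨_, rfl⟩
  obtain ⟨E4, e4⟩ : ∃ E, E =
    (a * b * c * d + a * b * c * e + a * b * c * f + a * b * d * e + a * b * d * f + a * b * e *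
    f + a * c * d * e + a * c * d * f + a * c * e * f + a * d * e * f + b * c * d * e + b * c * d
    * f + b * c * e * f + b * d * e * f + c * d * e * f) := ⟨_, rfl⟩
  obtain ⟨E5, e5⟩ : ∃ E, E =
    (a * b * c * d * e + a * b * c * d * f + a * b * c * e * f + a * b * d * e * f + a * c * d *
    e * f + b * c * d * e * f) := ⟨_, rfl⟩
  have h3 : E3 = 0 := by
    have : 3 * E3 = 0 := by
      rw [e3]
      linear_combination (E2 - (a ^ 2 + b ^ 2 + c ^ 2 + d ^ 2 + e ^ 2 + f ^ 2)) * p1 + p3 - (a + b + c + d + e + f) * e2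
    linear_combination this - E3 * h.two
  have h5 : E5 = 0 := by
    have : 5 * E5 = E4 * (a + b + c + d + e + f) - E3 * (a ^ 2 + b ^ 2 + c ^ 2 + d ^ 2 + e ^ 2 + f ^ 2) +
        E2 * (a ^ 3 + b ^ 3 + c ^ 3 + d ^ 3 + e ^ 3 + f ^ 3) -
        (a + b + c + d + e + f) * (a ^ 4 + b ^ 4 + c ^ 4 + d ^ 4 + e ^ 4 + f ^ 4) +
        (a ^ 5 + b ^ 5 + c ^ 5 + d ^ 5 + e ^ 5 + f ^ 5) := by
      rw [e2, e3, e4, e5]
      ring
    rw [p1, p3, p5, h3] at this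
    linear_combination this - 2 * E5 * h.two
  have p7 : a ^ 7 + b ^ 7 + c ^ 7 + d ^ 7 + e ^ 7 + f ^ 7 = 0 := by
    have : a ^ 7 + b ^ 7 + c ^ 7 + d ^ 7 + e ^ 7 + f ^ 7 =
        (a + b + c + d + e + f) * (a ^ 6 + b ^ 6 + c ^ 6 + d ^ 6 + e ^ 6 + f ^ 6) -
        E2 * (a ^ 5 + b ^ 5 + c ^ 5 + d ^ 5 + e ^ 5 + f ^ 5) +
        E3 * (a ^ 4 + b ^ 4 + c ^ 4 + d ^ 4 + e ^ 4 + f ^ 4) -
        E4 * (a ^ 3 + b ^ 3 + c ^ 3 + d ^ 3 + e ^ 3 + f ^ 3) +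
        E5 * (a ^ 2 + b ^ 2 + c ^ 2 + d ^ 2 + e ^ 2 + f ^ 2) -
        a * b * c * d * e * f * (a + b + c + d + e + f) := by
      rw [e2, e3, e4, e5]
      ring
    rw [this, p1, p3, p5, h3, h5]
    ring
  have : a ^ 9 + b ^ 9 + c ^ 9 + d ^ 9 + e ^ 9 + f ^ 9 =
      (a + b + c + d + e + f) * (a ^ 8 + b ^ 8 + c ^ 8 + d ^ 8 + e ^ 8 + f ^ 8) -
      E2 * (a ^ 7 + b ^ 7 + c ^ 7 + d ^ 7 + e ^ 7 + f ^ 7) +
      E3 * (a ^ 6 + b ^ 6 + c ^ 6 + d ^ 6 + e ^ 6 + f ^ 6) -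
      E4 * (a ^ 5 + b ^ 5 + c ^ 5 + d ^ 5 + e ^ 5 + f ^ 5) +
      E5 * (a ^ 4 + b ^ 4 + c ^ 4 + d ^ 4 + e ^ 4 + f ^ 4) -
      a * b * c * d * e * f * (a ^ 3 + b ^ 3 + c ^ 3 + d ^ 3 + e ^ 3 + f ^ 3) := by
    rw [e2, e3, e4, e5]
    ring
  rw [this, p1, p3, p5, p7, h3, h5]
  ring

theorem key5 (h : Ch ψ ν) (a x y z v w s A B : Fin 5 → F)
    (E : ∀ i j, i ≠ j → (x i + x j) * (v i + v j) + (y i + y j) * (w i + w j) +
      (z i + z j) * (s i + s j) = Nf ν (A i + A j) (B i + B j))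
    (h0 : ∑ i, a i = 0) (hx : ∑ i, a i * x i = 0) (hy : ∑ i, a i * y i = 0)
    (hz : ∑ i, a i * z i = 0) : ∑ i, a i * A i = 0 ∧ ∑ i, a i * B i = 0 := by
  have : CharP F 2 := CharTwo.of_one_ne_zero_of_two_eq_zero one_ne_zero h.two
  refine h.aniso ?_
  have e01 := E 0 1 (by decide)
  have e02 := E 0 2 (by decide)
  have e03 := E 0 3 (by decide)
  have e04 := E 0 4 (by decide)
  have e12 := E 1 2 (by decide)
  have e13 := E 1 3 (by decide)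
  have e14 := E 1 4 (by decide)
  have e23 := E 2 3 (by decide)
  have e24 := E 2 4 (by decide)
  have e34 := E 3 4 (by decide)
  simp only [← CharTwo.sub_eq_add (x _), ← CharTwo.sub_eq_add (v _), ← CharTwo.sub_eq_add (y _),
    ← CharTwo.sub_eq_add (w _), ← CharTwo.sub_eq_add (z _), ← CharTwo.sub_eq_add (s _),
    ← CharTwo.sub_eq_add (A _), ← CharTwo.sub_eq_add (B _), Nf]
    at e01 e02 e03 e04 e12 e13 e14 e23 e24 e34
  simp only [Fin.sum_univ_five, Nf] at h0 hx hy hz ⊢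
  linear_combination
    (a 0 * a 1) * e01 + (a 0 * a 2) * e02 + (a 0 * a 3) * e03 + (a 0 * a 4) * e04 + (a 1 * a 2) *
    e12 + (a 1 * a 3) * e13 + (a 1 * a 4) * e14 + (a 2 * a 3) * e23 + (a 2 * a 4) * e24 + (a 3 *
    a 4) * e34 -
    (a 0 * (x 0 * v 0 + y 0 * w 0 + z 0 * s 0 - (A 0 ^ 2 + A 0 * B 0 + ν * B 0 ^ 2)) +
     a 1 * (x 1 * v 1 + y 1 * w 1 + z 1 * s 1 - (A 1 ^ 2 + A 1 * B 1 + ν * B 1 ^ 2)) +
     a 2 * (x 2 * v 2 + y 2 * w 2 + z 2 * s 2 - (A 2 ^ 2 + A 2 * B 2 + ν * B 2 ^ 2)) +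
     a 3 * (x 3 * v 3 + y 3 * w 3 + z 3 * s 3 - (A 3 ^ 2 + A 3 * B 3 + ν * B 3 ^ 2)) +
     a 4 * (x 4 * v 4 + y 4 * w 4 + z 4 * s 4 - (A 4 ^ 2 + A 4 * B 4 + ν * B 4 ^ 2))) * h0 +
    (a 0 * v 0 + a 1 * v 1 + a 2 * v 2 + a 3 * v 3 + a 4 * v 4) * hx +
    (a 0 * w 0 + a 1 * w 1 + a 2 * w 2 + a 3 * w 3 + a 4 * w 4) * hy +
    (a 0 * s 0 + a 1 * s 1 + a 2 * s 2 + a 3 * s 3 + a 4 * s 4) * hz

/-- adjacency of the graph without a clique on five vertices -/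
def Adj5 (ψ : F → ℝ) (ν : F) (p p' : (F × F) × F × F × F) : Prop :=
  p.1 ≠ p'.1 ∧ (p.1.1 + p'.1.1) * (p.2.1 + p'.2.1) + (p.1.1 ^ 2 + p'.1.1 ^ 2) * (p.2.2.1 + p'.2.2.1) +
    (p.1.2 + p'.1.2) * (p.2.2.2 + p'.2.2.2) =
      Nf ν (p.1.2 * p.1.1 + p'.1.2 * p'.1.1) (p.1.1 ^ 3 + p'.1.1 ^ 3) ∧
    (p.1.1 = p'.1.1 → ∃ a b, ψ (a ^ 9) * ψ (b ^ 9) ≠ 1 ∧ a + b = p.1.2 + p'.1.2 ∧
      a ^ 3 + b ^ 3 = p.2.1 + p'.2.1 ∧ a ^ 5 + b ^ 5 = p.2.2.1 + p'.2.2.1)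

theorem Ch.neg (h : Ch ψ ν) {a b : F} (e : ψ a * ψ b ≠ 1) : ψ a * ψ b = -1 := by
  rw [← h.add] at e ⊢
  exact (mul_self_eq_one_iff.1 (h.mul_self _)).resolve_left e

open Polynomial in
theorem free5 (h : Ch ψ ν) (f : Fin 5 → (F × F) × F × F × F)
    (H : ∀ i j, i ≠ j → Adj5 ψ ν (f i) (f j)) : False := by
  classical
  have hk := fun a h0 hx hy hz => key5 h a (fun i => (f i).1.1) (fun i => (f i).1.1 ^ 2)
    (fun i => (f i).1.2) (fun i => (f i).2.1) (fun i => (f i).2.2.1) (fun i => (f i).2.2.2)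
    (fun i => (f i).1.2 * (f i).1.1) (fun i => (f i).1.1 ^ 3) (fun i j hij => (H i j hij).2.1)
    h0 hx hy hz
  let r : Fin 4 → Fin 5 → F :=
    ![fun _ => 1, fun i => (f i).1.1, fun i => (f i).1.1 ^ 2, fun i => (f i).1.2]
  obtain ⟨a, ha⟩ := fac r (fun i => (f i).1.2 * (f i).1.1) fun a ha =>
    (hk a (by simpa [r] using ha 0) (ha 1) (ha 2) (ha 3)).1
  obtain ⟨b, hb⟩ := fac r (fun i => (f i).1.1 ^ 3) fun a ha =>
    (hk a (by simpa [r] using ha 0) (ha 1) (ha 2) (ha 3)).2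
  simp only [Fin.sum_univ_four, r, Matrix.cons_val_zero, Matrix.cons_val_one, Matrix.cons_val,
    mul_one] at ha hb
  have hu : ∀ i j, (f i).1.1 = (f j).1.1 → (f i).1.2 = (f j).1.2 → i = j := fun i j e1 e2 => by
    by_contra hh
    exact (H i j hh).1 (Prod.ext e1 e2)
  by_cases hb1 : b 3 = 0
  · have := count_le (r := 3) (fun i => (f i).1.1) (X ^ 3 - C (b 2) * X ^ 2 - C (b 1) * X - C (b 0))
      (Monic.ne_zero (by monicity!)) (by compute_degree)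
      (fun i => by simp; linear_combination hb i + (f i).1.2 * hb1) (a 3)
      (fun i j hi e => hu i j e (mul_right_cancel₀ (sub_ne_zero.2 hi) (by
        linear_combination ha i - ha j +
          (a 1 + a 2 * ((f i).1.1 + (f j).1.1) - (f j).1.2) * e)))
      fun i j l e1 e2 => by
        by_contra hh
        simp only [not_or] at hh
        obtain ⟨a1, b1, s1, t1, u1, w1⟩ := (H i j hh.1).2.2 e1
        obtain ⟨a2, b2, s2, t2, u2, w2⟩ := (H i l hh.2.1).2.2 e2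
        obtain ⟨a3, b3, s3, t3, u3, w3⟩ := (H j l hh.2.2).2.2 (e1.symm.trans e2)
        have p9 := newton h a1 b1 a2 b2 a3 b3
          (by linear_combination t1 + t2 + t3 + ((f i).1.2 + (f j).1.2 + (f l).1.2) * h.two)
          (by linear_combination u1 + u2 + u3 + ((f i).2.1 + (f j).2.1 + (f l).2.1) * h.two)
          (by linear_combination w1 + w2 + w3 + ((f i).2.2.1 + (f j).2.2.1 + (f l).2.2.1) * h.two)
        have z := h.zero
        rw [← p9, add_assoc, h.add, add_assoc, h.add, h.add, h.add, h.add, h.neg s1, h.neg s2,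
          h.neg s3] at z
        norm_num at z
    omega
  · have hi : Function.Injective fun i => (f i).1.1 := fun i j e => hu i j e
      (mul_left_cancel₀ hb1 (by
        have e : (f i).1.1 = (f j).1.1 := e
        have h1 := hb i
        rw [e] at h1
        linear_combination hb j - h1))
    have := roots_le ((X ^ 3 - C (b 2) * X ^ 2 - C (b 1) * X - C (b 0)) * (X - C (a 3)) -
      C (b 3) * (C (a 2) * X ^ 2 + C (a 1) * X + C (a 0))) (Monic.ne_zero (by monicity!)) (r := 4)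
      (by compute_degree) (univ.image fun i => (f i).1.1) fun x hx => by
        obtain ⟨i, -, rfl⟩ := mem_image.1 hx
        simp
        linear_combination ((f i).1.1 - a 3) * hb i + b 3 * ha i
    rw [card_image_of_injective _ hi] at this
    simp at this

end Pool.Agent.P.MP_ac2766_co.Sm
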