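import Pool.Agent.P.MP_ac2766_co.SmC
import Pool.Agent.P.MP_ac2766_co.SmD

open Finset
namespace Pool.Agent.P.MP_ac2766_co.Sm

theorem IsG.matching {U : Type} [AddCommGroup U] [Fintype U] [DecidableEq U] (δ : U)
    (s : U → U → ℝ) (hs : ∀ u u', s u u' = s u' u) (h1 : ∀ u u', s u u' * s u u' ≤ 1) :
    IsG fun u u' => (if u + u' = δ then s u u' else 0) + if u = u' then 1 else 0 := by
  refine ((IsG.sum univ fun z => IsG.one (s := 1 / 2) (fun u => (if z = u then 1 else 0) +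
      if z = δ - u then s z u else 0) (by norm_num)).add
    (IsG.sum univ fun z => IsG.one (s := (1 - s (δ - z) z * s (δ - z) z) / 2)
      (fun u => if z = u then 1 else 0) (by linarith [h1 (δ - z) z]))).of_eq fun u u' => ?_
  simp only [add_mul, mul_add, sum_add_distrib, ite_mul, mul_ite, one_mul, mul_one, zero_mul,
    mul_zero, sum_ite_eq', mem_univ, if_true, sub_right_inj]
  have e1 : u' = δ - u ↔ u + u' = δ := by rw [eq_sub_iff_add_eq']
  have e2 : δ - u' = u ↔ u + u' = δ := by rw [sub_eq_iff_eq_add, eq_comm]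
  simp only [e1, e2, hs u' u]
  by_cases a1 : u = u'
  · subst a1
    by_cases a2 : u + u = δ
    · simp only [a2, if_true, e2.2 a2]
      ring
    · simp only [a2, if_true, if_false]
      ring
  · by_cases a2 : u + u' = δ
    · simp only [a1, a2, Ne.symm a1, if_true, if_false, e2.2 a2]
      ring
    · simp [a1, a2, Ne.symm a1]

variable {F : Type} [Field F] {ψ : F → ℝ} {ν : F} [Fintype F] [DecidableEq F]

theorem Ch.sum3 (h : Ch ψ ν) (A B D : F) : ∑ ξ : F × F × F, ψ (ξ.1 * A + ξ.2.1 * B + ξ.2.2 * D) =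
    if A = 0 ∧ B = 0 ∧ D = 0 then (Fintype.card F : ℝ) ^ 3 else 0 := by
  have e : ∀ (x : F) (y : F × F), ψ (x * A + y.1 * B + y.2 * D) =
      ψ (A * x) * ψ (y.1 * B + y.2 * D) := fun x y => by rw [add_assoc, h.add, mul_comm x]
  rw [Fintype.sum_prod_type]
  simp only [e]
  rw [← sum_mul_sum, h.sum2, h.sum_mul]
  by_cases h1 : A = 0 <;> by_cases h2 : B = 0 ∧ D = 0 <;> simp [h1, h2, pow_succ']

open Polynomial in
theorem Ch.ninth (h : Ch ψ ν) (a b c : F) :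
    (∑ x, ψ (a * x ^ 3 + b * x ^ 5 + c * x + x ^ 9)) ^ 2 ≤ 64 * Fintype.card F := by
  have s4 : ∀ z, ψ (z ^ 4) = ψ z := fun z => by
    rw [show z ^ 4 = (z ^ 2) ^ 2 by ring, h.sq, h.sq]
  have s8 : ∀ z, ψ (z ^ 8) = ψ z := fun z => by
    rw [show z ^ 8 = (z ^ 4) ^ 2 by ring, h.sq, s4]
  refine le_of_le_of_eq ?_ (show ((64 : ℕ) : ℝ) * Fintype.card F = _ by norm_num)
  exact h.quad (fun x => a * x ^ 3 + b * x ^ 5 + c * x + x ^ 9)
    (X ^ 64 + C (b ^ 8) * X ^ 32 + C (a ^ 8) * X ^ 16 + C (a ^ 4) * X ^ 4 + C (b ^ 2) * X ^ 2 + X)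
    (Monic.ne_zero (by monicity!)) (r := 64) (by compute_degree) 3 fun x y => by
      have e1 : ψ ((X ^ 64 + C (b ^ 8) * X ^ 32 + C (a ^ 8) * X ^ 16 + C (a ^ 4) * X ^ 4 +
          C (b ^ 2) * X ^ 2 + X).eval y * x ^ 2 ^ 3) = ψ (x * y ^ 8 + b * x * y ^ 4 +
          a * x * y ^ 2 + a * x ^ 2 * y + b * x ^ 4 * y + x ^ 8 * y) := by
        simp only [h.add]
        rw [← s8 (x * y ^ 8), ← s8 (b * x * y ^ 4), ← s8 (a * x * y ^ 2), ← s4 (a * x ^ 2 * y),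
          ← h.sq (b * x ^ 4 * y)]
        simp only [← h.add]
        congr 1
        simp only [eval_add, eval_mul, eval_pow, eval_C, eval_X]
        ring
      rw [e1, ← h.add, ← h.add]
      congr 1
      linear_combination (a * (x ^ 3 + x ^ 2 * y + x * y ^ 2) + b * (x ^ 5 + 2 * x ^ 4 * y +
        5 * x ^ 3 * y ^ 2 + 5 * x ^ 2 * y ^ 3 + 2 * x * y ^ 4) + c * x + (x ^ 9 + 4 * x ^ 8 * y +
        18 * x ^ 7 * y ^ 2 + 42 * x ^ 6 * y ^ 3 + 63 * x ^ 5 * y ^ 4 + 63 * x ^ 4 * y ^ 5 +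
        42 * x ^ 3 * y ^ 6 + 18 * x ^ 2 * y ^ 7 + 4 * x * y ^ 8)) * h.two

/-- the phase of a generator of the graph inside a ruling -/
def ph (ξ : F × F × F) (t a : F) : F := ξ.1 * a ^ 3 + ξ.2.1 * a ^ 5 + ξ.2.2 * t ^ 2 * a

/-- symbol of the weighted edges inside a ruling -/
noncomputable def g5 (ψ : F → ℝ) (ξ : F × F × F) (t σ : F) : ℝ :=
  (∑ a, (1 - ψ (a ^ 9) * ψ ((a + σ) ^ 9)) * (ψ (ph ξ t a) * ψ (ph ξ t (a + σ)))) /
    Fintype.card F - if ξ = 0 then 1 else 0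

theorem g5_ge (h : Ch ψ ν) (ξ : F × F × F) (t b : F) :
    -(64 : ℝ) ≤ ∑ x, g5 ψ ξ t x * ψ (b * x) := by
  have hq : (0 : ℝ) < Fintype.card F := by exact_mod_cast Fintype.card_pos
  have e : ∑ σ, (∑ a, (1 - ψ (a ^ 9) * ψ ((a + σ) ^ 9)) * (ψ (ph ξ t a) * ψ (ph ξ t (a + σ)))) *
      ψ (b * σ) = (∑ a, ψ (ph ξ t a + b * a)) ^ 2 - (∑ a, ψ (ph ξ t a + b * a + a ^ 9)) ^ 2 := by
    simp only [Finset.sum_mul, pow_two, mul_sum, ← sum_sub_distrib]
    rw [sum_comm]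
    refine sum_congr rfl fun a _ => ?_
    rw [← Equiv.sum_comp (Equiv.addLeft a) fun c => ψ (ph ξ t c + b * c) * ψ (ph ξ t a + b * a) -
      ψ (ph ξ t c + b * c + c ^ 9) * ψ (ph ξ t a + b * a + a ^ 9)]
    refine sum_congr rfl fun σ _ => ?_
    simp only [Equiv.coe_addLeft, mul_add b, h.add]
    linear_combination (-(1 - ψ (a ^ 9) * ψ ((a + σ) ^ 9)) *
      (ψ (ph ξ t a) * ψ (ph ξ t (a + σ))) * ψ (b * σ)) * h.mul_self (b * a)
  have h9 := h.ninth ξ.1 ξ.2.1 (ξ.2.2 * t ^ 2 + b)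
  rw [sum_congr rfl fun x _ => congrArg ψ (show _ = ph ξ t x + b * x + x ^ 9 by
    unfold ph; ring)] at h9
  simp only [g5, sub_mul, sum_sub_distrib, div_mul_eq_mul_div, ← sum_div] at e ⊢
  rw [e, sub_div, ← mul_sum]
  have h1 := (div_le_iff₀ hq).2 h9
  have h2 : (if ξ = 0 then 1 else 0) * ∑ x, ψ (b * x) ≤
      (∑ a, ψ (ph ξ t a + b * a)) ^ 2 / Fintype.card F := by
    by_cases e0 : ξ = 0
    · simp only [e0, ph, if_true, one_mul, Prod.fst_zero, Prod.snd_zero, zero_mul, zero_add,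
        h.sum_mul]
      split_ifs
      · field_simp
        exact le_rfl
      · simp
    · rw [if_neg e0, zero_mul]
      positivity
  linarith

/-- the character of the fibre -/
noncomputable def chi3 (ψ : F → ℝ) (ξ v : F × F × F) : ℝ :=
  ψ (ξ.1 * v.1 + ξ.2.1 * v.2.1 + ξ.2.2 * v.2.2)

omit [Fintype F] [DecidableEq F] in
theorem chi3_mul (h : Ch ψ ν) (ξ v v' : F × F × F) : chi3 ψ ξ v * chi3 ψ ξ v' =
    ψ (ξ.1 * (v.1 + v'.1) + ξ.2.1 * (v.2.1 + v'.2.1) + ξ.2.2 * (v.2.2 + v'.2.2)) := by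
  rw [chi3, chi3, ← h.add]
  congr 1
  ring

theorem chi3_sum (h : Ch ψ ν) (v v' : F × F × F) : ∑ ξ, chi3 ψ ξ v * chi3 ψ ξ v' =
    if v = v' then (Fintype.card F : ℝ) ^ 3 else 0 := by
  simp only [chi3_mul h, h.sum3, h.add_eq, Prod.ext_iff]

/-- signs of the edges between different rulings -/
noncomputable def s5 (ψ : F → ℝ) (ν : F) (ξ : F × F × F) (u u' : F × F) : ℝ :=
  if ξ.1 = 0 ∨ ξ.2.1 = 0 then 0 else
    ψ (ξ.1 ^ 2 / ξ.2.1 * Nf ν (u.2 * u.1 + u'.2 * u'.1) (u.1 ^ 3 + u'.1 ^ 3))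

/-- first part of the kernel -/
noncomputable def B1 (ψ : F → ℝ) (ν : F) (p p' : (F × F) × F × F × F) : ℝ :=
  ∑ ξ : F × F × F, chi3 ψ ξ p.2 * chi3 ψ ξ p'.2 *
    if p.1 + p'.1 = (ξ.2.1 / ξ.1, ξ.2.2 * ξ.2.1 / ξ.1 ^ 2) then s5 ψ ν ξ p.1 p'.1 else 0

/-- second part of the kernel -/
noncomputable def B2 (ψ : F → ℝ) (p p' : (F × F) × F × F × F) : ℝ :=
  ∑ ξ : F × F × F, chi3 ψ ξ p.2 * chi3 ψ ξ p'.2 *
    if p.1.1 = p'.1.1 then g5 ψ ξ p.1.1 (p.1.2 + p'.1.2) else 0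

theorem B1_eq (h : Ch ψ ν) {p p' : (F × F) × F × F × F} (e : p.1.1 = p'.1.1) :
    B1 ψ ν p p' = 0 := by
  refine sum_eq_zero fun ξ _ => mul_eq_zero_of_right _ (ite_eq_right_iff.2 fun e' => if_pos ?_)
  have := congrArg Prod.fst e'
  simp only [Prod.fst_add, e, h.self] at this
  exact (div_eq_zero_iff.1 this.symm).symm

theorem B2_eq (h : Ch ψ ν) {p p' : (F × F) × F × F × F} (e : p.1.1 = p'.1.1) :
    B2 ψ p p' + 1 = (∑ a, (1 - ψ (a ^ 9) * ψ ((a + (p.1.2 + p'.1.2)) ^ 9)) *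
      if p.2.1 + p'.2.1 + (a ^ 3 + (a + (p.1.2 + p'.1.2)) ^ 3) = 0 ∧
        p.2.2.1 + p'.2.2.1 + (a ^ 5 + (a + (p.1.2 + p'.1.2)) ^ 5) = 0 ∧
        p.2.2.2 + p'.2.2.2 + p.1.1 ^ 2 * (a + (a + (p.1.2 + p'.1.2))) = 0
      then (Fintype.card F : ℝ) ^ 3 else 0) / Fintype.card F := by
  have e0 : ∑ ξ : F × F × F, chi3 ψ ξ p.2 * chi3 ψ ξ p'.2 * (if ξ = 0 then 1 else 0) = 1 := by
    simp [chi3, h.zero]
  simp only [B2, if_pos e, g5]
  rw [sum_congr rfl fun ξ _ => mul_sub _ _ _, sum_sub_distrib, e0, sub_add_cancel]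
  simp only [← h.sum3, ← mul_div_assoc, ← sum_div, mul_sum, chi3_mul h]
  rw [sum_comm]
  congr 1
  refine sum_congr rfl fun a _ => sum_congr rfl fun ξ _ => ?_
  rw [mul_left_comm, ← h.add (ph _ _ _), ← h.add (_ + _ + _) (ph _ _ _ + _)]
  congr 2
  unfold ph
  ring

theorem B1_ne (h : Ch ψ ν) {p p' : (F × F) × F × F × F} (e : p.1.1 ≠ p'.1.1)
    (hA : B1 ψ ν p p' + 1 ≠ 0) : Adj5 ψ ν p p' := by
  obtain ⟨⟨t, x⟩, v, w, z⟩ := p
  obtain ⟨⟨t', x'⟩, v', w', z'⟩ := p'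
  have hσ : t + t' ≠ 0 := fun e' => e (h.add_eq.1 e')
  have key : B1 ψ ν ((t, x), v, w, z) ((t', x'), v', w', z') = ∑ α, if α ≠ 0 then
      ψ ((v + v' + (t + t') * (w + w') + (x + x') / (t + t') * (z + z') +
        Nf ν (x * t + x' * t') (t ^ 3 + t' ^ 3) / (t + t')) * α) else 0 := by
    rw [B1, Fintype.sum_prod_type]
    refine sum_congr rfl fun α _ => ?_
    by_cases hα : α = 0
    · simp [s5, hα]
    · rw [sum_eq_single (α * (t + t'), α * (x + x') / (t + t')) (fun ξ _ hξ => ?_) (by simp)]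
      · simp only [s5, chi3_mul h, if_pos hα, Prod.mk_add_mk]
        rw [if_pos (by ext <;> simp only <;> field_simp), if_neg (by simp [hα, hσ]), ← h.add]
        congr 1
        field_simp
      · rw [if_neg fun e' => hξ ?_, mul_zero]
        simp only [Prod.mk_add_mk, Prod.mk.injEq] at e'
        have e1 : ξ.1 = α * (t + t') := by rw [e'.1]; field_simp
        refine Prod.ext e1 ?_
        simp only [e'.2, e1]
        field_simp
  rw [key, punct, mul_zero, h.zero, sub_add_cancel, h.sum_mul] at hA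
  have hE := of_not_not fun hh => hA (if_neg hh)
  refine ⟨fun e' => e (congrArg Prod.fst e'), ?_, fun e' => (e e').elim⟩
  field_simp at hE
  refine h.add_eq.1 ?_
  simp only [Nf] at hE ⊢
  linear_combination hE - t * t' * (w + w') * h.two

theorem good5 (h : Ch ψ ν) : Good 5 ((F × F) × F × F × F)
    ((Fintype.card ((F × F) × F × F × F) : ℝ) ^ 2 / (65 * (Fintype.card F : ℝ) ^ 3)) := by
  have hq : (0 : ℝ) < Fintype.card F := by exact_mod_cast Fintype.card_pos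
  have G1 := IsG.lift (chi3 ψ) (chi3_sum h) _ fun ξ : F × F × F =>
    IsG.matching (ξ.2.1 / ξ.1, ξ.2.2 * ξ.2.1 / ξ.1 ^ 2) (s5 ψ ν ξ)
      (fun u u' => by simp only [s5, add_comm]) fun u u' => by
        unfold s5
        split_ifs
        · norm_num
        · exact (h.mul_self _).le
  have G2 := IsG.lift (chi3 ψ) (chi3_sum h) _ fun ξ : F × F × F =>
    h.circ (U := F × F) Prod.fst Prod.snd (fun u u' e1 e2 => Prod.ext e1 e2) (g5 ψ ξ) (g5_ge h ξ)
  refine Good.of_ker (A := fun p p' => B1 ψ ν p p' + B2 ψ p p') (by positivity)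
    ((G1.add G2).of_eq fun p p' => ?_) (fun p => ?_) fun f hf => ?_
  · simp only [B1, B2]
    split_ifs <;> ring
  · rw [B1_eq h rfl, zero_add, B2_eq h rfl]
    simp [h.self, h.mul_self]
  · by_contra hh
    push Not at hh
    refine free5 h f fun i j hij => ?_
    have h1 := hh i j hij
    by_cases e : (f i).1.1 = (f j).1.1
    · rw [B1_eq h e, zero_add, B2_eq h e] at h1
      obtain ⟨a, -, ha⟩ := exists_ne_zero_of_sum_ne_zero (div_ne_zero_iff.1 h1).1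
      obtain ⟨a1, a2⟩ := mul_ne_zero_iff.1 ha
      obtain ⟨a2, a3, a4⟩ := of_not_not fun hh => a2 (if_neg hh)
      rw [← add_assoc a, h.self, zero_add] at a4
      refine ⟨fun e' => a1 ?_, ?_, fun _ => ⟨a, _, fun e' => a1 (by rw [e', sub_self]),
        by rw [← add_assoc, h.self, zero_add], (h.add_eq.1 a2).symm, (h.add_eq.1 a3).symm⟩⟩
      · rw [e', h.self, add_zero, h.mul_self, sub_self]
      · rw [← e, h.self, h.self, h.self, h.add_eq.1 a4, Nf]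
        ring
    · refine B1_ne h e ?_
      simpa [B2, e] using h1

end Pool.Agent.P.MP_ac2766_co.Sm
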