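import Pool.Agent.P.MP_ac2766_co.SmE

namespace Pool.Agent.P.MP_ac2766_co.Sm

theorem exists_field (j n : ℕ) (hj : 1 ≤ j) (hn : 2 ^ j ≤ n) :
    ∃ e : ℕ, e ≠ 0 ∧ (2 ^ e) ^ j ≤ n ∧ n ≤ (2 * 2 ^ e) ^ j := by
  have h1 : 1 < 2 ^ j := Nat.one_lt_two_pow (by omega)
  refine ⟨Nat.log (2 ^ j) n, (Nat.log_pos h1 hn).ne', ?_, ?_⟩
  · rw [← pow_mul, mul_comm, pow_mul]
    exact Nat.pow_log_le_self _ (by omega)
  · rw [← pow_succ', ← pow_mul, mul_comm, pow_mul]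
    exact (Nat.lt_pow_succ_log_self h1 n).le

theorem sq_rpow_le {n j : ℕ} {y a : ℝ} (hy : 0 ≤ y) (ha : 0 ≤ a) (h : (n : ℝ) ≤ y ^ j) :
    ((n : ℝ) ^ a) ^ 2 ≤ y ^ (j * a * 2) := by
  rw [Real.rpow_mul hy, Real.rpow_mul hy, Real.rpow_natCast, Real.rpow_two]
  exact pow_le_pow_left₀ (by positivity) (Real.rpow_le_rpow (by positivity) h ha) 2

theorem four (n : ℕ) (hn : 16 ≤ n) :
    ∃ (d : ℕ) (v : Fin n → EuclideanSpace ℝ (Fin d)), (∀ i, ‖v i‖ = 1) ∧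
      (∀ I : Finset (Fin n), I.card = 4 → ∃ i ∈ I, ∃ j ∈ I, i ≠ j ∧ inner ℝ (v i) (v j) = 0) ∧
      1 / 100 * (n : ℝ) ^ (11 / 16 : ℝ) ≤ ‖∑ i, v i‖ := by
  classical
  obtain ⟨e, he, h1, h2⟩ := exists_field 4 n (by norm_num) hn
  obtain ⟨ψ, ν, h⟩ := exists_ch e
  let _ := Fintype.ofFinite (GaloisField 2 e)
  have hc : Fintype.card (GaloisField 2 e) = 2 ^ e := by
    rw [← Nat.card_eq_fintype_card, GaloisField.card 2 e he]
  refine (good4 h).out (by norm_num) ?_ ?_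
  · simp only [Fintype.card_prod, hc]
    exact le_of_eq_of_le (by ring) h1
  · simp only [Fintype.card_prod, hc]
    generalize 2 ^ e = q at h1 h2
    rcases Nat.eq_zero_or_pos q with rfl | hq
    · omega
    have hq : (0 : ℝ) < q := by exact_mod_cast hq
    have h3 := sq_rpow_le (n := n) (j := 4) (y := 2 * q) (a := 11 / 16) (by positivity)
      (by norm_num) (by exact_mod_cast h2)
    have e1 : (2 * (q : ℝ)) ^ (((4 : ℕ) : ℝ) * (11 / 16) * 2) = (2 * q) ^ 5 * √(2 * q) := by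
      rw [Real.sqrt_eq_rpow, ← Real.rpow_natCast, ← Real.rpow_add (by positivity)]
      norm_num
    have e2 : √(2 * (q : ℝ)) ≤ 2 * √q := Real.sqrt_le_iff.2 ⟨by positivity, by
      rw [mul_pow, Real.sq_sqrt hq.le]; linarith⟩
    have e3 : √(q : ℝ) * √q = q := Real.mul_self_sqrt hq.le
    have e4 : 0 < √(q : ℝ) := by positivity
    rw [e1] at h3
    have h4 : ((n : ℝ) ^ (11 / 16 : ℝ)) ^ 2 ≤ (2 * q) ^ 5 * (2 * √q) :=
      h3.trans (mul_le_mul_of_nonneg_left e2 (by positivity))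
    have h5 : (0 : ℝ) < q ^ 5 * √q := by positivity
    have e5 : ((q * q * (q * q) : ℕ) : ℝ) ^ 2 / (6 * √q * q ^ 2) = q ^ 5 * √q / 6 := by
      push_cast
      field_simp
      linear_combination (-1 : ℝ) * e3
    rw [e5, mul_pow]
    linarith

theorem five (n : ℕ) (hn : 32 ≤ n) :
    ∃ (d : ℕ) (v : Fin n → EuclideanSpace ℝ (Fin d)), (∀ i, ‖v i‖ = 1) ∧
      (∀ I : Finset (Fin n), I.card = 5 → ∃ i ∈ I, ∃ j ∈ I, i ≠ j ∧ inner ℝ (v i) (v j) = 0) ∧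
      1 / 100 * (n : ℝ) ^ (7 / 10 : ℝ) ≤ ‖∑ i, v i‖ := by
  classical
  obtain ⟨e, he, h1, h2⟩ := exists_field 5 n (by norm_num) hn
  obtain ⟨ψ, ν, h⟩ := exists_ch e
  let _ := Fintype.ofFinite (GaloisField 2 e)
  have hc : Fintype.card (GaloisField 2 e) = 2 ^ e := by
    rw [← Nat.card_eq_fintype_card, GaloisField.card 2 e he]
  refine (good5 h).out (by norm_num) ?_ ?_
  · simp only [Fintype.card_prod, hc]
    exact le_of_eq_of_le (by ring) h1
  · simp only [Fintype.card_prod, hc]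
    generalize 2 ^ e = q at h1 h2
    rcases Nat.eq_zero_or_pos q with rfl | hq
    · omega
    have hq : (0 : ℝ) < q := by exact_mod_cast hq
    have h3 := sq_rpow_le (n := n) (j := 5) (y := 2 * q) (a := 7 / 10) (by positivity)
      (by norm_num) (by exact_mod_cast h2)
    have e1 : (2 * (q : ℝ)) ^ (((5 : ℕ) : ℝ) * (7 / 10) * 2) = (2 * q) ^ 7 := by
      rw [← Real.rpow_natCast]
      norm_num
    rw [e1] at h3
    have h5 : (0 : ℝ) < q ^ 7 := by positivity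
    have e5 : ((q * q * (q * (q * q)) : ℕ) : ℝ) ^ 2 / (65 * q ^ 3) = q ^ 7 / 65 := by
      push_cast
      field_simp
    rw [e5, mul_pow]
    linarith

end Pool.Agent.P.MP_ac2766_co.Sm
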