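import Pool.Agent.P.MP_ac2766_co.UpLink

/-! The recursion on the clique number. -/

set_option autoImplicit false

namespace Pool.Agent.P.MP_ac2766_co.Up

open Finset

section vec

variable {V : Type*} [NormedAddCommGroup V] [InnerProductSpace ℝ V] {ι : Type*} {v : ι → V}
  {W : Finset ι} {c : V} {δ : ℝ} {k : ℕ}

/-- Any `k` members of `W` contain an orthogonal pair. -/
def Free (v : ι → V) (k : ℕ) (W : Finset ι) : Prop :=
  ∀ I ⊆ W, I.card = k → ∃ i ∈ I, ∃ j ∈ I, i ≠ j ∧ inner ℝ (v i) (v j) = 0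

/-- The Gram kernel. -/
noncomputable def gr (v : ι → V) (x y : ι) : ℝ := inner ℝ (v x) (v y)

lemma Free.mono (h : Free v k W) {S : Finset ι} (hS : S ⊆ W) : Free v k S :=
  fun I hI => h I (hI.trans hS)

lemma Free.link [DecidableEq ι] (h : Free v (k + 1) W) {x : ι} (hx : x ∈ W) :
    Free v k (Lk (gr v) W x) := fun I hI hc => by
  have h1 : ∀ z ∈ I, z ∈ W ∧ z ≠ x ∧ gr v x z ≠ 0 := fun z hz => mem_filter.1 (hI hz)
  have hxI : x ∉ I := fun hz => (h1 x hz).2.1 rfl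
  obtain ⟨i, hi, j, hj, hij, h0⟩ := h (insert x I)
    (insert_subset hx fun z hz => (h1 z hz).1) (by rw [card_insert_of_notMem hxI, hc])
  rcases mem_insert.1 hi with rfl | hi'
  · exact absurd h0 (h1 j ((mem_insert.1 hj).resolve_left hij.symm)).2.2
  · rcases mem_insert.1 hj with rfl | hj'
    · exact absurd ((real_inner_comm _ _).trans h0) (h1 i hi').2.2
    · exact ⟨i, hi', j, hj', hij, h0⟩

lemma abs_inner_le {x y : V} (hx : ‖x‖ = 1) (hy : ‖y‖ = 1) : |inner ℝ x y| ≤ 1 := by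
  simpa [hx, hy] using abs_real_inner_le_norm x y

lemma gr_self (hv : ∀ i, ‖v i‖ = 1) (x : ι) : gr v x x = 1 := by
  rw [gr, real_inner_self_eq_norm_sq, hv, one_pow]

lemma gr_psd [Fintype ι] (v : ι → V) : Psd (gr v) :=
  ⟨fun x y => real_inner_comm _ _, fun f => by
    refine (real_inner_self_nonneg (x := ∑ x, f x • v x)).trans_eq ?_
    rw [sum_inner]
    refine sum_congr rfl fun x _ => ?_
    rw [inner_sum]
    refine sum_congr rfl fun y _ => ?_
    rw [real_inner_smul_left, real_inner_smul_right, gr]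
    ring⟩

lemma handle_sq (hc : ‖c‖ = 1) (hδ : 0 < δ) (h : ∀ i ∈ W, δ ≤ inner ℝ c (v i)) :
    (W.card * δ) ^ 2 ≤ ∑ x ∈ W, ∑ y ∈ W, gr v x y := by
  have h1 : W.card * δ ≤ ‖∑ x ∈ W, v x‖ := by
    have := real_inner_le_norm c (∑ x ∈ W, v x)
    rw [hc, one_mul, inner_sum] at this
    rw [← nsmul_eq_mul]
    exact (card_nsmul_le_sum _ _ _ h).trans this
  refine (pow_le_pow_left₀ (by positivity) h1 2).trans_eq ?_
  rw [← real_inner_self_eq_norm_sq, sum_inner]
  exact sum_congr rfl fun x _ => inner_sum _ _ _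

lemma ak_core [DecidableEq ι] (hv : ∀ i, ‖v i‖ = 1) (hc : ‖c‖ = 1) (hδ : 0 < δ)
    (h : ∀ i ∈ W, δ ≤ inner ℝ c (v i)) {B : ℝ} (hB : 0 ≤ B)
    (hL : ∀ x ∈ W, ∑ z ∈ Lk (gr v) W x, |gr v x z| ≤ B) : W.card * δ ^ 2 ≤ 1 + B := by
  have h1 : (W.card * δ) ^ 2 ≤ W.card * (1 + B) := by
    refine (handle_sq hc hδ h).trans ?_
    rw [← nsmul_eq_mul]
    refine sum_le_card_nsmul _ _ _ fun x hx => (sum_le_sum fun y _ => le_abs_self _).trans ?_
    refine (split (g := gr v) _ W x (fun _ => abs_nonneg _) fun z hz => by simp [hz]).trans ?_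
    rw [gr_self hv, abs_one]
    linarith [hL x hx]
  rcases Nat.eq_zero_or_pos W.card with h0 | h0
  · rw [h0]
    simp only [Nat.cast_zero, zero_mul]
    linarith
  · exact le_of_mul_le_mul_left (by linarith) (show (0 : ℝ) < W.card by exact_mod_cast h0)

end vec

/-- The counting bound with exponent `E` for systems with a handle. -/
def PP (k : ℕ) (E : ℝ) : Prop :=
  ∃ C : ℝ, 0 < C ∧ ∀ (V : Type) [NormedAddCommGroup V] [InnerProductSpace ℝ V] (ι : Type)
    (v : ι → V) (W : Finset ι) (c : V) (δ : ℝ), (∀ i, ‖v i‖ = 1) → ‖c‖ = 1 → 0 < δ → δ ≤ 1 →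
    Free v k W → (∀ i ∈ W, δ ≤ inner ℝ c (v i)) → (W.card : ℝ) ≤ C * δ ^ (-E)

variable {k : ℕ} {E : ℝ}

lemma PP.mono (h : PP k E) {E' : ℝ} (hE : E ≤ E') : PP k E' := by
  obtain ⟨C, hC, h⟩ := h
  refine ⟨C, hC, fun V _ _ ι v W c δ hv hc h0 h1 hF hh => (h V ι v W c δ hv hc h0 h1 hF hh).trans ?_⟩
  exact mul_le_mul_of_nonneg_left (Real.rpow_le_rpow_of_exponent_ge h0 h1 (by linarith)) hC.le

lemma PP.mom (h : PP k E) {M : ℕ} (hM : (M : ℝ) < E) :
    ∃ C : ℝ, 0 < C ∧ ∀ (V : Type) [NormedAddCommGroup V] [InnerProductSpace ℝ V] (ι : Type)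
      (v : ι → V) (W : Finset ι) (x : V) (η : ℝ), (∀ i, ‖v i‖ = 1) → ‖x‖ = 1 → 0 < η →
      Free v k W → ∀ m ≤ M,
      ∑ z ∈ W, |inner ℝ x (v z)| ^ m ≤ η ^ m * W.card + η ^ m * (C * η ^ (-E)) := by
  obtain ⟨C, hC, h⟩ := h
  have hρ : (2 : ℝ) ^ M * 2 ^ (-E) < 1 := by
    rw [← Real.rpow_natCast, ← Real.rpow_add two_pos]
    exact Real.rpow_lt_one_of_one_lt_of_neg one_lt_two (by linarith)
  obtain ⟨C', hC', e'⟩ : ∃ C' : ℝ, 0 < C' ∧ 2 ^ M * (2 * C) + 2 ^ M * 2 ^ (-E) * C' = C' := by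
    have h1 := sub_pos.2 hρ
    refine ⟨2 ^ M * (2 * C) / (1 - 2 ^ M * 2 ^ (-E)), by positivity, ?_⟩
    field_simp
    ring
  refine ⟨C', hC', fun V _ _ ι v W x η hv hx hη hF m hm => ?_⟩
  set t : ι → ℝ := fun z => inner ℝ x (v z) with ht
  have z0 : ∀ η : ℝ, 0 < η → 1 ≤ η →
      ∑ z ∈ W with η < |t z|, |t z| ^ M ≤ η ^ M * (C' * η ^ (-E)) := fun η h0 h1 => by
    rw [filter_false_of_mem fun z _ => not_lt.2 ((abs_inner_le hx (hv z)).trans h1), sum_empty]
    positivity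
  have key : ∀ (j : ℕ) (η : ℝ), 0 < η → 1 ≤ 2 ^ j * η →
      ∑ z ∈ W with η < |t z|, |t z| ^ M ≤ η ^ M * (C' * η ^ (-E)) := by
    intro j
    induction j with
    | zero => exact fun η h0 h1 => z0 η h0 (by simpa using h1)
    | succ j ih =>
      intro η h0 h1
      rcases le_total 1 η with h2 | h2
      · exact z0 η h0 h2
      have i1 := ih (2 * η) (by positivity) (by rw [← mul_assoc, ← pow_succ]; exact h1)
      have c1 := h V ι v (W.filter fun z => η ≤ t z) x η hv hx h0 h2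
        (hF.mono (filter_subset _ _)) fun z hz => (mem_filter.1 hz).2
      have c2 := h V ι v (W.filter fun z => η ≤ -t z) (-x) η hv (by rw [norm_neg, hx]) h0 h2
        (hF.mono (filter_subset _ _)) fun z hz => by
          rw [inner_neg_left]
          exact (mem_filter.1 hz).2
      have s1 : ∑ z ∈ W with η < |t z|, |t z| ^ M ≤
          (2 * η) ^ M * ((W.filter fun z => η ≤ t z).card + (W.filter fun z => η ≤ -t z).card) +
            ∑ z ∈ W with 2 * η < |t z|, |t z| ^ M := by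
        rw [natCast_card_filter, natCast_card_filter, sum_filter, sum_filter, ← sum_add_distrib,
          mul_sum, ← sum_add_distrib]
        refine sum_le_sum fun z _ => ?_
        have p1 : 0 ≤ (2 * η) ^ M := by positivity
        have p2 : 0 ≤ |t z| ^ M := by positivity
        have p3 : (0 : ℝ) ≤ if η ≤ t z then 1 else 0 := by positivity
        have p4 : (0 : ℝ) ≤ if η ≤ -t z then 1 else 0 := by positivity
        by_cases a1 : 2 * η < |t z|
        · rw [if_pos a1, if_pos (by linarith)]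
          nlinarith
        · rw [if_neg a1]
          by_cases a2 : η < |t z|
          · have a3 : |t z| ^ M ≤ (2 * η) ^ M := pow_le_pow_left₀ (abs_nonneg _) (not_lt.1 a1) M
            rw [if_pos a2]
            rcases lt_abs.1 a2 with a4 | a4
            · rw [if_pos a4.le]
              nlinarith
            · rw [if_pos a4.le]
              nlinarith
          · rw [if_neg a2]
            positivity
      rw [Real.mul_rpow two_pos.le h0.le] at i1
      refine s1.trans ((add_le_add (mul_le_mul_of_nonneg_left (add_le_add c1 c2)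
        (by positivity)) i1).trans_eq ?_)
      nth_rewrite 2 [← e']
      ring
  obtain ⟨j, hj⟩ := pow_unbounded_of_one_lt (1 / η) (one_lt_two (α := ℝ))
  have k1 := key j η hη ((div_le_iff₀ hη).1 hj.le)
  obtain ⟨r, rfl⟩ := Nat.exists_eq_add_of_le hm
  have k2 : ∑ z ∈ W with η < |t z|, |t z| ^ m ≤ η ^ m * (C' * η ^ (-E)) := by
    refine le_of_mul_le_mul_right ?_ (pow_pos hη r)
    rw [sum_mul]
    refine (sum_le_sum fun z hz => ?_).trans (k1.trans_eq (by ring))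
    rw [pow_add]
    exact mul_le_mul_of_nonneg_left (pow_le_pow_left₀ hη.le (mem_filter.1 hz).2.le r)
      (by positivity)
  refine le_trans ?_ (add_le_add le_rfl k2)
  rw [sum_filter, mul_comm, ← nsmul_eq_mul, ← sum_const, ← sum_add_distrib]
  refine sum_le_sum fun z _ => ?_
  split_ifs with a
  · exact le_add_of_nonneg_left (by positivity)
  · rw [add_zero]
    exact pow_le_pow_left₀ (abs_nonneg _) (not_lt.1 a) m

lemma PP_two : PP 2 2 := by
  classical
  refine ⟨1, one_pos, fun V _ _ ι v W c δ hv hc h0 _ hF hh => ?_⟩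
  have := ak_core hv hc h0 hh le_rfl fun x hx => by
    rw [eq_empty_of_forall_notMem (s := Lk (gr v) W x) fun z hz => ?_, sum_empty]
    obtain ⟨i, hi, j, hj, hij, -⟩ := hF.link hx {z} (singleton_subset_iff.2 hz) (card_singleton z)
    exact hij ((mem_singleton.1 hi).trans (mem_singleton.1 hj).symm)
  rw [Real.rpow_neg h0.le, Real.rpow_two, ← div_eq_mul_inv, le_div_iff₀ (by positivity)]
  linarith

lemma PP.step (h : PP k E) (hE : 1 < E) : PP (k + 1) (E + 1) := by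
  classical
  obtain ⟨C', hC', hm⟩ := h.mom (M := 1) (by simpa using hE)
  obtain ⟨C, hC, h⟩ := h
  refine ⟨1 + C + C', by positivity, fun V _ _ ι v W c δ hv hc h0 h1 hF hh => ?_⟩
  have p : 0 < δ ^ (-E) := Real.rpow_pos_of_pos h0 _
  have a1 := ak_core hv hc h0 hh (B := δ * (C * δ ^ (-E)) + δ * (C' * δ ^ (-E))) (by positivity)
    fun x hx => by
      have b1 := hm V ι v _ (v x) δ hv (hv x) h0 (hF.link hx) 1 le_rfl
      have b2 := h V ι v _ c δ hv hc h0 h1 (hF.link hx) fun i hi => hh i (Lk_sub x hi)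
      simp only [pow_one] at b1
      exact b1.trans (add_le_add (mul_le_mul_of_nonneg_left b2 h0.le) le_rfl)
  have a2 : 1 ≤ δ * δ ^ (-E) := by
    rw [mul_comm, ← Real.rpow_add_one h0.ne']
    exact Real.one_le_rpow_of_pos_of_le_one_of_nonpos h0 h1 (by linarith)
  have a3 : δ ^ (-(E + 1)) * δ = δ ^ (-E) := by
    rw [← Real.rpow_add_one h0.ne']
    congr 1
    ring
  refine le_of_mul_le_mul_right (a1.trans ?_) (pow_pos h0 2)
  calc _ ≤ (1 + C + C') * (δ * δ ^ (-E)) := by linarith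
    _ = _ := by rw [← a3]; ring

lemma PP_self (j : ℕ) : PP (j + 2) (j + 2) := by
  induction j with
  | zero => simpa using PP_two
  | succ j ih =>
    refine (ih.step (by linarith [Nat.cast_nonneg (α := ℝ) j])).mono (le_of_eq ?_)
    push_cast
    ring

lemma PP.bd (h : PP k E) {M : ℕ} (hM : (M : ℝ) ≤ E) {γ : ℝ} (hγ : γ < 1) :
    ∃ C : ℝ, 0 < C ∧ ∀ (V : Type) [NormedAddCommGroup V] [InnerProductSpace ℝ V] (ι : Type)
      (v : ι → V) (W : Finset ι) (c : V) (δ : ℝ), (∀ i, ‖v i‖ = 1) → ‖c‖ = 1 → 0 < δ → δ ≤ 1 →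
      Free v k W → (∀ i ∈ W, δ ≤ inner ℝ c (v i)) → ∀ a, C * δ ^ (-E) ≤ a →
      Bd (gr v) (δ ^ γ) M W a := by
  obtain ⟨C', hC', hm⟩ := (h.mono (E' := E + (1 - γ)) (by linarith)).mom (M := M) (by linarith)
  obtain ⟨C, hC, h⟩ := h
  refine ⟨C + C', by positivity, fun V _ _ ι v W c δ hv hc h0 h1 hF hh a ha u m hmM => ?_⟩
  have p : 0 < δ ^ (-E) := Real.rpow_pos_of_pos h0 _
  have pq : 0 < δ ^ γ := Real.rpow_pos_of_pos h0 _
  have b2 := h V ι v W c δ hv hc h0 h1 hF hh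
  refine le_trans ?_ (mul_le_mul_of_nonneg_left ha (by positivity))
  rcases m with - | m
  · simp only [pow_zero, sum_const, nsmul_eq_mul, mul_one, one_mul]
    nlinarith
  · have hq : δ ≤ δ ^ γ := by
      simpa using Real.rpow_le_rpow_of_exponent_ge h0 h1 hγ.le
    have e1 : δ * δ ^ (-(E + (1 - γ))) = δ ^ γ * δ ^ (-E) := by
      rw [mul_comm, ← Real.rpow_add_one h0.ne', ← Real.rpow_add h0]
      congr 1
      ring
    refine (hm V ι v W (v u) δ hv (hv u) h0 hF (m + 1) hmM).trans ?_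
    calc _ = δ ^ (m + 1) * W.card + δ ^ m * C' * (δ * δ ^ (-(E + (1 - γ)))) := by ring
      _ ≤ (δ ^ γ) ^ (m + 1) * (C * δ ^ (-E)) + (δ ^ γ) ^ m * C' * (δ ^ γ * δ ^ (-E)) := by
          rw [e1]
          gcongr
      _ = _ := by ring

lemma PP.gain {γ : ℝ} (hγ : γ = 5999 / 6000) (h1 : PP (k + 2) E) (h2 : PP (k + 1) (E - γ))
    (h3 : PP k (E - 2 * γ)) (hE : 8 ≤ E) : PP (k + 3) (E + γ) := by
  classical
  obtain ⟨C0, p0, h0⟩ := h1.step (by linarith)
  obtain ⟨C1, p1, h1⟩ := h1.bd (M := 8) (γ := γ) (by simpa using hE) (by linarith)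
  obtain ⟨C2, p2, h2⟩ := h2.bd (M := 4) (γ := γ) (by push_cast; linarith) (by linarith)
  obtain ⟨C3, p3, h3⟩ := h3.bd (M := 4) (γ := γ) (by push_cast; linarith) (by linarith)
  obtain ⟨K, pK, hK⟩ : ∃ K : ℝ, 0 < K ∧ K = 64 ^ 185 := ⟨_, by positivity, rfl⟩
  refine ⟨C0 * K ^ 8 + 2 * C1 + C2 + C3 + 2, by positivity,
    fun V _ _ ι v W c δ hv hc hδ hδ1 hF hh => ?_⟩
  by_contra hcon
  rw [not_le] at hcon
  have a0 := h0 V ι v W c δ hv hc hδ hδ1 hF hh
  obtain ⟨n, hn⟩ : ∃ n : ℝ, n = W.card := ⟨_, rfl⟩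
  obtain ⟨y, hy⟩ : ∃ y : ℝ, y = δ ^ (-(E + γ)) := ⟨_, rfl⟩
  obtain ⟨q, hq⟩ : ∃ q : ℝ, q = δ ^ γ := ⟨_, rfl⟩
  obtain ⟨t, ht⟩ : ∃ t : ℝ, t = δ ^ (1 / 48000 : ℝ) := ⟨_, rfl⟩
  rw [← hn, ← hy] at hcon
  have py : 0 < y := hy ▸ Real.rpow_pos_of_pos hδ _
  have pq : 0 < q := hq ▸ Real.rpow_pos_of_pos hδ _
  have pt : 0 < t := ht ▸ Real.rpow_pos_of_pos hδ _
  have t1 : t ≤ 1 := ht ▸ Real.rpow_le_one hδ.le hδ1 (by norm_num)
  have tp : ∀ m : ℕ, t ^ m = δ ^ (m / 48000 : ℝ) := fun m => by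
    rw [ht, ← Real.rpow_mul_natCast hδ.le]
    congr 1
    ring
  have yq : ∀ m : ℕ, y * q ^ m = δ ^ (-(E + γ) + γ * m) := fun m => by
    rw [hy, hq, ← Real.rpow_mul_natCast hδ.le, ← Real.rpow_add hδ]
  have eq : q = (t ^ 5999) ^ 8 := by
    rw [← pow_mul, tp, hq, hγ]
    norm_num
  have eδ : δ = t ^ 48000 := by
    rw [tp]
    norm_num
  have y1 : δ ^ (-E) = y * q := by
    rw [← pow_one q, yq]
    congr 1
    push_cast
    ring
  have y2 : δ ^ (-(E - γ)) = y * q ^ 2 := by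
    rw [yq]
    congr 1
    push_cast
    ring
  have y3 : δ ^ (-(E - 2 * γ)) = y * q ^ 3 := by
    rw [yq]
    congr 1
    push_cast
    ring
  have y9 : 1 ≤ y * q ^ 9 := by
    rw [yq]
    exact Real.one_le_rpow_of_pos_of_le_one_of_nonpos hδ hδ1 (by push_cast; linarith)
  have y0 : δ ^ (-(E + 1)) * t ^ 8 = y := by
    rw [tp, hy, ← Real.rpow_add hδ, hγ]
    congr 1
    push_cast
    ring
  have m0 : 0 < C0 * K ^ 8 * y := by positivity
  have m1 := mul_pos p1 py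
  have m2 := mul_pos p2 py
  have m3 := mul_pos p3 py
  set u : W → V := fun x => v x with hu
  have hu1 : ∀ i, ‖u i‖ = 1 := fun i => hv i
  have hFu : Free u (k + 3) univ := fun I _ hI => by
    obtain ⟨i, hi, j, hj, hij, h0⟩ := hF (I.map (Function.Embedding.subtype _))
      (fun z hz => by
        obtain ⟨w, -, rfl⟩ := mem_map.1 hz
        exact w.2) (by rw [card_map, hI])
    obtain ⟨i, hi', rfl⟩ := mem_map.1 hi
    obtain ⟨j, hj', rfl⟩ := mem_map.1 hj
    exact ⟨i, hi', j, hj', fun h => hij (by rw [h]), h0⟩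
  have hhu : ∀ S : Finset W, ∀ i ∈ S, δ ≤ inner ℝ c (u i) := fun _ i _ => hh i i.2
  have hcard : n = Fintype.card W := by rw [hn, Fintype.card_coe]
  have hD : (64 : ℝ) ≤ 64 / t ^ 64 := by
    rw [le_div_iff₀ (by positivity)]
    linarith [pow_le_one₀ (n := 64) pt.le t1]
  have main := core2 (gr_psd u) (gr_self hu1) (fun x y => abs_inner_le (hu1 x) (hu1 y)) hcard
    (pow_pos pt 5999) (pow_le_one₀ pt.le t1) eq hD hδ (by
      rw [eq, eδ]
      have : 64 / t ^ 64 * (t ^ 48000) ^ 8 = 64 * ((t ^ 5999) ^ 8) ^ 8 := by field_simp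
      rw [this]
      exact le_mul_of_one_le_left (by positivity) (by norm_num))
    (by nlinarith [mul_le_mul_of_nonneg_right (show 2 * y ≤ n by nlinarith) (pow_pos pq 9).le])
    (by simpa [sm, hcard] using handle_sq hc hδ (hhu univ))
    (fun x => hq ▸ h1 V W u _ c δ hu1 hc hδ hδ1 (hFu.link (mem_univ x)) (hhu _) _ (by
      rw [y1, ← hq]
      nlinarith [mul_le_mul_of_nonneg_right (show 2 * C1 * y ≤ n by nlinarith) pq.le]))
    (fun x z hz => hq ▸ h2 V W u _ c δ hu1 hc hδ hδ1 ((hFu.link (mem_univ x)).link hz) (hhu _) _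
      (by
        rw [y2, ← hq, ← mul_assoc]
        exact mul_le_mul_of_nonneg_right (by nlinarith) (by positivity)))
    (fun x z hz w hw => hq ▸ h3 V W u _ c δ hu1 hc hδ hδ1
      (((hFu.link (mem_univ x)).link hz).link hw) (hhu _) _ (by
        rw [y3, ← hq, ← mul_assoc]
        exact mul_le_mul_of_nonneg_right (by nlinarith) (by positivity)))
  have f1 : 1 ≤ K * t := by
    refine main.trans ?_
    have : (64 / t ^ 64) ^ 185 * (t ^ 5999) ^ 2 = K * t * t ^ 157 := by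
      rw [hK, div_pow]
      field_simp
    rw [this]
    exact mul_le_of_le_one_right (by positivity) (pow_le_one₀ pt.le t1)
  have f2 : n ≤ C0 * K ^ 8 * y := by
    rw [hn, ← y0]
    refine a0.trans ((le_mul_of_one_le_right (by positivity) (one_le_pow₀ (n := 8) f1)).trans_eq ?_)
    ring
  nlinarith

lemma PP_all {γ : ℝ} (hγ : γ = 5999 / 6000) (j : ℕ) : PP (j + 6) (8 + j * γ - 2 * γ) ∧
    PP (j + 6 + 1) (8 + j * γ - γ) ∧ PP (j + 6 + 2) (8 + j * γ) := by
  induction j with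
  | zero =>
    exact ⟨(PP_self 4).mono (by push_cast; linarith), (PP_self 5).mono (by push_cast; linarith),
      (PP_self 6).mono (by push_cast; linarith)⟩
  | succ j ih =>
    have := PP.gain hγ ih.2.2 ih.2.1 ih.1 (by rw [hγ]; linarith [Nat.cast_nonneg (α := ℝ) j])
    exact ⟨ih.2.1.mono (by push_cast; linarith), ih.2.2.mono (by push_cast; linarith),
      this.mono (by push_cast; linarith)⟩

theorem PP.norm_le (h : PP k E) (hE : 1 < E) : ∃ C : ℝ, ∀ (n d : ℕ)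
    (v : Fin n → EuclideanSpace ℝ (Fin d)), (∀ i, ‖v i‖ = 1) → Free v k univ →
    ‖∑ i, v i‖ ≤ C * (n : ℝ) ^ (1 - 1 / E) := by
  obtain ⟨C, hC, hm⟩ := h.mom (M := 1) (by simpa using hE)
  refine ⟨1 + C, fun n d v hv hF => ?_⟩
  by_cases h0 : ∑ i, v i = 0
  · rw [h0, norm_zero]
    positivity
  have hn : (0 : ℝ) < n := by
    rcases n with - | n
    · exact absurd (by simp) h0
    · positivity
  have hs : 0 < ‖∑ i, v i‖ := norm_pos_iff.2 h0
  have h1 := hm _ _ v univ (‖∑ i, v i‖⁻¹ • ∑ i, v i) ((n : ℝ) ^ (-(1 / E))) hv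
    (by rw [norm_smul, norm_inv, norm_norm, inv_mul_cancel₀ hs.ne'])
    (Real.rpow_pos_of_pos hn _) hF 1 le_rfl
  have e1 : ((n : ℝ) ^ (-(1 / E))) ^ (-E) = n := by
    rw [← Real.rpow_mul hn.le, neg_mul_neg, one_div_mul_cancel (by linarith), Real.rpow_one]
  have e2 : (n : ℝ) ^ (1 - 1 / E) = n ^ (-(1 / E)) * n := by
    rw [← Real.rpow_add_one hn.ne']
    congr 1
    ring
  have e3 : ‖∑ i, v i‖ = ∑ z, inner ℝ (‖∑ i, v i‖⁻¹ • ∑ i, v i) (v z) := by
    rw [← inner_sum, real_inner_smul_left, real_inner_self_eq_norm_sq]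
    field_simp
  simp only [pow_one, e1, card_univ, Fintype.card_fin] at h1
  rw [e2]
  refine (e3.trans_le ((sum_le_sum fun z _ => le_abs_self _).trans h1)).trans_eq ?_
  ring

end Pool.Agent.P.MP_ac2766_co.Up
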