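import Pool.Agent.P.MP_ac2766_co.UpDual

/-! The numerical assembly: a kernel with all moments nearly extremal does not exist. -/

set_option autoImplicit false

namespace Pool.Agent.P.MP_ac2766_co.Up

open Finset

variable {X : Type*} [Fintype X] [DecidableEq X]
  {g : X → X → ℝ} {lam sg : X → ℝ} {e ch : X → X → ℝ}

lemma level (hg : Psd g) (h : Spec g lam e) (hq : Spec (fun x y => g x y ^ 2) sg ch)
    (hd : ∀ x, g x x = 1) {I I' J : Finset X} {l0 l1 σ p H d S4 S6 T R : ℝ} (hl0 : 0 < l0)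
    (hl1 : 0 < l1) (hσ : 0 < σ) (hp : 0 < p) (hH : 0 < H) (hd0 : 0 < d) (hS4 : 0 < S4)
    (hS6 : 0 < S6) (hT0 : 0 < T) (hR0 : 0 < R) (hI : ∀ i ∈ I, l0 ≤ lam i)
    (hI' : ∀ a ∈ I', lam a ≤ l1) (hJ : ∀ j ∈ J, σ ≤ sg j) (hJ' : ∀ j ∈ J, sg j ≤ σ / p)
    (hdeg : ∀ w, ((univ.filter fun u => g u w ≠ 0).card : ℝ) ≤ d) (h4 : sm g 4 ≤ S4)
    (h6 : sm g 6 ≤ S6) (hT : TT g ≤ T) (hR : NN g * sm g 8 ≤ R ^ 2)
    (hF : 2 * H ≤ FF g (cut lam e I') (cut sg ch J) (cut lam e I)) :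
    l0 ^ 2 * H ^ 6 * p ^ 2 ≤ d * S4 ^ 2 * S6 * l1 ^ 2 * T ^ 2 * R := by
  obtain ⟨ro, ka, hr⟩ := (hg.pow 3).spec
  set τ := H ^ 2 * σ / (l1 ^ 2 * S6 * S4) with hτ
  have hτ0 : 0 < τ := by positivity
  have eτ : τ * (l1 ^ 2 * S6 * S4) = H ^ 2 * σ := by rw [hτ]; field_simp
  set L := univ.filter fun b => τ ≤ ro b with hL
  set m := ∑ j ∈ J, sg j with hm
  have hm0 : 0 ≤ m := sum_nonneg fun j _ => hq.nn j
  have hm1 : σ * m ≤ S4 := by
    refine le_trans ?_ h4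
    have e1 : sm g 4 = ∑ j, sg j ^ 2 := by
      rw [hq.sum_sq]
      simp only [sm, ← pow_mul]
    rw [e1, hm, mul_sum]
    refine (sum_le_sum fun j hj => ?_).trans
      (sum_le_sum_of_subset_of_nonneg (subset_univ J) fun _ _ _ => sq_nonneg _)
    rw [sq]
    exact mul_le_mul_of_nonneg_right (hJ j hj) (hq.nn j)
  have hlo := lo_part h hq hr hd hl1.le hI' J I (L := Lᶜ) hτ0.le fun b hb => by
    simp only [hL, mem_compl, mem_filter, mem_univ, true_and, not_le] at hb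
    exact hb.le
  have hhi := hi_part h hq hr (h.psd_cut I') (h.psd_cut I'ᶜ) (h.cut_add I') I L
    (div_pos hσ hp).le hJ'
  have hII := II_lower (ka := ka) h hq J L hl0.le hI hdeg hd0.le
  have hIU := II_upper hg hq hr (L := L) hτ0.le fun b hb => by
    simpa only [hL, mem_filter, mem_univ, true_and] using hb
  rw [FF_split hr J I L] at hF
  have hC : 0 ≤ Cap lam sg e ch ka J I L :=
    sum_nonneg fun j _ => mul_nonneg (hq.nn j) (sum_nonneg fun i _ =>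
      mul_nonneg (h.nn i) (by positivity))
  have hI0 : 0 ≤ II g sg ch (cut (fun _ => 1) ka L) :=
    sum_nonneg fun w _ => sum_nonneg fun u _ => mul_nonneg (sq_nonneg _)
      (sum_nonneg fun j _ => mul_nonneg (hq.nn j) (sq_nonneg _))
  rw [← hm] at hlo hII
  generalize Cap lam sg e ch ka J I L = C at *
  generalize II g sg ch (cut (fun _ => 1) ka L) = Y at *
  generalize (∑ j ∈ J, sg j * ∑ i ∈ I, lam i * ∑ b ∈ L, _) = hi at *
  generalize (∑ j ∈ J, sg j * ∑ i ∈ I, lam i * ∑ b ∈ Lᶜ, _) = lo at *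
  have a1 : lo ^ 2 ≤ H ^ 2 := by
    refine hlo.trans (le_of_mul_le_mul_right ?_ hσ)
    rw [← eτ]
    calc l1 ^ 2 * sm g 6 * (τ * m) * σ = τ * (l1 ^ 2 * sm g 6 * (σ * m)) := by ring
      _ ≤ _ := by gcongr
  have a2 : H ≤ hi := by linarith [(abs_le_of_sq_le_sq' a1 hH.le).2]
  have a3 : p * H ^ 2 ≤ σ * T * C := by
    have b1 : H ^ 2 ≤ σ / p * T * C :=
      (pow_le_pow_left₀ hH.le a2 2).trans (hhi.trans (by gcongr))
    calc p * H ^ 2 ≤ p * (σ / p * T * C) := by gcongr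
      _ = _ := by field_simp
  have a4 : Y * τ ≤ R := (abs_le_of_sq_le_sq' (hIU.trans hR) hR0.le).2
  calc l0 ^ 2 * H ^ 6 * p ^ 2 = l0 ^ 2 * (p * H ^ 2) ^ 2 * H ^ 2 := by ring
    _ ≤ l0 ^ 2 * (σ * T * C) ^ 2 * H ^ 2 := by gcongr
    _ = σ * T ^ 2 * (l0 * C) ^ 2 * (H ^ 2 * σ) := by ring
    _ ≤ σ * T ^ 2 * (d * Y * m) * (H ^ 2 * σ) := by gcongr
    _ = d * (σ * m) * S4 * S6 * l1 ^ 2 * T ^ 2 * (Y * τ) := by rw [← eτ]; ring
    _ ≤ d * S4 * S4 * S6 * l1 ^ 2 * T ^ 2 * R := by gcongr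
    _ = _ := by ring

lemma FF_add (h : Spec g lam e) (P Q : X → X → ℝ) (I : Finset X) :
    FF g P Q (cut lam e I) + FF g P Q (cut lam e Iᶜ) = FF g P Q g := by
  simp only [FF, ← sum_add_distrib, ← mul_add, h.cut_add]

lemma pick (hq : Spec (fun x y => g x y ^ 2) sg ch) (hd : ∀ x, g x x = 1)
    (P : X → X → ℝ) (I : Finset X) {p H : ℝ} (hp : 0 < p) (hp1 : p ≤ 1) {N : ℕ} (hN : 0 < N)
    (hF : N * H + FF g P (cut sg ch (univ.filter fun j => sg j ≤ Fintype.card X * p ^ N))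
      (cut lam e I) ≤ FF g P (fun x y => g x y ^ 2) (cut lam e I)) :
    ∃ (r : ℕ) (J : Finset X), (∀ j ∈ J, Fintype.card X * p ^ (r + 1) ≤ sg j) ∧
      (∀ j ∈ J, sg j ≤ Fintype.card X * p ^ (r + 1) / p) ∧
      H ≤ FF g P (cut sg ch J) (cut lam e I) := by
  set T : ℕ → Finset X := fun r => univ.filter fun j => sg j ≤ Fintype.card X * p ^ r with hT
  have h0 : T 0 = univ := by
    refine filter_true_of_mem fun j _ => ?_
    refine (single_le_sum (fun j _ => hq.nn j) (mem_univ j)).trans ?_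
    simp [hq.trace, hd]
  have h1 : (fun x y => g x y ^ 2) = cut sg ch (T 0) := by
    funext x y
    rw [h0, hq.eq x y, cut]
  have h2 : ∀ r, T (r + 1) ⊆ T r := fun r j hj => by
    simp only [hT, mem_filter, mem_univ, true_and] at hj ⊢
    refine hj.trans (mul_le_mul_of_nonneg_left ?_ (Nat.cast_nonneg _))
    exact pow_le_pow_of_le_one hp.le hp1 (Nat.le_succ r)
  have h3 : ∑ r ∈ range N, FF g P (cut sg ch (T r \ T (r + 1))) (cut lam e I) =
      FF g P (cut sg ch (T 0)) (cut lam e I) - FF g P (cut sg ch (T N)) (cut lam e I) := by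
    rw [← sum_range_sub' fun r => FF g P (cut sg ch (T r)) (cut lam e I)]
    refine sum_congr rfl fun r _ => ?_
    simp only [FF_cut]
    exact sum_sdiff_eq_sub (h2 r)
  have h4 : ∑ _r ∈ range N, H ≤
      ∑ r ∈ range N, FF g P (cut sg ch (T r \ T (r + 1))) (cut lam e I) := by
    rw [h3, ← h1, sum_const, card_range, nsmul_eq_mul]
    linarith
  obtain ⟨r, -, hr⟩ := exists_le_of_sum_le (nonempty_range_iff.2 hN.ne') h4
  refine ⟨r, T r \ T (r + 1), fun j hj => ?_, fun j hj => ?_, hr⟩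
  · simp only [hT, mem_sdiff, mem_filter, mem_univ, true_and, not_le] at hj
    exact hj.2.le
  · simp only [hT, mem_sdiff, mem_filter, mem_univ, true_and, not_le] at hj
    refine hj.1.trans (le_of_eq ?_)
    rw [pow_succ, ← mul_assoc, mul_div_cancel_right₀ _ hp.ne']

theorem core (hg : Psd g) (hd : ∀ x, g x x = 1) {n p q D : ℝ} (hn : n = Fintype.card X)
    (hn0 : 0 < n) (hp : 0 < p) (hp1 : p ≤ 1) (hpq : q = p ^ 8) (hD : 64 ≤ D)
    (hdeg : ∀ w, ((univ.filter fun u => g u w ≠ 0).card : ℝ) ≤ n * q)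
    (h4l : n ^ 2 * q ^ 5 ≤ D * sm g 4) (h4 : sm g 4 ≤ n ^ 2 * q ^ 5)
    (h6 : sm g 6 ≤ n ^ 2 * q ^ 7) (h7 : ∑ x, ∑ y, |g x y| ^ 7 ≤ n ^ 2 * q ^ 8)
    (h8 : sm g 8 ≤ n ^ 2 * q ^ 9) (h3 : tr3 g g g ≤ D * n ^ 3 * q ^ 6)
    (hT : TT g ≤ D * n ^ 4 * q ^ 15) (hN : NN g ≤ D * n ^ 4 * q ^ 16) :
    1 ≤ D ^ 185 * p ^ 2 := by
  by_contra hcon
  rw [not_le] at hcon
  have hq0 : 0 < q := by rw [hpq]; positivity
  have hD0 : 0 < D := by linarith
  have hD1 : 1 ≤ D := by linarith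
  obtain ⟨lam, e, h⟩ := hg.spec
  obtain ⟨sg, ch, hq⟩ := (hg.pow 2).spec
  have p6 : 0 ≤ sm g 6 := sum_nonneg fun x _ => sum_nonneg fun y _ => by positivity
  have p8 : 0 ≤ sm g 8 := sum_nonneg fun x _ => sum_nonneg fun y _ => by positivity
  have hT0 : 0 ≤ TT g := sum_nonneg fun y _ => tr3_nonneg (hg.conj (g y)).1 (hg.conj (g y))
  have s4 : (n ^ 2 * q ^ 5) ^ 2 ≤ (D * sm g 4) ^ 2 := by gcongr
  obtain ⟨l1, hl1⟩ : ∃ l1, l1 = D ^ 4 * n * q ^ 3 := ⟨_, rfl⟩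
  obtain ⟨l0, hl0⟩ : ∃ l0, l0 = n * q ^ 3 / D ^ 72 := ⟨_, rfl⟩
  obtain ⟨H, hH⟩ : ∃ H, H = n ^ 3 * q ^ 10 / D ^ 5 := ⟨_, rfl⟩
  have l1p : 0 < l1 := by rw [hl1]; positivity
  have l0p : 0 < l0 := by rw [hl0]; positivity
  have Hp : 0 < H := by rw [hH]; positivity
  have eH : H * D ^ 5 = n ^ 3 * q ^ 10 := by rw [hH]; field_simp
  have hM := main_lower h hd l1p (by
    calc 4 * (tr3 g g g * sm g 6) ≤ D * (D * n ^ 3 * q ^ 6 * (n ^ 2 * q ^ 7)) := by
          refine mul_le_mul (by linarith) (mul_le_mul h3 h6 p6 (by positivity))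
            (mul_nonneg (tr3_nonneg hg.1 hg) p6) hD0.le
      _ = D ^ 2 * n * q ^ 3 * (n ^ 2 * q ^ 5) ^ 2 := by ring
      _ ≤ D ^ 2 * n * q ^ 3 * (D * sm g 4) ^ 2 := by gcongr
      _ = _ := by rw [hl1]; ring)
  rw [← hn] at hM
  set I' := univ.filter fun a => lam a ≤ l1 with hI'
  have hI1 : ∀ a ∈ I', lam a ≤ l1 := fun a ha => (mem_filter.1 ha).2
  set I := univ.filter fun a => l0 ≤ lam a with hI
  have hI0 : ∀ a ∈ I, l0 ≤ lam a := fun a ha => (mem_filter.1 ha).2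
  have hI0' : ∀ a ∈ Iᶜ, lam a ≤ l0 := fun a ha => by
    simp only [hI, mem_compl, mem_filter, mem_univ, true_and, not_le] at ha
    exact ha.le
  have hlow := low_lam h l1p.le hI1 (cut lam e Iᶜ)
  have hρ := rho_le hg h hd l0p.le hI0' (A := q * D ^ 16) (t := D ^ 8) (by positivity)
    (by positivity)
  have hadd := FF_add h (cut lam e I') (fun x y => g x y ^ 2) I
  have hsg := low_sg h hq hd (h.psd_cut I') (h.psd_cut I'ᶜ) (h.cut_add I')
    (J := univ.filter fun j => sg j ≤ Fintype.card X * p ^ 48) I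
    (s := Fintype.card X * p ^ 48) (by positivity) (fun j hj => (mem_filter.1 hj).2) hT0
  generalize FF g (cut lam e I') (fun x y => g x y ^ 2) g = M at hM hlow hadd
  have b1 : D ^ 2 * H ≤ M := by
    refine le_of_mul_le_mul_left ?_ (show 0 < D ^ 3 * n by positivity)
    have : 0 ≤ n * M := by nlinarith [sq_nonneg (sm g 4)]
    calc D ^ 3 * n * (D ^ 2 * H) = n * (H * D ^ 5) := by ring
      _ = (n ^ 2 * q ^ 5) ^ 2 := by rw [eH]; ring
      _ ≤ D ^ 2 * sm g 4 ^ 2 := by rw [← mul_pow]; exact s4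
      _ ≤ D ^ 2 * (4 * (n * M)) := by gcongr
      _ ≤ D ^ 2 * (D * (n * M)) := by gcongr; linarith
      _ = _ := by ring
  have Mp : 0 < M := lt_of_lt_of_le (by positivity) b1
  have b2 : ∑ x, ∑ y, (g x y ^ 2 * cut lam e Iᶜ x y) ^ 2 ≤ 2 * (n ^ 2 * q ^ 7) / D ^ 8 := by
    refine hρ.trans ?_
    rw [← hn]
    calc _ ≤ (q * D ^ 16) ^ 4 * (l0 * n) + D ^ 8 / (2 * (q * D ^ 16)) * (n ^ 2 * q ^ 8) +
          1 / (2 * D ^ 8) * (n ^ 2 * q ^ 7) := by gcongr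
      _ = _ := by rw [hl0]; field_simp; ring
  have b3 : FF g (cut lam e I') (fun x y => g x y ^ 2) (cut lam e Iᶜ) ≤ M / 4 := by
    refine (abs_le_of_sq_le_sq' (hlow.trans ?_) (by positivity)).2
    calc _ ≤ M * (l1 * (2 * (n ^ 2 * q ^ 7) / D ^ 8)) := by gcongr
      _ = M * (2 * (D * H)) := by rw [hl1, hH]; field_simp
      _ ≤ M * (M / 16) := by
          gcongr
          nlinarith [mul_pos hD0 Hp]
      _ = _ := by ring
  have b4 : FF g (cut lam e I') (cut sg ch (univ.filter fun j => sg j ≤ Fintype.card X * p ^ 48))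
      (cut lam e I) ≤ H := by
    refine (abs_le_of_sq_le_sq' (hsg.trans ?_) Hp.le).2
    rw [← hn]
    have c1 : D ^ 11 * q ≤ 1 := by
      refine le_trans ?_ hcon.le
      rw [hpq]
      exact mul_le_mul (pow_le_pow_right₀ hD1 (by norm_num))
        (pow_le_pow_of_le_one hp.le hp1 (by norm_num)) (by positivity) (by positivity)
    calc n * p ^ 48 * TT g * n ≤ n * p ^ 48 * (D * n ^ 4 * q ^ 15) * n := by gcongr
      _ = H ^ 2 * (D ^ 11 * q) := by rw [hH, hpq]; field_simp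
      _ ≤ H ^ 2 := mul_le_of_le_one_right (sq_nonneg _) c1
  obtain ⟨r, J, hJ, hJ', hF⟩ := pick hq hd (cut lam e I') I hp hp1 (N := 48) (H := 2 * H)
    (by norm_num) (by
      have : 4096 * H ≤ D ^ 2 * H := by gcongr; nlinarith
      push_cast
      linarith)
  have hlev := level hg h hq hd l0p l1p (by rw [← hn]; positivity) hp Hp
    (show 0 < n * q by positivity) (show 0 < n ^ 2 * q ^ 5 by positivity)
    (show 0 < n ^ 2 * q ^ 7 by positivity) (show 0 < D * n ^ 4 * q ^ 15 by positivity)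
    (show 0 < D * n ^ 3 * q ^ 12 * p ^ 4 by positivity) hI0 hI1 hJ hJ' hdeg h4 h6 hT (by
      calc NN g * sm g 8 ≤ D * n ^ 4 * q ^ 16 * (n ^ 2 * q ^ 9) :=
            mul_le_mul hN h8 p8 (by positivity)
        _ = 1 * (D * n ^ 6 * q ^ 24 * q) := by ring
        _ ≤ D * (D * n ^ 6 * q ^ 24 * q) := by gcongr
        _ = _ := by
          nth_rewrite 2 [hpq]
          ring) hF
  refine hcon.not_ge (le_of_mul_le_mul_left ?_
    (show 0 < n ^ 20 * q ^ 66 * p ^ 2 / D ^ 174 by positivity))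
  refine le_trans (le_of_eq ?_) (hlev.trans (le_of_eq ?_))
  · rw [hl0, hH]
    field_simp
  · rw [hl1]
    field_simp

end Pool.Agent.P.MP_ac2766_co.Up
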