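import Pool.Agent.P.MP_ac2766_co.UpSwap

/-! Two-sided bounds for the pairing with the popular part. -/

set_option autoImplicit false

namespace Pool.Agent.P.MP_ac2766_co.Up

open Finset

variable {X : Type*} [Fintype X] [DecidableEq X]
  {g : X → X → ℝ} {lam sg ro : X → ℝ} {e ch ka : X → X → ℝ}

/-- The pairing. -/
def II (g : X → X → ℝ) (sg : X → ℝ) (ch K : X → X → ℝ) : ℝ :=
  ∑ w, ∑ u, g u w ^ 2 * ∑ j, sg j * (∑ y, K w y * g u y * ch j y) ^ 2

lemma II_lower (h : Spec g lam e) (hq : Spec (fun x y => g x y ^ 2) sg ch) (J L : Finset X)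
    {I : Finset X} {l d : ℝ} (hl : 0 ≤ l) (hI : ∀ i ∈ I, l ≤ lam i)
    (hd : ∀ w, ((univ.filter fun u => g u w ≠ 0).card : ℝ) ≤ d) (hd0 : 0 ≤ d) :
    (l * Cap lam sg e ch ka J I L) ^ 2 ≤
      d * II g sg ch (cut (fun _ => 1) ka L) * ∑ j ∈ J, sg j := by
  set K := cut (fun _ => (1 : ℝ)) ka L with hK
  set s : X → X → X → ℝ := fun j w u => ∑ y, K w y * g u y * ch j y with hs
  set t : X → X → ℝ := fun j w => ∑ u, g u w * s j w u with ht
  have h1 : ∀ j w, t j w ^ 2 ≤ d * ∑ u, g u w ^ 2 * s j w u ^ 2 := fun j w => by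
    have e1 : t j w = ∑ u ∈ univ.filter fun u => g u w ≠ 0, g u w * s j w u := by
      refine (sum_filter_of_ne fun u _ hu => ?_).symm
      exact left_ne_zero_of_mul hu
    rw [e1]
    refine sq_sum_le_card_mul_sum_sq.trans (mul_le_mul (hd w) ?_ (by positivity) hd0)
    simp only [mul_pow]
    exact sum_le_sum_of_subset_of_nonneg (subset_univ _) fun _ _ _ => by positivity
  have e2 : ∀ w y, ∑ u, g u w * g u y = ∑ a, lam a ^ 2 * (e a w * e a y) := fun w y => by
    have := h.pars (g w) (g y)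
    simp only [h.eig] at this
    simp only [h.symm _ w, h.symm _ y, ← this]
    exact sum_congr rfl fun a _ => by ring
  have e3 : ∀ j, ∑ w, t j w * ch j w =
      ∑ a, lam a ^ 2 * ∑ b ∈ L, (∑ y, ch j y * e a y * ka b y) ^ 2 := fun j => by
    have e4 : ∀ a, ∑ b ∈ L, (∑ y, ch j y * e a y * ka b y) ^ 2 =
        ∑ w, ∑ y, ch j w * e a w * K w y * (ch j y * e a y) := fun a => by
      have := feat_mul L (fun _ => 1) ka (fun y => ch j y * e a y) fun y => ch j y * e a y
      simp only [one_mul, ← sq] at this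
      simp only [this, hK, cut, one_mul]
    have e5 : ∀ w, t j w = ∑ y, K w y * ch j y * ∑ u, g u w * g u y := fun w => by
      simp only [ht, hs, mul_sum]
      rw [sum_comm]
      exact sum_congr rfl fun y _ => sum_congr rfl fun u _ => by ring
    simp only [e4, e5, e2, mul_sum, sum_mul]
    symm
    rw [rot3]
    exact sum_congr rfl fun w _ => sum_congr rfl fun y _ => sum_congr rfl fun a _ => by ring
  have h6 : l * Cap lam sg e ch ka J I L ≤ ∑ j ∈ J, sg j * ∑ w, t j w * ch j w := by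
    rw [Cap, mul_sum]
    refine sum_le_sum fun j _ => ?_
    rw [mul_left_comm, e3, mul_sum]
    refine mul_le_mul_of_nonneg_left ((sum_le_sum fun i hi => ?_).trans
      (sum_le_sum_of_subset_of_nonneg (subset_univ I) fun _ _ _ => by positivity)) (hq.nn j)
    rw [← mul_assoc, sq (lam i)]
    exact mul_le_mul_of_nonneg_right (mul_le_mul_of_nonneg_right (hI i hi) (h.nn i))
      (by positivity)
  have h7 : 0 ≤ l * Cap lam sg e ch ka J I L := mul_nonneg hl
    (sum_nonneg fun j _ => mul_nonneg (hq.nn j) (sum_nonneg fun i _ =>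
      mul_nonneg (h.nn i) (by positivity)))
  refine (pow_le_pow_left₀ h7 h6 2).trans ((cs_step J sg _ (fun j => ∑ w, t j w ^ 2) (fun _ => 1)
    (fun j _ => hq.nn j) (fun _ _ => by positivity) (fun _ _ => zero_le_one) fun j _ => ?_).trans
    ?_)
  · rw [← hq.norm j]
    exact sum_mul_sq_le_sq_mul_sq _ _ _
  · simp only [mul_one]
    refine mul_le_mul_of_nonneg_right ?_ (sum_nonneg fun j _ => hq.nn j)
    refine (sum_le_sum_of_subset_of_nonneg (subset_univ J) fun j _ _ =>
      mul_nonneg (hq.nn j) (by positivity)).trans ?_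
    refine (sum_le_sum fun j _ => mul_le_mul_of_nonneg_left (sum_le_sum fun w _ => h1 j w)
      (hq.nn j)).trans (le_of_eq ?_)
    simp only [II, mul_sum]
    rw [rot3]
    exact sum_congr rfl fun w _ => sum_congr rfl fun u _ => sum_congr rfl fun j _ => by ring

lemma II_upper (hg : Psd g) (hq : Spec (fun x y => g x y ^ 2) sg ch)
    (hr : Spec (fun x y => g x y ^ 3) ro ka) {L : Finset X} {τ : ℝ} (hτ : 0 ≤ τ)
    (hL : ∀ b ∈ L, τ ≤ ro b) :
    (II g sg ch (cut (fun _ => 1) ka L) * τ) ^ 2 ≤ NN g * sm g 8 := by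
  set K := cut (fun _ => (1 : ℝ)) ka L with hK
  have hKp : Psd K := psd_feat L _ (fun _ _ => zero_le_one) ka
  have hKK : ∀ w w', ∑ y, K w y * K w' y = K w w' := fun w w' => by
    have e1 : ∀ w b, ∑ y, K w y * ka b y = if b ∈ L then ka b w else 0 := fun w b => by
      simp only [hK, cut, one_mul, sum_mul]
      rw [sum_comm]
      simp only [mul_assoc, ← mul_sum, hr.on]
      simp
    rw [← hr.pars]
    simp only [e1]
    simp only [hK, cut, one_mul]
    rw [← sum_add_sum_compl L, sum_eq_zero (s := Lᶜ) fun b hb => by simp [mem_compl.1 hb],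
      add_zero]
    exact sum_congr rfl fun b hb => by simp [hb]
  have hD : Psd fun x y => g x y ^ 3 - τ * K x y := by
    have := psd_feat univ (fun b => ro b - if b ∈ L then τ else 0)
      (fun b _ => by
        split_ifs with hb
        · exact sub_nonneg.2 (hL b hb)
        · simpa using hr.nn b) ka
    convert this using 3 with x y
    simp only [sub_mul, sum_sub_distrib, ← hr.eq x y, hK, cut, one_mul, mul_sum, ite_mul, zero_mul,
      sum_ite_mem, univ_inter]
  have hW : τ ^ 2 * ∑ w, ∑ w', g w w' ^ 2 * K w w' ^ 2 ≤ sm g 8 := by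
    have a1 := ((hg.pow 5).mul hD).sum_nonneg
    have a2 := mul_nonneg hτ (((hg.pow 2).mul hKp).mul hD).sum_nonneg
    refine le_trans (le_add_of_nonneg_right (add_nonneg a1 a2)) (le_of_eq ?_)
    simp only [sm, mul_sum, ← sum_add_distrib]
    exact sum_congr rfl fun x _ => sum_congr rfl fun y _ => by ring
  set A : X → X → X → ℝ := fun y z j => g y z ^ 2 * ∑ u, g u y * g u z * ch j u with hA
  set B : X → X → X → ℝ := fun y z j => ∑ w, K w y * K w z * ch j w with hB
  have e2 : II g sg ch K = ∑ y, ∑ z, ∑ j, sg j * (A y z j * B y z j) := by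
    have e3 : ∀ y z, ∑ j, sg j * (A y z j * B y z j) =
        ∑ w, ∑ u, g y z ^ 2 * (g u y * g u z * g u w ^ 2 * (K w y * K w z)) := fun y z => by
      rw [sum_comm]
      simp only [← mul_sum, ← hq.mul]
      rw [mul_sum]
      exact sum_congr rfl fun j _ => by ring
    have e4 : ∀ w u, ∑ j, sg j * (∑ y, K w y * g u y * ch j y) ^ 2 =
        ∑ y, ∑ z, K w y * g u y * g y z ^ 2 * (K w z * g u z) := fun w u => hq.sq _
    simp only [II, e3, e4, mul_sum]
    rw [swap22]
    exact sum_congr rfl fun y _ => sum_congr rfl fun z _ => sum_congr rfl fun w _ =>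
      sum_congr rfl fun u _ => by ring
  have e5 : ∑ y, ∑ z, ∑ j, sg j * A y z j ^ 2 = NN g := by
    refine sum_congr rfl fun y _ => sum_congr rfl fun z _ => ?_
    rw [← hq.sq, mul_sum]
    exact sum_congr rfl fun j _ => by ring
  have e6 : ∑ y, ∑ z, ∑ j, sg j * B y z j ^ 2 = ∑ w, ∑ w', g w w' ^ 2 * K w w' ^ 2 := by
    simp only [hB, hq.sq]
    rw [swap22]
    refine sum_congr rfl fun w _ => sum_congr rfl fun w' _ => ?_
    rw [← hKK w w', sq (∑ y, _), sum_mul_sum, mul_sum]
    refine sum_congr rfl fun y _ => ?_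
    rw [mul_sum]
    exact sum_congr rfl fun z _ => by ring
  have p : ∀ (C : X → X → X → ℝ) y z, 0 ≤ ∑ j, sg j * C y z j ^ 2 := fun C y z =>
    sum_nonneg fun j _ => mul_nonneg (hq.nn j) (sq_nonneg _)
  have c := cs_step' univ _ _ _ (fun y _ => sum_nonneg fun z _ => p A y z)
    (fun y _ => sum_nonneg fun z _ => p B y z) fun y _ =>
      cs_step' univ _ _ _ (fun z _ => p A y z) (fun z _ => p B y z) fun z _ =>
        cs_w univ sg (A y z) (B y z) fun j _ => hq.nn j
  rw [← e2, e5, e6] at c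
  have hN : 0 ≤ NN g := e5 ▸ sum_nonneg fun y _ => sum_nonneg fun z _ => p A y z
  rw [mul_pow]
  nlinarith [mul_le_mul_of_nonneg_right c (sq_nonneg τ), mul_le_mul_of_nonneg_left hW hN]

end Pool.Agent.P.MP_ac2766_co.Up
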