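import Mathlib

/-! Positive semidefinite kernels on a finite set, spectral data, Cauchy-Schwarz helpers. -/

set_option autoImplicit false

namespace Pool.Agent.P.MP_ac2766_co.Up

open Finset

variable {X : Type*} [Fintype X] [DecidableEq X]

/-- Positive semidefinite kernels. -/
def Psd (A : X → X → ℝ) : Prop :=
  (∀ x y, A x y = A y x) ∧ ∀ f : X → ℝ, 0 ≤ ∑ x, ∑ y, f x * A x y * f y

/-- Spectral data of a kernel. -/
structure Spec (A : X → X → ℝ) (lam : X → ℝ) (e : X → X → ℝ) : Prop where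
  nn : ∀ a, 0 ≤ lam a
  on : ∀ a b, ∑ x, e a x * e b x = if a = b then 1 else 0
  co : ∀ x y, ∑ a, e a x * e a y = if x = y then 1 else 0
  eq : ∀ x y, A x y = ∑ a, lam a * (e a x * e a y)

/-- A spectral cut. -/
def cut (lam : X → ℝ) (e : X → X → ℝ) (I : Finset X) (x y : X) : ℝ :=
  ∑ a ∈ I, lam a * (e a x * e a y)

lemma rot3 {α β γ : Type*} (s : Finset α) (t : Finset β) (u : Finset γ) (f : α → β → γ → ℝ) :
    ∑ a ∈ s, ∑ b ∈ t, ∑ c ∈ u, f a b c = ∑ b ∈ t, ∑ c ∈ u, ∑ a ∈ s, f a b c := by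
  rw [sum_comm]
  exact sum_congr rfl fun _ _ => sum_comm

lemma swap22 {α β γ δ : Type*} (s : Finset α) (t : Finset β) (u : Finset γ) (v : Finset δ)
    (f : α → β → γ → δ → ℝ) :
    ∑ a ∈ s, ∑ b ∈ t, ∑ c ∈ u, ∑ d ∈ v, f a b c d =
      ∑ c ∈ u, ∑ d ∈ v, ∑ a ∈ s, ∑ b ∈ t, f a b c d := by
  rw [← rot3 u s t]
  exact sum_congr rfl fun _ _ => (rot3 v s t _).symm

omit [DecidableEq X] in
lemma feat_mul {ι : Type*} (s : Finset ι) (w : ι → ℝ) (φ : ι → X → ℝ) (f h : X → ℝ) :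
    ∑ i ∈ s, w i * ((∑ x, f x * φ i x) * ∑ y, h y * φ i y) =
      ∑ x, ∑ y, f x * (∑ i ∈ s, w i * (φ i x * φ i y)) * h y := by
  simp only [sum_mul_sum]
  simp only [mul_sum, sum_mul]
  rw [rot3]
  exact sum_congr rfl fun x _ => sum_congr rfl fun y _ => sum_congr rfl fun i _ => by ring

omit [DecidableEq X] in
lemma psd_feat {ι : Type*} (s : Finset ι) (w : ι → ℝ) (hw : ∀ i ∈ s, 0 ≤ w i) (φ : ι → X → ℝ) :
    Psd fun x y => ∑ i ∈ s, w i * (φ i x * φ i y) :=
  ⟨fun x y => sum_congr rfl fun i _ => by ring, fun f => by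
    rw [← feat_mul]
    exact sum_nonneg fun i hi => mul_nonneg (hw i hi) (mul_self_nonneg _)⟩

lemma Psd.spec {A : X → X → ℝ} (h : Psd A) : ∃ lam e, Spec A lam e := by
  have hA : (Matrix.of A).IsHermitian := by
    ext x y
    simp [h.1 x y]
  set U : Matrix X X ℝ := (hA.eigenvectorUnitary : Matrix X X ℝ) with hU
  have h1 : U * star U = 1 := Matrix.mem_unitaryGroup_iff.1 hA.eigenvectorUnitary.2
  have h2 : star U * U = 1 := Matrix.mem_unitaryGroup_iff'.1 hA.eigenvectorUnitary.2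
  have hon : ∀ a b, ∑ x, U x a * U x b = if a = b then 1 else 0 := fun a b => by
    have := congrFun (congrFun h2 a) b
    simpa [Matrix.mul_apply, Matrix.one_apply] using this
  have heq : ∀ x y, A x y = ∑ a, hA.eigenvalues a * (U x a * U y a) := fun x y => by
    have := congrFun (congrFun hA.spectral_theorem x) y
    rw [Matrix.of_apply] at this
    rw [this, Unitary.conjStarAlgAut_apply, Matrix.mul_apply]
    refine sum_congr rfl fun a _ => ?_
    rw [Matrix.mul_diagonal]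
    simp [hU]
    ring
  refine ⟨hA.eigenvalues, fun a x => U x a, fun a => ?_, hon, fun x y => ?_, heq⟩
  · have h3 := h.2 fun x => U x a
    simp only [heq] at h3
    rw [← feat_mul univ hA.eigenvalues fun a x => U x a] at h3
    simpa [hon] using h3
  · have := congrFun (congrFun h1 x) y
    simpa [Matrix.mul_apply, Matrix.one_apply] using this

variable {A B : X → X → ℝ} {lam : X → ℝ} {e : X → X → ℝ}

lemma Spec.mul (h : Spec A lam e) (f k : X → ℝ) :
    ∑ a, lam a * ((∑ x, f x * e a x) * ∑ y, k y * e a y) = ∑ x, ∑ y, f x * A x y * k y := by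
  rw [feat_mul]
  simp only [← h.eq]

lemma Spec.sq (h : Spec A lam e) (f : X → ℝ) :
    ∑ a, lam a * (∑ x, f x * e a x) ^ 2 = ∑ x, ∑ y, f x * A x y * f y := by
  rw [← h.mul]
  simp only [_root_.sq]

lemma Spec.pars (h : Spec A lam e) (f k : X → ℝ) :
    ∑ a, (∑ x, f x * e a x) * ∑ y, k y * e a y = ∑ x, f x * k x := by
  have := feat_mul univ (fun _ => 1) e f k
  simp only [one_mul, h.co] at this
  rw [this]
  simp

lemma Spec.pars_sq (h : Spec A lam e) (f : X → ℝ) :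
    ∑ a, (∑ x, f x * e a x) ^ 2 = ∑ x, f x ^ 2 := by
  simp only [_root_.sq]
  exact h.pars f f

lemma Spec.norm (h : Spec A lam e) (a : X) : ∑ x, e a x ^ 2 = 1 := by
  simpa [_root_.sq] using h.on a a

lemma Spec.eig (h : Spec A lam e) (a x : X) : ∑ y, A x y * e a y = lam a * e a x := by
  have : ∀ y, A x y * e a y = ∑ b, lam b * e b x * (e b y * e a y) := fun y => by
    rw [h.eq, sum_mul]
    exact sum_congr rfl fun b _ => by ring
  simp only [this]
  rw [sum_comm]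
  simp only [← mul_sum, h.on]
  simp

lemma Spec.trace (h : Spec A lam e) : ∑ a, lam a = ∑ x, A x x := by
  simp only [h.eq]
  rw [sum_comm]
  simp only [← mul_sum, h.on]
  simp

lemma Spec.symm (h : Spec A lam e) (x y : X) : A x y = A y x := by
  rw [h.eq, h.eq]
  exact sum_congr rfl fun a _ => by ring

lemma Spec.frob (h : Spec A lam e) (R : X → X → ℝ) :
    ∑ a, ∑ x, (∑ y, R x y * e a y) ^ 2 = ∑ x, ∑ y, R x y ^ 2 := by
  rw [sum_comm]
  exact sum_congr rfl fun x _ => h.pars_sq (R x)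

lemma Spec.sum_sq (h : Spec A lam e) : ∑ a, lam a ^ 2 = ∑ x, ∑ y, A x y ^ 2 := by
  rw [← h.frob]
  refine sum_congr rfl fun a _ => ?_
  simp only [h.eig, mul_pow, ← mul_sum, h.norm, mul_one]

lemma Spec.psd_cut (h : Spec A lam e) (I : Finset X) : Psd (cut lam e I) :=
  psd_feat I lam (fun a _ => h.nn a) e

lemma Spec.cut_add (h : Spec A lam e) (I : Finset X) (x y : X) :
    cut lam e I x y + cut lam e Iᶜ x y = A x y := by
  rw [h.eq, cut, cut, sum_add_sum_compl]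

lemma Psd.mul (hA : Psd A) (hB : Psd B) : Psd fun x y => A x y * B x y := by
  obtain ⟨lam, e, h⟩ := hA.spec
  refine ⟨fun x y => by beta_reduce; rw [hA.1 x y, hB.1 x y], fun f => ?_⟩
  have : ∑ x, ∑ y, f x * (A x y * B x y) * f y =
      ∑ a, lam a * ∑ x, ∑ y, (f x * e a x) * B x y * (f y * e a y) := by
    simp only [h.eq, sum_mul, mul_sum]
    symm
    rw [rot3]
    exact sum_congr rfl fun x _ => sum_congr rfl fun y _ => sum_congr rfl fun a _ => by ring
  rw [this]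
  exact sum_nonneg fun a _ => mul_nonneg (h.nn a) (hB.2 _)

omit [DecidableEq X] in
lemma Psd.sum_nonneg (hA : Psd A) : 0 ≤ ∑ x, ∑ y, A x y := by
  simpa using hA.2 fun _ => 1

lemma Psd.pow (hA : Psd A) (m : ℕ) : Psd fun x y => A x y ^ m := by
  induction m with
  | zero =>
    simpa using psd_feat (X := X) (univ : Finset Unit) (fun _ => 1) (fun _ _ => zero_le_one)
      fun _ _ => 1
  | succ m ih => simpa only [pow_succ] using ih.mul hA

omit [DecidableEq X] in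
lemma Psd.conj (hA : Psd A) (d : X → ℝ) : Psd fun x y => d x * A x y * d y :=
  ⟨fun x y => by beta_reduce; rw [hA.1 x y]; ring, fun f => by
    have := hA.2 fun x => f x * d x
    refine this.trans_eq (sum_congr rfl fun x _ => sum_congr rfl fun y _ => by ring)⟩

lemma cs_step {ι : Type*} (s : Finset ι) (w r a b : ι → ℝ) (hw : ∀ i ∈ s, 0 ≤ w i)
    (ha : ∀ i ∈ s, 0 ≤ a i) (hb : ∀ i ∈ s, 0 ≤ b i) (h : ∀ i ∈ s, r i ^ 2 ≤ a i * b i) :
    (∑ i ∈ s, w i * r i) ^ 2 ≤ (∑ i ∈ s, w i * a i) * ∑ i ∈ s, w i * b i :=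
  sum_sq_le_sum_mul_sum_of_sq_le_mul s (fun i hi => mul_nonneg (hw i hi) (ha i hi))
    (fun i hi => mul_nonneg (hw i hi) (hb i hi)) fun i hi => by
      have := mul_le_mul_of_nonneg_left (h i hi) (sq_nonneg (w i))
      linarith

lemma cs_w {ι : Type*} (s : Finset ι) (w u v : ι → ℝ) (hw : ∀ i ∈ s, 0 ≤ w i) :
    (∑ i ∈ s, w i * (u i * v i)) ^ 2 ≤ (∑ i ∈ s, w i * u i ^ 2) * ∑ i ∈ s, w i * v i ^ 2 :=
  cs_step s w _ _ _ hw (fun _ _ => sq_nonneg _) (fun _ _ => sq_nonneg _) fun _ _ =>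
    (mul_pow _ _ _).le

lemma cs_step' {ι : Type*} (s : Finset ι) (r a b : ι → ℝ)
    (ha : ∀ i ∈ s, 0 ≤ a i) (hb : ∀ i ∈ s, 0 ≤ b i) (h : ∀ i ∈ s, r i ^ 2 ≤ a i * b i) :
    (∑ i ∈ s, r i) ^ 2 ≤ (∑ i ∈ s, a i) * ∑ i ∈ s, b i :=
  sum_sq_le_sum_mul_sum_of_sq_le_mul s ha hb h

lemma Psd.cs (hA : Psd A) (f k : X → ℝ) :
    (∑ x, ∑ y, f x * A x y * k y) ^ 2 ≤
      (∑ x, ∑ y, f x * A x y * f y) * ∑ x, ∑ y, k x * A x y * k y := by
  obtain ⟨lam, e, h⟩ := hA.spec
  rw [← h.mul, ← h.sq, ← h.sq]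
  exact cs_w _ _ _ _ fun a _ => h.nn a

lemma cut_quad_le (h : Spec A lam e) {I : Finset X} {l : ℝ} (hl : 0 ≤ l)
    (hI : ∀ a ∈ I, lam a ≤ l) (f : X → ℝ) :
    ∑ x, ∑ y, f x * cut lam e I x y * f y ≤ l * ∑ x, f x ^ 2 := by
  simp only [cut]
  rw [← feat_mul, ← h.pars_sq, mul_sum]
  calc ∑ i ∈ I, lam i * ((∑ x, f x * e i x) * ∑ y, f y * e i y)
      ≤ ∑ i ∈ I, l * (∑ x, f x * e i x) ^ 2 := sum_le_sum fun i hi => by
        rw [← _root_.sq]
        exact mul_le_mul_of_nonneg_right (hI i hi) (sq_nonneg _)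
    _ ≤ _ := sum_le_sum_of_subset_of_nonneg (subset_univ _) fun i _ _ => by positivity

/-- Trace of a product of three kernels. -/
def tr3 (A B C : X → X → ℝ) : ℝ := ∑ x, ∑ y, ∑ z, A x y * B y z * C z x

omit [DecidableEq X] in
lemma tr3_cyc (A B C : X → X → ℝ) : tr3 A B C = tr3 B C A := by
  simp only [tr3]
  rw [rot3]
  exact sum_congr rfl fun y _ => sum_congr rfl fun z _ => sum_congr rfl fun x _ => by ring

omit [DecidableEq X] in
lemma tr3_nonneg (hA : ∀ x y, A x y = A y x) (hB : Psd B) : 0 ≤ tr3 A B A :=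
  sum_nonneg fun x _ => (hB.2 (A x)).trans_eq
    (sum_congr rfl fun y _ => sum_congr rfl fun z _ => by rw [hA z x])

omit [DecidableEq X] in
lemma tr3_le {P P' L : X → X → ℝ} (hP : Psd P) (hP' : Psd P') (hL : ∀ x y, L x y = P x y + P' x y) :
    tr3 P L P ≤ tr3 L L L := by
  have e1 : tr3 L L L = tr3 P L P + (tr3 P P P' + tr3 P P' P' + tr3 P' P P + tr3 P' P' P +
      tr3 P' P P' + tr3 P' P' P') := by
    simp only [tr3, ← sum_add_distrib, hL]
    exact sum_congr rfl fun x _ => sum_congr rfl fun y _ => sum_congr rfl fun z _ => by ring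
  have h1 := tr3_nonneg hP.1 hP'
  have h2 := tr3_nonneg hP'.1 hP
  have h3 := tr3_nonneg hP'.1 hP'
  have c1 := tr3_cyc P P P'
  have c2 := tr3_cyc P P' P
  have c3 := tr3_cyc P P' P'
  have c4 := tr3_cyc P' P' P
  linarith

end Pool.Agent.P.MP_ac2766_co.Up
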