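import Pool.Agent.P.MP_ac2766_co.UpCore

/-! From moment bounds in links to the hypotheses of the core inequality. -/

set_option autoImplicit false

namespace Pool.Agent.P.MP_ac2766_co.Up

open Finset

variable {X : Type*} [DecidableEq X] {g : X → X → ℝ} {q a b : ℝ} {M : ℕ} {S S' : Finset X}

/-- The link of `x` in `S`. -/
noncomputable def Lk (g : X → X → ℝ) (S : Finset X) (x : X) : Finset X :=
  S.filter fun z => z ≠ x ∧ g x z ≠ 0

/-- Moment bounds on `S`. -/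
def Bd (g : X → X → ℝ) (q : ℝ) (M : ℕ) (S : Finset X) (a : ℝ) : Prop :=
  ∀ u, ∀ m ≤ M, ∑ z ∈ S, |g u z| ^ m ≤ q ^ m * a

lemma Lk_sub (x : X) : Lk g S x ⊆ S := filter_subset _ _

lemma Lk_mono (h : S' ⊆ S) (x : X) : Lk g S' x ⊆ Lk g S x := filter_subset_filter _ h

omit [DecidableEq X] in
lemma Bd.mono (h : Bd g q M S a) (hS : S' ⊆ S) : Bd g q M S' a := fun u m hm =>
  (sum_le_sum_of_subset_of_nonneg hS fun _ _ _ => by positivity).trans (h u m hm)

lemma split (f : X → ℝ) (S : Finset X) (x : X) (hf : ∀ z, 0 ≤ f z)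
    (h0 : ∀ z, g x z = 0 → f z = 0) : ∑ z ∈ S, f z ≤ f x + ∑ z ∈ Lk g S x, f z := by
  have hx : x ∉ Lk g S x := by simp [Lk]
  rw [← sum_insert hx, ← sum_filter_ne_zero S]
  refine sum_le_sum_of_subset_of_nonneg (fun z hz => ?_) fun z _ _ => hf z
  rw [mem_filter] at hz
  by_cases h : z = x
  · simp [h]
  · exact mem_insert_of_mem (mem_filter.2 ⟨hz.1, h, fun h1 => hz.2 (h0 z h1)⟩)

lemma pw3 {s t u : ℝ} (hs : 0 ≤ s) (ht : 0 ≤ t) (hu : 0 ≤ u) (i j k : ℕ) :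
    s ^ i * t ^ j * u ^ k ≤ s ^ (i + j + k) + t ^ (i + j + k) + u ^ (i + j + k) := by
  have key : ∀ m, s ≤ m → t ≤ m → u ≤ m → s ^ i * t ^ j * u ^ k ≤ m ^ (i + j + k) :=
    fun m h1 h2 h3 => by
      have : 0 ≤ m := hs.trans h1
      rw [pow_add, pow_add]
      gcongr
  have p1 := pow_nonneg hs (i + j + k)
  have p2 := pow_nonneg ht (i + j + k)
  have p3 := pow_nonneg hu (i + j + k)
  rcases le_total s t with h1 | h1
  · rcases le_total t u with h2 | h2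
    · linarith [key u (h1.trans h2) h2 le_rfl]
    · linarith [key t h1 le_rfl h2]
  · rcases le_total s u with h2 | h2
    · linarith [key u h2 (h1.trans h2) le_rfl]
    · linarith [key s le_rfl h1 h2]

omit [DecidableEq X] in
lemma Bd.three (h : Bd g q M S a) (x y z : X) {i j k : ℕ} (hm : i + j + k ≤ M) :
    ∑ w ∈ S, |g x w| ^ i * |g y w| ^ j * |g z w| ^ k ≤ 3 * (q ^ (i + j + k) * a) := by
  refine (sum_le_sum fun w _ => pw3 (abs_nonneg _) (abs_nonneg _) (abs_nonneg _) i j k).trans ?_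
  rw [sum_add_distrib, sum_add_distrib]
  linarith [h x _ hm, h y _ hm, h z _ hm]

lemma one_le_pw (hq : 0 < q) (hq1 : q ≤ 1) (h : 1 ≤ q ^ M * a) {m : ℕ} (hm : m ≤ M) :
    1 ≤ q ^ m * a := by
  have : 0 < a := pos_of_mul_pos_left (b := q ^ M) (by linarith) (pow_pos hq M).le
  exact h.trans (mul_le_mul_of_nonneg_right (pow_le_pow_of_le_one hq.le hq1 hm) this.le)

variable [Fintype X]

lemma step1 (ha : ∀ x y, |g x y| ≤ 1) {x : X} (h : Bd g q M (Lk g univ x) a) {i : ℕ} (hi : i ≠ 0)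
    (hm : i ≤ M) {F : X → ℝ} (hF : ∀ z, 0 ≤ F z) {B : ℝ} (hB : 0 ≤ B)
    (h1 : ∀ z ∈ Lk g univ x, F z ≤ B) : ∑ z, |g x z| ^ i * F z ≤ F x + q ^ i * a * B := by
  refine (split (g := g) _ univ x (fun z => mul_nonneg (by positivity) (hF z)) fun z hz => by
    simp [hz, hi]).trans (add_le_add (mul_le_of_le_one_left (hF x)
      (pow_le_one₀ (abs_nonneg _) (ha _ _))) ?_)
  refine (sum_le_sum fun z hz => mul_le_mul_of_nonneg_left (h1 z hz) (by positivity)).trans ?_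
  rw [← sum_mul]
  exact mul_le_mul_of_nonneg_right (h x i hm) hB

lemma step2 (ha : ∀ x y, |g x y| ≤ 1) {x y : X} (h : Bd g q M (Lk g (Lk g univ x) y) a)
    {i j : ℕ} (hi : i ≠ 0) (hj : j ≠ 0) (hm : i + j ≤ M) {F : X → ℝ} (hF : ∀ z, 0 ≤ F z) {B : ℝ}
    (hB : 0 ≤ B) (h1 : ∀ z ∈ Lk g (Lk g univ x) y, F z ≤ B) :
    ∑ z, |g x z| ^ i * |g y z| ^ j * F z ≤ F x + F y + 3 * (q ^ (i + j) * a) * B := by
  have p : ∀ z, 0 ≤ |g x z| ^ i * |g y z| ^ j * F z := fun z => mul_nonneg (by positivity) (hF z)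
  have p1 : ∀ z, |g x z| ^ i * |g y z| ^ j * F z ≤ F z := fun z => mul_le_of_le_one_left (hF z)
    (mul_le_one₀ (pow_le_one₀ (abs_nonneg _) (ha _ _)) (by positivity)
      (pow_le_one₀ (abs_nonneg _) (ha _ _)))
  have s1 := split (g := g) _ univ x p fun z hz => by simp [hz, hi]
  have s2 := split (g := g) _ (Lk g univ x) y p fun z hz => by simp [hz, hj]
  have s3 : ∑ z ∈ Lk g (Lk g univ x) y, |g x z| ^ i * |g y z| ^ j * F z ≤
      3 * (q ^ (i + j) * a) * B := by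
    refine (sum_le_sum fun z hz => mul_le_mul_of_nonneg_left (h1 z hz) (by positivity)).trans ?_
    rw [← sum_mul]
    simpa using mul_le_mul_of_nonneg_right (h.three x y x (k := 0) hm) hB
  linarith [p1 x, p1 y]

lemma step3 (ha : ∀ x y, |g x y| ≤ 1) (hq : 0 < q) (hq1 : q ≤ 1) {x y z : X}
    (h : Bd g q M (Lk g (Lk g (Lk g univ x) y) z) a) (h1 : 1 ≤ q ^ M * a) {i j k : ℕ}
    (hi : i ≠ 0) (hj : j ≠ 0) (hk : k ≠ 0) (hm : i + j + k ≤ M) :
    ∑ w, |g x w| ^ i * |g y w| ^ j * |g z w| ^ k ≤ 6 * (q ^ (i + j + k) * a) := by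
  have p : ∀ w, 0 ≤ |g x w| ^ i * |g y w| ^ j * |g z w| ^ k := fun w => by positivity
  have p0 : ∀ x w i, |g x w| ^ i ≤ 1 := fun x w i => pow_le_one₀ (abs_nonneg _) (ha _ _)
  have p1 : ∀ w, |g x w| ^ i * |g y w| ^ j * |g z w| ^ k ≤ 1 := fun w =>
    mul_le_one₀ (mul_le_one₀ (p0 _ _ _) (by positivity) (p0 _ _ _)) (by positivity) (p0 _ _ _)
  have s1 := split (g := g) _ univ x p fun z hz => by simp [hz, hi]
  have s2 := split (g := g) _ (Lk g univ x) y p fun z hz => by simp [hz, hj]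
  have s3 := split (g := g) _ (Lk g (Lk g univ x) y) z p fun z hz => by simp [hz, hk]
  linarith [p1 x, p1 y, p1 z, h.three x y z hm, one_le_pw hq hq1 h1 hm]

lemma mid (ha : ∀ x y, |g x y| ≤ 1) (hq : 0 < q) (hq1 : q ≤ 1) {x y : X}
    (h : Bd g q M (Lk g (Lk g univ x) y) a) (h1 : 1 ≤ q ^ M * a)
    (h' : ∀ z ∈ Lk g (Lk g univ x) y, Bd g q M (Lk g (Lk g (Lk g univ x) y) z) b)
    (h1' : 1 ≤ q ^ M * b) {i j k l m : ℕ} (hi : i ≠ 0) (hj : j ≠ 0) (hk : k ≠ 0) (hl : l ≠ 0)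
    (hm : m ≠ 0) (hij : i + j ≤ M) (hklm : k + l + m ≤ M) :
    ∑ z, |g x z| ^ i * |g y z| ^ j * ∑ w, |g x w| ^ k * |g y w| ^ l * |g z w| ^ m ≤
      30 * (q ^ (i + j) * q ^ (k + l + m) * (a * b)) := by
  have b1 := one_le_pw hq hq1 h1 hklm
  have b2 := one_le_pw hq hq1 h1' hklm
  have b3 := one_le_pw hq hq1 h1' hij
  have s := step2 ha h hi hj hij (F := fun z => ∑ w, |g x w| ^ k * |g y w| ^ l * |g z w| ^ m)
    (fun z => by positivity) (B := 6 * (q ^ (k + l + m) * b)) (by linarith)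
    fun z hz => step3 ha hq hq1 (h' z hz) h1' hk hl hm hklm
  have s1 := step3 ha hq hq1 (h.mono (Lk_sub x)) h1 hk hl hm hklm
  have s2 := step3 ha hq hq1 (h.mono (Lk_sub y)) h1 hk hl hm hklm
  have := mul_le_mul_of_nonneg_left b3 (show 0 ≤ q ^ (k + l + m) * a by linarith)
  nlinarith

lemma four {a1 a2 a3 : ℝ} (ha : ∀ x y, |g x y| ≤ 1) (hq : 0 < q) (hq1 : q ≤ 1)
    (H1 : ∀ x, Bd g q M (Lk g univ x) a1)
    (H2 : ∀ x, ∀ y ∈ Lk g univ x, Bd g q M (Lk g (Lk g univ x) y) a2)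
    (H3 : ∀ x, ∀ y ∈ Lk g univ x, ∀ z ∈ Lk g (Lk g univ x) y,
      Bd g q M (Lk g (Lk g (Lk g univ x) y) z) a3)
    (h1 : 1 ≤ q ^ M * a1) (h2 : 1 ≤ q ^ M * a2) (h3 : 1 ≤ q ^ M * a3) {r i j k l m : ℕ}
    (hr : r ≠ 0) (hi : i ≠ 0) (hj : j ≠ 0) (hk : k ≠ 0) (hl : l ≠ 0) (hm : m ≠ 0) (hrM : r ≤ M)
    (hij : i + j ≤ M) (hklm : k + l + m ≤ M) :
    ∑ x, ∑ y, |g x y| ^ r *
      ∑ z, |g x z| ^ i * |g y z| ^ j * ∑ w, |g x w| ^ k * |g y w| ^ l * |g z w| ^ m ≤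
      Fintype.card X * (60 * (q ^ r * q ^ (i + j) * q ^ (k + l + m) * (a1 * a2 * a3))) := by
  rw [← nsmul_eq_mul, ← card_univ]
  refine sum_le_card_nsmul _ _ _ fun x _ => ?_
  have p1 : 0 < a1 := pos_of_mul_pos_left (b := q ^ M) (by linarith) (pow_pos hq M).le
  have p2 : 0 < a2 := pos_of_mul_pos_left (b := q ^ M) (by linarith) (pow_pos hq M).le
  have p3 : 0 < a3 := pos_of_mul_pos_left (b := q ^ M) (by linarith) (pow_pos hq M).le
  have s := step1 ha (H1 x) hr hrM (F := fun y =>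
      ∑ z, |g x z| ^ i * |g y z| ^ j * ∑ w, |g x w| ^ k * |g y w| ^ l * |g z w| ^ m)
    (fun z => by positivity) (B := 30 * (q ^ (i + j) * q ^ (k + l + m) * (a2 * a3)))
    (by positivity) fun y hy => mid ha hq hq1 (H2 x y hy) h2 (H3 x y hy) h3 hi hj hk hl hm hij hklm
  have s1 := mid ha hq hq1 ((H1 x).mono (Lk_sub x)) h1
    (fun z hz => (H2 x z (Lk_sub x hz)).mono (Lk_mono (Lk_sub x) z)) h2 hi hj hk hl hm hij hklm
  have := mul_le_mul_of_nonneg_left (one_le_pw hq hq1 h3 hrM)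
    (show 0 ≤ q ^ (i + j) * q ^ (k + l + m) * (a1 * a2) by positivity)
  nlinarith

lemma tri {a1 a2 : ℝ} (ha : ∀ x y, |g x y| ≤ 1) (hq : 0 < q) (hq1 : q ≤ 1)
    (H1 : ∀ x, Bd g q M (Lk g univ x) a1)
    (H2 : ∀ x, ∀ y ∈ Lk g univ x, Bd g q M (Lk g (Lk g univ x) y) a2)
    (h1 : 1 ≤ q ^ M * a1) (h2 : 1 ≤ q ^ M * a2) (hM : 2 ≤ M) :
    ∑ x, ∑ y, |g x y| ^ 1 * ∑ z, |g x z| ^ 1 * |g y z| ^ 1 * 1 ≤
      Fintype.card X * (10 * (q ^ 3 * (a1 * a2))) := by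
  rw [← nsmul_eq_mul, ← card_univ]
  refine sum_le_card_nsmul _ _ _ fun x _ => ?_
  have k : ∀ y a, Bd g q M (Lk g (Lk g univ x) y) a → 1 ≤ q ^ M * a →
      ∑ z, |g x z| ^ 1 * |g y z| ^ 1 * 1 ≤ 5 * (q ^ 2 * a) := fun y a h h' => by
    have := step2 ha h one_ne_zero one_ne_zero hM (F := fun _ => 1) (fun _ => zero_le_one)
      zero_le_one fun _ _ => le_rfl
    rw [show 1 + 1 = 2 from rfl] at this
    linarith [one_le_pw hq hq1 h' hM]
  have b1 := one_le_pw hq hq1 h1 hM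
  have b2 := one_le_pw hq hq1 h2 hM
  have s := step1 ha (H1 x) one_ne_zero (by omega) (F := fun y =>
      ∑ z, |g x z| ^ 1 * |g y z| ^ 1 * 1) (fun z => by positivity) (B := 5 * (q ^ 2 * a2))
    (by linarith) fun y hy => k y a2 (H2 x y hy) h2
  have s1 := k x a1 ((H1 x).mono (Lk_sub x)) h1
  have := mul_le_mul_of_nonneg_left (one_le_pw hq hq1 h2 (show 1 ≤ M by omega))
    (show 0 ≤ q ^ 2 * a1 by linarith)
  nlinarith

omit [DecidableEq X] in
lemma supp_cs {d : ℝ} (hdeg : ∀ w, ((univ.filter fun u => g u w ≠ 0).card : ℝ) ≤ d) (hd : 0 ≤ d)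
    {m : ℕ} (hm : m ≠ 0) : sm g m ^ 2 ≤ Fintype.card X * d * sm g (m * 2) := by
  rw [sm, sm, sum_comm, sum_comm (f := fun x y => g x y ^ (m * 2)), ← nsmul_eq_mul, ← card_univ,
    ← sum_const]
  refine cs_step' _ _ _ _ (fun _ _ => hd) (fun _ _ => sum_nonneg fun _ _ => by
    rw [pow_mul]; positivity) fun w _ => ?_
  rw [← sum_filter_of_ne (p := fun u => g u w ≠ 0) fun u _ hu h => hu (by rw [h, zero_pow hm])]
  refine sq_sum_le_card_mul_sum_sq.trans (mul_le_mul (hdeg w) ?_ (by positivity) hd)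
  simp only [pow_mul]
  exact sum_le_sum_of_subset_of_nonneg (subset_univ _) fun _ _ _ => by positivity

theorem core2 (hg : Psd g) (hd : ∀ x, g x x = 1) (ha : ∀ x y, |g x y| ≤ 1) {n p q δ D : ℝ}
    (hn : n = Fintype.card X) (hp : 0 < p) (hp1 : p ≤ 1) (hpq : q = p ^ 8) (hD : 64 ≤ D)
    (hδ : 0 < δ) (hDq : q ^ 8 ≤ D * δ ^ 8) (hbig : 2 ≤ n * q ^ 9) (hs : (n * δ) ^ 2 ≤ sm g 1)
    (H1 : ∀ x, Bd g q 8 (Lk g univ x) (n * q / 2))
    (H2 : ∀ x, ∀ y ∈ Lk g univ x, Bd g q 4 (Lk g (Lk g univ x) y) (n * q ^ 2))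
    (H3 : ∀ x, ∀ y ∈ Lk g univ x, ∀ z ∈ Lk g (Lk g univ x) y,
      Bd g q 4 (Lk g (Lk g (Lk g univ x) y) z) (n * q ^ 3)) :
    1 ≤ D ^ 185 * p ^ 2 := by
  have hq : 0 < q := by rw [hpq]; positivity
  have hq1 : q ≤ 1 := by rw [hpq]; exact pow_le_one₀ hp.le hp1
  have hn0 : 0 < n := (pos_iff_pos_of_mul_pos (show 0 < n * q ^ 9 by linarith)).2 (pow_pos hq 9)
  have big : ∀ m ≤ 9, 2 ≤ n * q ^ m := fun m hm =>
    hbig.trans (mul_le_mul_of_nonneg_left (pow_le_pow_of_le_one hq.le hq1 hm) hn0.le)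
  have H1' : ∀ x, Bd g q 4 (Lk g univ x) (n * q) := fun x u m hm =>
    (H1 x u m (by omega)).trans (mul_le_mul_of_nonneg_left (by nlinarith) (by positivity))
  have hdeg : ∀ w, ((univ.filter fun u => g u w ≠ 0).card : ℝ) ≤ n * q := fun w => by
    have h1 := H1 w w 0 (by omega)
    have h2 := split (g := g) (fun u => if g u w ≠ 0 then (1 : ℝ) else 0) univ w
      (fun u => by positivity) fun u hu => by simp [hg.1 u w, hu]
    have h3 : ∑ u ∈ Lk g univ w, (if g u w ≠ 0 then (1 : ℝ) else 0) ≤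
        ∑ u ∈ Lk g univ w, |g w u| ^ 0 := sum_le_sum fun u _ => by split_ifs <;> simp
    have h4 := big 1 (by omega)
    rw [natCast_card_filter]
    simp only [hd, ne_eq, one_ne_zero, not_false_eq_true, if_true] at h2
    simp only [ne_eq] at h3 ⊢
    linarith
  have hS : ∀ m, m ≠ 0 → m ≤ 8 → ∑ x, ∑ y, |g x y| ^ m ≤ n ^ 2 * q ^ (m + 1) := fun m h0 hm => by
    have : n ^ 2 * q ^ (m + 1) = (univ : Finset X).card • (n * q ^ (m + 1)) := by
      rw [nsmul_eq_mul, card_univ, ← hn]; ring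
    rw [this]
    refine sum_le_card_nsmul _ _ _ fun x _ => ?_
    have h1 := step1 ha (H1 x) h0 hm (F := fun _ => 1) (fun _ => zero_le_one) zero_le_one
      fun _ _ => le_rfl
    have h2 := big (m + 1) (by omega)
    simp only [mul_one] at h1
    rw [pow_succ] at h2 ⊢
    linarith
  have hS' : ∀ m, m ≠ 0 → m ≤ 8 → sm g m ≤ n ^ 2 * q ^ (m + 1) := fun m h0 hm =>
    (sum_le_sum fun x _ => sum_le_sum fun y _ => (le_abs_self _).trans_eq (abs_pow _ _)).trans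
      (hS m h0 hm)
  have o1 : 1 ≤ q ^ 4 * (n * q) := by linarith [big 5 (by omega)]
  have o2 : 1 ≤ q ^ 4 * (n * q ^ 2) := by linarith [big 6 (by omega)]
  have o3 : 1 ≤ q ^ 4 * (n * q ^ 3) := by linarith [big 7 (by omega)]
  refine core hg hd hn hn0 hp hp1 hpq hD hdeg ?_ (hS' 4 (by omega) (by omega))
    (hS' 6 (by omega) (by omega)) (hS 7 (by omega) (by omega)) (hS' 8 (by omega) (by omega))
    ?_ ?_ ?_
  · have c1 := supp_cs hdeg (by positivity) one_ne_zero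
    have c2 := supp_cs hdeg (by positivity) two_ne_zero
    rw [← hn] at c1 c2
    norm_num only at c1 c2
    refine le_of_mul_le_mul_left ?_ (show 0 < (n * (n * q)) ^ 3 by positivity)
    calc (n * (n * q)) ^ 3 * (n ^ 2 * q ^ 5) = n ^ 8 * q ^ 8 := by ring
      _ ≤ n ^ 8 * (D * δ ^ 8) := by gcongr
      _ = D * (((n * δ) ^ 2) ^ 2) ^ 2 := by ring
      _ ≤ D * (sm g 1 ^ 2) ^ 2 := by gcongr
      _ ≤ D * (n * (n * q) * sm g 2) ^ 2 := by gcongr
      _ = D * (n * (n * q)) ^ 2 * sm g 2 ^ 2 := by ring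
      _ ≤ D * (n * (n * q)) ^ 2 * (n * (n * q) * sm g 4) := by gcongr
      _ = _ := by ring
  · refine le_trans ?_ ((tri ha hq hq1 H1' H2 o1 o2 (by omega)).trans ?_)
    · simp only [tr3, mul_sum]
      refine sum_le_sum fun x _ => sum_le_sum fun y _ => sum_le_sum fun z _ =>
        (le_abs_self _).trans_eq ?_
      rw [hg.1 z x, abs_mul, abs_mul]
      ring
    · rw [← hn]
      nlinarith [show 0 < n ^ 3 * q ^ 6 by positivity]
  · refine le_trans ?_ ((four ha hq hq1 H1' H2 H3 o1 o2 o3 (r := 2) (i := 2) (j := 1) (k := 2)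
      (l := 1) (m := 1) (by omega) (by omega) (by omega) (by omega) (by omega) (by omega)
      (by omega) (by omega) (by omega)).trans ?_)
    · simp only [TT, tr3, loc, mul_sum]
      refine sum_le_sum fun x _ => sum_le_sum fun y _ => sum_le_sum fun z _ =>
        sum_le_sum fun w _ => (le_abs_self _).trans_eq ?_
      rw [hg.1 w y]
      simp only [abs_mul]
      ring
    · rw [← hn]
      norm_num only
      nlinarith [show 0 < n ^ 4 * q ^ 15 by positivity]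
  · refine le_trans ?_ ((four ha hq hq1 H1' H2 H3 o1 o2 o3 (r := 4) (i := 1) (j := 1) (k := 1)
      (l := 1) (m := 2) (by omega) (by omega) (by omega) (by omega) (by omega) (by omega)
      (by omega) (by omega) (by omega)).trans ?_)
    · simp only [NN, mul_sum]
      refine sum_le_sum fun x _ => sum_le_sum fun y _ => sum_le_sum fun z _ =>
        sum_le_sum fun w _ => (le_abs_self _).trans_eq ?_
      rw [hg.1 z x, hg.1 z y, hg.1 w x, hg.1 w y]
      simp only [abs_mul, abs_pow]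
      ring
    · rw [← hn]
      norm_num only
      nlinarith [show 0 < n ^ 4 * q ^ 16 by positivity]

end Pool.Agent.P.MP_ac2766_co.Up
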