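import Pool.Agent.P.MP_ac2766_co.UpKer

/-! The main term and the low spectral parts. -/

set_option autoImplicit false

namespace Pool.Agent.P.MP_ac2766_co.Up

open Finset

variable {X : Type*} [Fintype X] [DecidableEq X]
  {g : X → X → ℝ} {lam sg ro : X → ℝ} {e ch ka : X → X → ℝ}

/-- Entrywise moments. -/
def sm (g : X → X → ℝ) (m : ℕ) : ℝ := ∑ x, ∑ y, g x y ^ m

/-- The kernel localised at `y`. -/
def loc (g A : X → X → ℝ) (y a b : X) : ℝ := g y a * A a b * g y b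

/-- Four points, the three edges at one of them doubled. -/
def TT (g : X → X → ℝ) : ℝ := ∑ y, tr3 (loc g g y) (loc g g y) (loc g g y)

/-- Four points, one edge of multiplicity four, the opposite one doubled. -/
def NN (g : X → X → ℝ) : ℝ :=
  ∑ y, ∑ z, g y z ^ 4 * ∑ u, ∑ u', g u y * g u z * g u u' ^ 2 * (g u' y * g u' z)

/-- The main term with two of its edges cut. -/
def FF (g P Q M : X → X → ℝ) : ℝ :=
  ∑ y, ∑ a, ∑ b, g y a * Q y a * P a b * (g y b ^ 2 * M y b)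

lemma Spec.tr3_eq (h : Spec g lam e) : tr3 g g g = ∑ a, lam a ^ 3 := by
  have : ∀ x, ∑ y, ∑ z, g x y * g y z * g z x = ∑ a, lam a ^ 3 * e a x ^ 2 := fun x => by
    have h1 := h.sq (g x)
    simp only [h.eig] at h1
    simp only [h.symm _ x, ← h1]
    exact sum_congr rfl fun a _ => by ring
  simp only [tr3, this]
  rw [sum_comm]
  simp only [← mul_sum, h.norm, mul_one]

lemma main_lower (h : Spec g lam e) (hd : ∀ x, g x x = 1) {l : ℝ} (hl : 0 < l)
    (h4 : 4 * (tr3 g g g * sm g 6) ≤ l * sm g 4 ^ 2) :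
    sm g 4 ^ 2 ≤ 4 * (Fintype.card X *
      FF g (cut lam e (univ.filter fun a => lam a ≤ l)) (fun x y => g x y ^ 2) g) := by
  set I := univ.filter fun a => lam a ≤ l with hI
  set u : X → X → ℝ := fun a y => ∑ z, g y z ^ 3 * e a z with hu
  set r : X → ℝ := fun a => ∑ y, e a y * u a y with hr
  have hU : ∀ a, r a ^ 2 ≤ 1 * ∑ y, u a y ^ 2 := fun a => by
    rw [← h.norm a]
    exact sum_mul_sq_le_sq_mul_sq _ _ _
  have e4 : sm g 4 = ∑ a ∈ I, lam a * r a + ∑ a ∈ Iᶜ, lam a * r a := by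
    rw [sum_add_sum_compl]
    simp only [hr, hu, mul_sum]
    rw [rot3]
    refine sum_congr rfl fun x _ => sum_congr rfl fun y _ => ?_
    rw [pow_succ, h.eq x y, mul_sum, ← h.eq x y]
    exact sum_congr rfl fun a _ => by ring
  have eM : FF g (cut lam e I) (fun x y => g x y ^ 2) g = ∑ a ∈ I, lam a * ∑ y, u a y ^ 2 := by
    simp only [mul_sum]
    rw [sum_comm]
    refine sum_congr rfl fun y _ => ?_
    have := feat_mul I lam e (fun z => g y z ^ 3) fun z => g y z ^ 3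
    simp only [← sq] at this
    rw [this]
    exact sum_congr rfl fun a _ => sum_congr rfl fun b _ => by rw [cut]; ring
  have hn : ∑ a ∈ I, lam a * 1 ≤ Fintype.card X := by
    simp only [mul_one]
    refine (sum_le_sum_of_subset_of_nonneg (subset_univ _) fun a _ _ => h.nn a).trans ?_
    simp [h.trace, hd]
  have hM : 0 ≤ ∑ a ∈ I, lam a * ∑ y, u a y ^ 2 :=
    sum_nonneg fun a _ => mul_nonneg (h.nn a) (by positivity)
  have c1 := (cs_step I lam r (fun _ => 1) (fun a => ∑ y, u a y ^ 2) (fun a _ => h.nn a)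
    (fun _ _ => zero_le_one) (fun _ _ => by positivity) fun a _ => hU a).trans
    (mul_le_mul_of_nonneg_right hn hM)
  have c2 := cs_step' Iᶜ (fun a => lam a * r a) (fun a => lam a ^ 2) (fun a => ∑ y, u a y ^ 2)
    (fun _ _ => sq_nonneg _) (fun _ _ => by positivity) fun a _ => by
      rw [mul_pow]
      exact mul_le_mul_of_nonneg_left ((hU a).trans_eq (one_mul _)) (sq_nonneg _)
  have c3 : ∑ a ∈ Iᶜ, ∑ y, u a y ^ 2 ≤ sm g 6 := by
    refine (sum_le_sum_of_subset_of_nonneg (subset_univ _) fun a _ _ => by positivity).trans ?_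
    rw [h.frob fun x y => g x y ^ 3]
    simp only [sm, ← pow_mul, le_refl]
  have c4 : l * ∑ a ∈ Iᶜ, lam a ^ 2 ≤ tr3 g g g := by
    rw [h.tr3_eq, mul_sum]
    refine (sum_le_sum fun a ha => ?_).trans
      (sum_le_sum_of_subset_of_nonneg (subset_univ _) fun a _ _ => pow_nonneg (h.nn a) 3)
    have : l ≤ lam a := by
      simp only [hI, mem_compl, mem_filter, mem_univ, true_and, not_le] at ha
      exact ha.le
    nlinarith [sq_nonneg (lam a)]
  have p1 : 0 ≤ ∑ a ∈ Iᶜ, lam a ^ 2 := by positivity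
  have p2 : 0 ≤ ∑ a ∈ Iᶜ, ∑ y, u a y ^ 2 := by positivity
  have p3 : 0 ≤ sm g 4 := sum_nonneg fun x _ => sum_nonneg fun y _ => by positivity
  rw [eM]
  set α := ∑ a ∈ I, lam a * r a
  set β := ∑ a ∈ Iᶜ, lam a * r a
  have c5 : l * β ^ 2 ≤ tr3 g g g * sm g 6 := by
    refine (mul_le_mul_of_nonneg_left c2 hl.le).trans ?_
    rw [← mul_assoc]
    exact mul_le_mul c4 c3 p2 ((mul_nonneg hl.le p1).trans c4)
  have c6 : (2 * β) ^ 2 ≤ sm g 4 ^ 2 := le_of_mul_le_mul_left (by linarith) hl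
  have c7 : 2 * β ≤ sm g 4 := (abs_le_of_sq_le_sq' c6 p3).2
  have c8 : sm g 4 ^ 2 ≤ (2 * α) ^ 2 := pow_le_pow_left₀ p3 (by linarith) 2
  linarith

lemma low_lam (h : Spec g lam e) {I : Finset X} {l : ℝ} (hl : 0 ≤ l) (hI : ∀ a ∈ I, lam a ≤ l)
    (M : X → X → ℝ) :
    FF g (cut lam e I) (fun x y => g x y ^ 2) M ^ 2 ≤
      FF g (cut lam e I) (fun x y => g x y ^ 2) g * (l * ∑ x, ∑ y, (g x y ^ 2 * M x y) ^ 2) := by
  rw [mul_sum]
  refine cs_step' _ _ _ _ (fun y _ => ?_) (fun y _ => by positivity) fun y _ => ?_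
  · exact ((h.psd_cut I).2 fun a => g y a * g y a ^ 2).trans_eq
      (sum_congr rfl fun a _ => sum_congr rfl fun b _ => by ring)
  · refine ((h.psd_cut I).cs _ _).trans (mul_le_mul (le_of_eq ?_) (cut_quad_le h hl hI _)
      ((h.psd_cut I).2 _) ?_)
    · exact sum_congr rfl fun a _ => sum_congr rfl fun b _ => by ring
    · exact ((h.psd_cut I).2 fun a => g y a * g y a ^ 2).trans_eq
        (sum_congr rfl fun a _ => sum_congr rfl fun b _ => by ring)

lemma cut_eig (h : Spec g lam e) (I : Finset X) (a x : X) :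
    ∑ y, cut lam e I x y * e a y = if a ∈ I then lam a * e a x else 0 := by
  have : ∀ y, cut lam e I x y * e a y = ∑ b ∈ I, lam b * e b x * (e b y * e a y) := fun y => by
    rw [cut, sum_mul]
    exact sum_congr rfl fun b _ => by ring
  simp only [this]
  rw [sum_comm]
  simp only [← mul_sum, h.on]
  simp

lemma cut_frob (h : Spec g lam e) (hd : ∀ x, g x x = 1) {I : Finset X} {l : ℝ} (hl : 0 ≤ l)
    (hI : ∀ a ∈ I, lam a ≤ l) : ∑ x, ∑ y, cut lam e I x y ^ 2 ≤ l * Fintype.card X := by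
  have hn : (Fintype.card X : ℝ) = ∑ a, lam a := by simp [h.trace, hd]
  rw [← h.frob, hn, mul_sum]
  refine sum_le_sum fun a _ => ?_
  simp only [cut_eig h]
  split_ifs with ha
  · simp only [mul_pow, ← mul_sum, h.norm, mul_one]
    nlinarith [hI a ha, h.nn a]
  · simpa using mul_nonneg hl (h.nn a)

lemma rho_pt {a m A t : ℝ} (hA : 0 < A) (ht : 0 < t) :
    (a ^ 2 * m) ^ 2 ≤ A ^ 4 * m ^ 2 + t / (2 * A) * |a| ^ 7 + 1 / (2 * t) * (a ^ 2 * m ^ 4) := by
  have e2 : a ^ 2 = |a| ^ 2 := (sq_abs a).symm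
  rw [e2]
  have hb := abs_nonneg a
  set b := |a|
  rcases le_total b A with h | h
  · have h1 : b ^ 4 ≤ A ^ 4 := pow_le_pow_left₀ hb h 4
    have h2 : 0 ≤ t / (2 * A) * b ^ 7 + 1 / (2 * t) * (b ^ 2 * m ^ 4) := by positivity
    nlinarith [sq_nonneg m]
  · have h1 : t / 2 * b ^ 6 ≤ t / (2 * A) * b ^ 7 := by
      rw [div_mul_eq_mul_div, div_mul_eq_mul_div, div_le_div_iff₀ (by positivity) (by positivity)]
      have : 0 ≤ t * b ^ 6 := by positivity
      nlinarith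
    have h2 : (b ^ 2 * m) ^ 2 ≤ t / 2 * b ^ 6 + 1 / (2 * t) * (b ^ 2 * m ^ 4) := by
      have : t / 2 * b ^ 6 + 1 / (2 * t) * (b ^ 2 * m ^ 4) - (b ^ 2 * m) ^ 2 =
          (t * b ^ 3 - b * m ^ 2) ^ 2 / (2 * t) := by
        field_simp
        ring
      have h3 : 0 ≤ (t * b ^ 3 - b * m ^ 2) ^ 2 / (2 * t) := by positivity
      linarith
    have h4 : 0 ≤ A ^ 4 * m ^ 2 := by positivity
    linarith

lemma rho_le (hg : Psd g) (h : Spec g lam e) (hd : ∀ x, g x x = 1) {I : Finset X} {l A t : ℝ}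
    (hl : 0 ≤ l) (hI : ∀ a ∈ I, lam a ≤ l) (hA : 0 < A) (ht : 0 < t) :
    ∑ x, ∑ y, (g x y ^ 2 * cut lam e I x y) ^ 2 ≤ A ^ 4 * (l * Fintype.card X) +
      t / (2 * A) * (∑ x, ∑ y, |g x y| ^ 7) + 1 / (2 * t) * sm g 6 := by
  have h1 : ∑ x, ∑ y, g x y ^ 2 * cut lam e I x y ^ 4 ≤ sm g 6 := by
    have hM := h.psd_cut I
    have hM' := h.psd_cut Iᶜ
    have a1 := (((hg.pow 5).mul hM').mul (hM.pow 0)).sum_nonneg
    have a2 := (((hg.pow 4).mul hM').mul (hM.pow 1)).sum_nonneg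
    have a3 := (((hg.pow 3).mul hM').mul (hM.pow 2)).sum_nonneg
    have a4 := (((hg.pow 2).mul hM').mul (hM.pow 3)).sum_nonneg
    refine le_trans (le_add_of_nonneg_right (add_nonneg (add_nonneg a1 a2) (add_nonneg a3 a4)))
      (le_of_eq ?_)
    simp only [sm, ← sum_add_distrib]
    refine sum_congr rfl fun x _ => sum_congr rfl fun y _ => ?_
    rw [← eq_sub_iff_add_eq'.2 (h.cut_add I x y) |>.symm]
    ring
  have h2 := cut_frob h hd hl hI
  refine (sum_le_sum fun x _ => sum_le_sum fun y _ => rho_pt hA ht).trans ?_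
  simp only [sum_add_distrib, ← mul_sum]
  gcongr

end Pool.Agent.P.MP_ac2766_co.Up
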