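import Pool.Agent.P.MP_ac2766_co.UpMain

/-! The swapped tensor: high and low parts. -/

set_option autoImplicit false

namespace Pool.Agent.P.MP_ac2766_co.Up

open Finset

variable {X : Type*} [Fintype X] [DecidableEq X]
  {g P P' : X → X → ℝ} {lam sg ro : X → ℝ} {e ch ka : X → X → ℝ}

/-- Coefficients of the swapped tensor. -/
def Psi (g P e ch : X → X → ℝ) (j i y : X) : ℝ :=
  ∑ a, ∑ b, g y a * ch j a * P a b * (g y b ^ 2 * e i b)

/-- Captured mass. -/
def Cap (lam sg : X → ℝ) (e ch ka : X → X → ℝ) (J I L : Finset X) : ℝ :=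
  ∑ j ∈ J, sg j * ∑ i ∈ I, lam i * ∑ l ∈ L, (∑ y, ch j y * e i y * ka l y) ^ 2

omit [DecidableEq X] in
lemma FF_cut (J I : Finset X) : FF g P (cut sg ch J) (cut lam e I) =
    ∑ j ∈ J, sg j * ∑ i ∈ I, lam i * ∑ y, Psi g P e ch j i y * (ch j y * e i y) := by
  simp only [FF, cut, Psi, mul_sum, sum_mul]
  symm
  rw [rot3 J I univ, rot3 I univ J]
  refine sum_congr rfl fun y _ => ?_
  rw [swap22]
  refine sum_congr rfl fun a _ => sum_congr rfl fun b _ => ?_
  rw [sum_comm]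
  exact sum_congr rfl fun i _ => sum_congr rfl fun j _ => by ring

lemma psi_le (h : Spec g lam e) (hq : Spec (fun x y => g x y ^ 2) sg ch) (hP : Psd P)
    (hP' : Psd P') (hPP : ∀ x y, P x y + P' x y = g x y) {J : Finset X} (I : Finset X) {s : ℝ}
    (hs : 0 ≤ s) (hJ : ∀ j ∈ J, sg j ≤ s) :
    ∑ j ∈ J, sg j * ∑ i ∈ I, lam i * ∑ y, Psi g P e ch j i y ^ 2 ≤ s * TT g := by
  set f : X → X → X → ℝ := fun y i a => g y a * ∑ b, P a b * (g y b ^ 2 * e i b) with hf
  have e1 : ∀ j i y, Psi g P e ch j i y = ∑ a, f y i a * ch j a := fun j i y => by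
    simp only [Psi, hf, mul_sum, sum_mul]
    exact sum_congr rfl fun a _ => sum_congr rfl fun b _ => by ring
  have h1 : ∑ j ∈ J, sg j * ∑ i ∈ I, lam i * ∑ y, Psi g P e ch j i y ^ 2 ≤
      ∑ j, s * ∑ i, lam i * ∑ y, Psi g P e ch j i y ^ 2 := by
    have p : ∀ j i, 0 ≤ lam i * ∑ y, Psi g P e ch j i y ^ 2 := fun j i =>
      mul_nonneg (h.nn i) (by positivity)
    refine (sum_le_sum fun j hj => mul_le_mul (hJ j hj)
      (sum_le_sum_of_subset_of_nonneg (subset_univ _) fun i _ _ => p j i)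
      (sum_nonneg fun i _ => p j i) hs).trans ?_
    exact sum_le_sum_of_subset_of_nonneg (subset_univ _) fun j _ _ =>
      mul_nonneg hs (sum_nonneg fun i _ => p j i)
  refine h1.trans ?_
  rw [← mul_sum]
  refine mul_le_mul_of_nonneg_left ?_ hs
  have e2 : ∑ j, ∑ i, lam i * ∑ y, Psi g P e ch j i y ^ 2 =
      ∑ y, ∑ a, ∑ i, lam i * f y i a ^ 2 := by
    simp only [e1, mul_sum]
    rw [rot3]
    simp only [← mul_sum, hq.pars_sq]
    simp only [mul_sum]
    rw [rot3]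
  rw [e2]
  refine sum_le_sum fun y _ => le_trans (le_of_eq ?_)
    (tr3_le (hP.conj (g y)) (hP'.conj (g y)) (L := loc g g y) fun a b => by
      rw [loc, ← hPP a b]; ring)
  refine sum_congr rfl fun a _ => ?_
  have h2 := h.sq fun b => g y a * (P a b * g y b ^ 2)
  have e3 : ∀ i, f y i a = ∑ b, g y a * (P a b * g y b ^ 2) * e i b := fun i => by
    simp only [hf, mul_sum]
    exact sum_congr rfl fun b _ => by ring
  simp only [e3, h2, loc]
  exact sum_congr rfl fun b _ => sum_congr rfl fun c _ => by rw [hP.1 c a]; ring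

lemma wt_le (h : Spec g lam e) (hq : Spec (fun x y => g x y ^ 2) sg ch) (hd : ∀ x, g x x = 1)
    (J I : Finset X) :
    ∑ j ∈ J, sg j * ∑ i ∈ I, lam i * ∑ y, (ch j y * e i y) ^ 2 ≤ ∑ j ∈ J, sg j := by
  refine sum_le_sum fun j _ => mul_le_of_le_one_right (hq.nn j) ?_
  refine (sum_le_sum_of_subset_of_nonneg (subset_univ _) fun i _ _ =>
    mul_nonneg (h.nn i) (by positivity)).trans (le_of_eq ?_)
  simp only [mul_sum]
  rw [sum_comm, ← hq.norm j]
  refine sum_congr rfl fun y _ => ?_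
  rw [← mul_one (ch j y ^ 2), ← hd y, h.eq, mul_sum]
  exact sum_congr rfl fun i _ => by ring

omit [DecidableEq X] [Fintype X] in
lemma cs2 {J I : Finset X} (hs : ∀ j, 0 ≤ sg j) (hl : ∀ i, 0 ≤ lam i) (r a b : X → X → ℝ)
    (ha : ∀ j i, 0 ≤ a j i) (hb : ∀ j i, 0 ≤ b j i) (h : ∀ j i, r j i ^ 2 ≤ a j i * b j i) :
    (∑ j ∈ J, sg j * ∑ i ∈ I, lam i * r j i) ^ 2 ≤
      (∑ j ∈ J, sg j * ∑ i ∈ I, lam i * a j i) * ∑ j ∈ J, sg j * ∑ i ∈ I, lam i * b j i :=
  cs_step J sg _ _ _ (fun j _ => hs j) (fun j _ => sum_nonneg fun i _ => mul_nonneg (hl i) (ha j i))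
    (fun j _ => sum_nonneg fun i _ => mul_nonneg (hl i) (hb j i)) fun j _ =>
    cs_step I lam _ _ _ (fun i _ => hl i) (fun i _ => ha j i) (fun i _ => hb j i) fun i _ => h j i

lemma low_sg (h : Spec g lam e) (hq : Spec (fun x y => g x y ^ 2) sg ch) (hd : ∀ x, g x x = 1)
    (hP : Psd P) (hP' : Psd P') (hPP : ∀ x y, P x y + P' x y = g x y) {J : Finset X}
    (I : Finset X) {s : ℝ} (hs : 0 ≤ s) (hJ : ∀ j ∈ J, sg j ≤ s) (hT : 0 ≤ TT g) :
    FF g P (cut sg ch J) (cut lam e I) ^ 2 ≤ s * TT g * Fintype.card X := by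
  rw [FF_cut]
  refine (cs2 hq.nn h.nn _ (fun j i => ∑ y, Psi g P e ch j i y ^ 2)
    (fun j i => ∑ y, (ch j y * e i y) ^ 2) (fun _ _ => by positivity) (fun _ _ => by positivity)
    fun j i => sum_mul_sq_le_sq_mul_sq _ _ _).trans ?_
  refine mul_le_mul (psi_le h hq hP hP' hPP I hs hJ) ((wt_le h hq hd J I).trans ?_)
    (sum_nonneg fun j _ => mul_nonneg (hq.nn j) (sum_nonneg fun i _ =>
      mul_nonneg (h.nn i) (by positivity))) (mul_nonneg hs hT)
  refine (sum_le_sum_of_subset_of_nonneg (subset_univ _) fun j _ _ => hq.nn j).trans ?_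
  simp [hq.trace, hd]

lemma feat2 (h : Spec g lam e) (hq : Spec (fun x y => g x y ^ 2) sg ch) (f k : X → ℝ) :
    ∑ j, sg j * ∑ i, lam i * ((∑ x, f x * (ch j x * e i x)) * ∑ y, k y * (ch j y * e i y)) =
      ∑ x, ∑ y, f x * g x y ^ 3 * k y := by
  have e1 : ∀ j, ∑ i, lam i * ((∑ x, f x * (ch j x * e i x)) * ∑ y, k y * (ch j y * e i y)) =
      ∑ x, ∑ y, f x * ch j x * g x y * (k y * ch j y) := fun j => by
    rw [← h.mul]
    simp only [mul_assoc]
  simp only [e1]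
  simp only [mul_sum]
  rw [rot3]
  refine sum_congr rfl fun x _ => sum_congr rfl fun y _ => ?_
  rw [pow_succ, hq.eq x y]
  simp only [mul_sum, sum_mul]
  exact sum_congr rfl fun j _ => by ring

lemma quad4 (h : Spec g lam e) {I : Finset X} {l : ℝ} (hl : 0 ≤ l) (hI : ∀ a ∈ I, lam a ≤ l)
    (R : X → X → ℝ) :
    ∑ x, ∑ y, R x y * ∑ z, ∑ w, cut lam e I x z * R z w * cut lam e I y w ≤
      l ^ 2 * ∑ x, ∑ y, R x y ^ 2 := by
  set r : X → X → ℝ := fun a b => ∑ x, (∑ y, R x y * e b y) * e a x with hr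
  have e1 : ∀ x y, ∑ z, ∑ w, cut lam e I x z * R z w * cut lam e I y w =
      ∑ a ∈ I, ∑ b ∈ I, lam a * lam b * r a b * (e a x * e b y) := fun x y => by
    simp only [cut, hr, mul_sum, sum_mul]
    rw [swap22, sum_comm]
    exact sum_congr rfl fun a _ => sum_congr rfl fun b _ => sum_congr rfl fun z _ =>
      sum_congr rfl fun w _ => by ring
  have e2 : ∑ x, ∑ y, R x y * ∑ z, ∑ w, cut lam e I x z * R z w * cut lam e I y w =
      ∑ a ∈ I, ∑ b ∈ I, lam a * lam b * r a b ^ 2 := by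
    simp only [e1, mul_sum]
    rw [swap22]
    refine sum_congr rfl fun a _ => sum_congr rfl fun b _ => ?_
    rw [sq, ← mul_assoc]
    nth_rewrite 2 [hr]
    simp only [mul_sum, sum_mul]
    exact sum_congr rfl fun x _ => sum_congr rfl fun y _ => by ring
  have e3 : ∑ x, ∑ y, R x y ^ 2 = ∑ a, ∑ b, r a b ^ 2 := by
    rw [← h.frob, sum_comm (f := fun a b => r a b ^ 2)]
    exact sum_congr rfl fun b _ => (h.pars_sq _).symm
  rw [e2, e3, mul_sum]
  refine (sum_le_sum fun a ha => ?_).trans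
    (sum_le_sum_of_subset_of_nonneg (subset_univ I) fun a _ _ => by positivity)
  rw [mul_sum]
  refine (sum_le_sum fun b hb => ?_).trans
    (sum_le_sum_of_subset_of_nonneg (subset_univ I) fun a _ _ => by positivity)
  rw [sq l]
  exact mul_le_mul_of_nonneg_right (mul_le_mul (hI a ha) (hI b hb) (h.nn b) hl) (sq_nonneg _)

lemma alpha_le (h : Spec g lam e) (hq : Spec (fun x y => g x y ^ 2) sg ch) {I : Finset X} {l : ℝ}
    (hl : 0 ≤ l) (hI : ∀ a ∈ I, lam a ≤ l) :
    ∑ j, sg j * ∑ i, lam i * ∑ m, sg m * ∑ a, lam a *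
      (∑ x, (∑ z, cut lam e I x z * (ch m z * e i z)) * (ch j x * e a x)) ^ 2 ≤ l ^ 2 * sm g 6 := by
  set k : X → X → X → ℝ := fun m i x => ∑ z, cut lam e I x z * (ch m z * e i z) with hk
  have e1 : ∑ j, sg j * ∑ i, lam i * ∑ m, sg m * ∑ a, lam a *
      (∑ x, k m i x * (ch j x * e a x)) ^ 2 =
      ∑ m, sg m * ∑ i, lam i * ∑ j, sg j * ∑ a, lam a *
        ((∑ x, k m i x * (ch j x * e a x)) * ∑ x, k m i x * (ch j x * e a x)) := by
    simp only [← sq]
    generalize (fun m i j a => (∑ x, k m i x * (ch j x * e a x)) ^ 2) = F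
    simp only [mul_sum]
    rw [rot3 univ univ univ fun j i m => ∑ a, _, sum_comm]
    exact sum_congr rfl fun m _ => sum_congr rfl fun i _ => sum_congr rfl fun j _ =>
      sum_congr rfl fun a _ => by ring
  have e2 : ∑ m, sg m * ∑ i, lam i * ∑ x, ∑ y, k m i x * g x y ^ 3 * k m i y =
      ∑ x, ∑ y, g x y ^ 3 * ∑ m, sg m * ∑ i, lam i * (k m i x * k m i y) := by
    simp only [mul_sum]
    rw [swap22]
    exact sum_congr rfl fun x _ => sum_congr rfl fun y _ => sum_congr rfl fun m _ =>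
      sum_congr rfl fun i _ => by ring
  refine (e1.trans ?_).trans_le ((quad4 h hl hI fun x y => g x y ^ 3).trans_eq ?_)
  · simp only [feat2 h hq]
    rw [e2]
    simp only [hk, feat2 h hq]
  · simp only [sm, ← pow_mul]

lemma hi_part (h : Spec g lam e) (hq : Spec (fun x y => g x y ^ 2) sg ch)
    (hr : Spec (fun x y => g x y ^ 3) ro ka) (hP : Psd P) (hP' : Psd P')
    (hPP : ∀ x y, P x y + P' x y = g x y) {J : Finset X} (I L : Finset X) {s : ℝ} (hs : 0 ≤ s)
    (hJ : ∀ j ∈ J, sg j ≤ s) :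
    (∑ j ∈ J, sg j * ∑ i ∈ I, lam i * ∑ l ∈ L, (∑ y, Psi g P e ch j i y * ka l y) *
      ∑ y, ch j y * e i y * ka l y) ^ 2 ≤ s * TT g * Cap lam sg e ch ka J I L := by
  refine (cs2 hq.nn h.nn _ (fun j i => ∑ y, Psi g P e ch j i y ^ 2)
    (fun j i => ∑ l ∈ L, (∑ y, ch j y * e i y * ka l y) ^ 2) (fun _ _ => by positivity)
    (fun _ _ => by positivity) fun j i => (sum_mul_sq_le_sq_mul_sq _ _ _).trans ?_).trans
    (mul_le_mul_of_nonneg_right (psi_le h hq hP hP' hPP I hs hJ) ?_)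
  · refine mul_le_mul_of_nonneg_right ?_ (by positivity)
    rw [← hr.pars_sq]
    exact sum_le_sum_of_subset_of_nonneg (subset_univ _) fun _ _ _ => sq_nonneg _
  · exact sum_nonneg fun j _ => mul_nonneg (hq.nn j) (sum_nonneg fun i _ =>
      mul_nonneg (h.nn i) (by positivity))

lemma lo_part (h : Spec g lam e) (hq : Spec (fun x y => g x y ^ 2) sg ch)
    (hr : Spec (fun x y => g x y ^ 3) ro ka) (hd : ∀ x, g x x = 1) {I' : Finset X} {l : ℝ}
    (hl : 0 ≤ l) (hI : ∀ a ∈ I', lam a ≤ l) (J I : Finset X) {L : Finset X} {τ : ℝ} (hτ : 0 ≤ τ)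
    (hL : ∀ b ∈ L, ro b ≤ τ) :
    (∑ j ∈ J, sg j * ∑ i ∈ I, lam i * ∑ b ∈ L, (∑ y, Psi g (cut lam e I') e ch j i y * ka b y) *
      ∑ y, ch j y * e i y * ka b y) ^ 2 ≤ l ^ 2 * sm g 6 * (τ * ∑ j ∈ J, sg j) := by
  set α : X → X → X → X → ℝ := fun j i m a =>
    ∑ x, (∑ z, cut lam e I' x z * (ch m z * e i z)) * (ch j x * e a x) with hα
  set c : X → X → X → ℝ := fun j i b => ∑ y, ch j y * e i y * ka b y with hc
  set v : X → X → X → ℝ := fun j i y => ∑ b ∈ L, c j i b * ka b y with hv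
  have e1 : ∀ j i y, Psi g (cut lam e I') e ch j i y =
      ∑ m, sg m * ∑ a, lam a * (α j i m a * (ch m y * e a y)) := fun j i y => by
    simp only [hα, Psi, mul_sum, sum_mul]
    rw [swap22]
    refine sum_congr rfl fun x _ => sum_congr rfl fun z _ => ?_
    rw [hq.eq y z, h.eq y x]
    simp only [mul_sum, sum_mul]
    exact sum_congr rfl fun m _ => sum_congr rfl fun a _ => by ring
  have e2 : ∀ j i, ∑ b ∈ L, (∑ y, Psi g (cut lam e I') e ch j i y * ka b y) * c j i b =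
      ∑ m, sg m * ∑ a, lam a * (α j i m a * ∑ y, v j i y * (ch m y * e a y)) := fun j i => by
    simp only [e1, hv, mul_sum, sum_mul]
    rw [swap22]
    refine sum_congr rfl fun m _ => sum_congr rfl fun a _ => ?_
    rw [sum_comm]
    exact sum_congr rfl fun y _ => sum_congr rfl fun b _ => by ring
  have e3 : ∀ j i b, ∑ y, v j i y * ka b y = if b ∈ L then c j i b else 0 := fun j i b => by
    simp only [hv, sum_mul]
    rw [sum_comm]
    simp only [mul_assoc, ← mul_sum, hr.on]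
    simp
  have h4 : ∀ j i, ∑ m, sg m * ∑ a, lam a * (∑ y, v j i y * (ch m y * e a y)) ^ 2 ≤
      τ * ∑ y, (ch j y * e i y) ^ 2 := fun j i => by
    simp only [sq (∑ y, v j i y * _)]
    rw [feat2 h hq, ← hr.sq, ← hr.pars_sq, mul_sum]
    refine sum_le_sum fun b _ => ?_
    rw [e3]
    split_ifs with hb
    · exact mul_le_mul_of_nonneg_right (hL b hb) (sq_nonneg _)
    · simp only [ne_eq, OfNat.ofNat_ne_zero, not_false_eq_true, zero_pow, mul_zero]
      positivity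
  have p : ∀ j i, 0 ≤ ∑ m, sg m * ∑ a, lam a * α j i m a ^ 2 := fun j i =>
    sum_nonneg fun m _ => mul_nonneg (hq.nn m) (sum_nonneg fun a _ =>
      mul_nonneg (h.nn a) (sq_nonneg _))
  refine (cs2 hq.nn h.nn _ (fun j i => ∑ m, sg m * ∑ a, lam a * α j i m a ^ 2)
    (fun j i => τ * ∑ y, (ch j y * e i y) ^ 2) p (fun _ _ => by positivity) fun j i => ?_).trans ?_
  · rw [e2]
    exact (cs2 hq.nn h.nn _ _ _ (fun _ _ => sq_nonneg _) (fun _ _ => sq_nonneg _) fun _ _ =>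
      (mul_pow _ _ _).le).trans (mul_le_mul_of_nonneg_left (h4 j i) (p j i))
  · refine mul_le_mul (le_trans ?_ (alpha_le h hq hl hI)) ?_
      (sum_nonneg fun j _ => mul_nonneg (hq.nn j) (sum_nonneg fun i _ =>
        mul_nonneg (h.nn i) (by positivity)))
      (mul_nonneg (sq_nonneg _) (sum_nonneg fun _ _ => sum_nonneg fun _ _ => by positivity))
    · refine (sum_le_sum fun j _ => mul_le_mul_of_nonneg_left
        (sum_le_sum_of_subset_of_nonneg (subset_univ I) fun i _ _ => mul_nonneg (h.nn i) (p j i))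
        (hq.nn j)).trans ?_
      exact sum_le_sum_of_subset_of_nonneg (subset_univ J) fun j _ _ =>
        mul_nonneg (hq.nn j) (sum_nonneg fun i _ => mul_nonneg (h.nn i) (p j i))
    · refine le_trans (le_of_eq ?_) (mul_le_mul_of_nonneg_left (wt_le h hq hd J I) hτ)
      simp only [mul_sum]
      exact sum_congr rfl fun j _ => sum_congr rfl fun i _ => sum_congr rfl fun y _ => by ring

lemma FF_split (hr : Spec (fun x y => g x y ^ 3) ro ka) (J I L : Finset X) :
    FF g P (cut sg ch J) (cut lam e I) =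
      (∑ j ∈ J, sg j * ∑ i ∈ I, lam i * ∑ b ∈ L, (∑ y, Psi g P e ch j i y * ka b y) *
        ∑ y, ch j y * e i y * ka b y) +
      ∑ j ∈ J, sg j * ∑ i ∈ I, lam i * ∑ b ∈ Lᶜ, (∑ y, Psi g P e ch j i y * ka b y) *
        ∑ y, ch j y * e i y * ka b y := by
  rw [FF_cut]
  simp only [← sum_add_distrib, ← mul_add, sum_add_sum_compl, hr.pars]

end Pool.Agent.P.MP_ac2766_co.Up
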